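import Pool.Agent.H63.PD.Cha

/-!
# CHB: the chain inequality

Write `γ = a j`, `A = a (j+1)`, `aa = (k-2) rho 2`, `g₂ = 2 + aa - γ`.
Proof.  If `g₂ ≤ 0` the left side is `≤ 0` and the right side `≥ 0`.  Let `g₂ > 0`.
Claim: for `2 ≤ s ≤ j` there is a flat `F` of relative rank `s` with `2 ≤ b F` and
`g₂ * ∏_{i ∈ Ico 2 s} (A - a i) ≤ (mu s F - γ) * aa^(s-2)` (so `mu s F > γ`).
`s = 2`: `exists_line`; `mu 2 F = b F + (k - b F) rho 2 ≥ 2 + (k-2) rho 2` (`rho 2 ≤ 1`).
Step `s → s+1 ≤ j`: `exists_growth` (`i = s`, `t = j`): some `y ∈ out F` has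
`(A - b F)(mu s F - γ) ≤ (k - b F) rho s (mu (s+1) (jn F y) - γ)`.  Here `A - b F ≥ A - a s > 0`
(`IsF.b_le`) and `0 < (k - b F) rho s ≤ (k-2) rho 2 = aa` (`rho_anti`), so
`mu (s+1) (jn F y) - γ > 0` and `(A - a s)(mu s F - γ) ≤ aa (mu (s+1) (jn F y) - γ)`.
Last step: for the flat `F` of relative rank `j`: `A - b F ≥ A - γ/2` (CHA), so some `G = jn F y` of relative
rank `j+1` has `(A - γ/2)(mu j F - γ) ≤ aa (mu (j+1) G - γ)`, and `b G ≤ γ` (NGD), so
`mu (j+1) G - γ ≤ (k-γ) rho (j+1)`.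
-/

open Set

namespace Pool.Agent.H63.PD

open Pool.Agent.H69.Pmd

set_option linter.unusedSectionVars false

variable {α : Type*} [Fintype α] {C : PD α}

/-- comparison of the factors `(k - b F) rho s` -/
theorem Chb_fac {s : ℕ} (h2s : 2 ≤ s) (hs : s ≤ C.m + 3) {F : Set α} (hF : C.IsF s F)
    (hb : 2 ≤ C.b F) : (C.k - C.b F) * C.rho s ≤ (C.k - 2) * C.rho 2 := by
  have h1 := b_lt_k hF (by omega)
  exact mul_le_mul (by linarith) (rho_anti h2s hs) (rho_pos hs).le (by linarith)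

theorem Chb_step {x m m' p A b a q : ℝ} (hp : 0 < p) (hm : 0 < m) (hA : 0 < A) (hb : A ≤ b)
    (hq : 0 < q) (hqa : q ≤ a) (h : b * m ≤ q * m') (hx : x ≤ m * p) :
    0 < m' ∧ x * A ≤ m' * (p * a) := by
  have e1 : 0 < q * m' := (mul_pos (hA.trans_le hb) hm).trans_le h
  have e2 : 0 < m' := by
    rcases lt_or_ge 0 m' with h' | h'
    · exact h'
    · have := mul_nonpos_of_nonneg_of_nonpos hq.le h'
      linarith
  refine ⟨e2, ?_⟩
  have e3 : A * m ≤ b * m := mul_le_mul_of_nonneg_right hb hm.le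
  have e4 : q * m' ≤ a * m' := mul_le_mul_of_nonneg_right hqa e2.le
  have e5 : x * A ≤ m * p * A := mul_le_mul_of_nonneg_right hx hA.le
  have e6 : (A * m) * p ≤ (a * m') * p := mul_le_mul_of_nonneg_right (by linarith) hp.le
  calc x * A ≤ m * p * A := e5
    _ = (A * m) * p := by ring
    _ ≤ (a * m') * p := e6
    _ = m' * (p * a) := by ring

theorem chb (h5 : 5 ≤ C.a 2) {j : ℕ} (hj : 3 ≤ j) (hjm : j ≤ C.m + 2) (hl : C.a j - 2 < C.k0)
    (hk : C.k0 < C.a j + 1) (h6 : 6 * C.a j ≤ C.a (j + 1)) (h6' : 6 * C.a (j + 1) ≤ C.a (j + 2)) :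
    (2 + (C.k - 2) * C.rho 2 - C.a j) * ((∏ i ∈ Finset.Ico 2 j, (C.a (j + 1) - C.a i)) *
      (C.a (j + 1) - C.a j / 2)) ≤
    ((C.k - C.a j) * C.rho (j + 1)) * ((C.k - 2) * C.rho 2) ^ (j - 1) := by
  have hk2 : C.a 2 < C.k := C.a_lt (by omega) (by omega)
  have hr2 : 0 < C.rho 2 := rho_pos (by omega)
  have haa : 0 < (C.k - 2) * C.rho 2 := mul_pos (by linarith) hr2
  have hγ := C.a_pos (show 1 ≤ j by omega) (by omega)
  have hA : C.a j < C.a (j + 1) := C.a_lt (by omega) (by omega)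
  have hkj : C.a j < C.k := C.a_lt (by omega) (by omega)
  have hrj : 0 < C.rho (j + 1) := rho_pos (by omega)
  have hprod : ∀ s ≤ j, 0 < ∏ i ∈ Finset.Ico 2 s, (C.a (j + 1) - C.a i) := by
    intro s hs
    apply Finset.prod_pos
    intro i hi
    have hi' := Finset.mem_Ico.1 hi
    exact sub_pos.2 (C.a_lt (by omega) (by omega))
  obtain ⟨aa, haa'⟩ : ∃ aa, aa = (C.k - 2) * C.rho 2 := ⟨_, rfl⟩
  rw [← haa'] at haa ⊢
  rcases le_or_gt (2 + aa - C.a j) 0 with hg | hg
  · have e1 : 0 ≤ (∏ i ∈ Finset.Ico 2 j, (C.a (j + 1) - C.a i)) * (C.a (j + 1) - C.a j / 2) :=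
      mul_nonneg (hprod j le_rfl).le (by linarith)
    have e2 : 0 ≤ ((C.k - C.a j) * C.rho (j + 1)) * aa ^ (j - 1) :=
      mul_nonneg (mul_nonneg (by linarith) hrj.le) (pow_nonneg haa.le _)
    exact (mul_nonpos_of_nonpos_of_nonneg hg e1).trans e2
  -- the chain
  have key : ∀ s, 2 ≤ s → s ≤ j → ∃ F, C.IsF s F ∧ 2 ≤ C.b F ∧ 0 < C.mu s F - C.a j ∧
      (2 + aa - C.a j) * (∏ i ∈ Finset.Ico 2 s, (C.a (j + 1) - C.a i)) ≤
        (C.mu s F - C.a j) * aa ^ (s - 2) := by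
    intro s hs
    induction s, hs using Nat.le_induction with
    | base =>
      intro _
      obtain ⟨F, hF, hFb⟩ := exists_line (C := C)
      have e1 := rho_lt_one (C := C) (i := 2) (by omega)
      have e2 : 2 + aa ≤ C.mu 2 F := by
        rw [mu, haa']
        have := mul_le_mul_of_nonneg_left e1.le (show 0 ≤ C.b F - 2 by linarith)
        linarith
      refine ⟨F, hF, hFb, by linarith, ?_⟩
      simp only [Finset.Ico_self, Finset.prod_empty, Nat.sub_self, pow_zero, mul_one]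
      linarith
    | succ s hs ih =>
      intro hsj
      obtain ⟨F, hF, hFb, hm, hle⟩ := ih (by omega)
      obtain ⟨y, hy, hgr⟩ := exists_growth (i := s) (t := j) (by omega) hF hjm
      have hyF := (mem_out.1 hy).2
      have hfac := Chb_fac hs (by omega) hF hFb
      rw [← haa'] at hfac
      have hq : 0 < (C.k - C.b F) * C.rho s :=
        mul_pos (by have := b_lt_k hF (by omega); linarith) (rho_pos (by omega))
      have hAs : 0 < C.a (j + 1) - C.a s := sub_pos.2 (C.a_lt (by omega) (by omega))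
      have hbF := hF.b_le
      obtain ⟨c1, c2⟩ := Chb_step (pow_pos haa (s - 2)) hm hAs (by linarith) hq hfac hgr hle
      refine ⟨C.jn F y, hF.jn hyF, hFb.trans (b_mono (sub_jn F y)), c1, ?_⟩
      rw [Finset.prod_Ico_succ_top hs, ← mul_assoc]
      rw [← pow_succ, show s - 2 + 1 = s + 1 - 2 by omega] at c2
      exact c2
  obtain ⟨F, hF, hFb, hm, hle⟩ := key j (by omega) le_rfl
  obtain ⟨y, hy, hgr⟩ := exists_growth (i := j) (t := j) hjm hF hjm
  have hyF := (mem_out.1 hy).2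
  have hfac := Chb_fac (by omega) (by omega) hF hFb
  rw [← haa'] at hfac
  have hq : 0 < (C.k - C.b F) * C.rho j :=
    mul_pos (by have := b_lt_k hF (by omega); linarith) (rho_pos (by omega))
  have hcha := cha h5 hj hjm hl hk h6 h6' hF
  obtain ⟨c1, c2⟩ := Chb_step (A := C.a (j + 1) - C.a j / 2) (pow_pos haa (j - 2)) hm
    (by linarith) (by linarith) hq hfac hgr hle
  have hG := hF.jn hyF
  have hGb := ngd h5 (by omega) hk le_rfl (by omega) hG
  have hmu : C.mu (j + 1) (C.jn F y) - C.a j ≤ (C.k - C.a j) * C.rho (j + 1) := by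
    have e1 := rho_lt_one (C := C) (i := j + 1) (by omega)
    have := mul_le_mul_of_nonneg_left e1.le (show 0 ≤ C.a j - C.b (C.jn F y) by linarith)
    rw [mu]
    linarith
  rw [← pow_succ, show j - 2 + 1 = j - 1 by omega, mul_assoc] at c2
  exact c2.trans (mul_le_mul_of_nonneg_right hmu (pow_nonneg haa.le _))

end Pool.Agent.H63.PD
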