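import Mathlib

/-!
# REA: real inequalities (Mathlib only)

`rb1`: with `x = (k-1)²/(v-1)`, `aa = (k-2)(k-l)/(v-l)`:
`(k-l)/(v-l) = (k-1)/(v-1) - (l-1)(v-k)/((v-1)(v-l))`, so
`aa = x · ((k-2)/(k-1)) · (1 - (l-1)(v-k)/((k-1)(v-l))) ≥ x (1 - 1/(k-1)) (1 - (l-1)/(k-1)) ≥ x (1 - l/(k-1))`.
`rb2`: `aa ≤ x`.
`rb3`: `cc/aa = (k-μ)(v-l)/((k-2)(v-μ)) = 1 - [v(μ-2) - k(μ-l) - μ(l-2)]/((k-2)(v-μ))`, and
`v(μ-2) - k(μ-l) - μ(l-2) ≥ (μ-7/2)(v-μ)` iff `(3/2) v - k(μ-l) + μ(μ - l - 3/2) ≥ 0`, which holds since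
`v ≥ k²/(l+1)`, `k ≥ (l-1) μ + 1`, so `(3/2) v ≥ k μ (3/2)(l-1)/(l+1) ≥ k μ`.
`rb4`: suppose `x ≤ l - 1 - 2/l`.  `k0 - x = (2kv - v - k²)/(v(v-1)) ≤ 2k/v·v/(v-1)`, small:
`k/v = k0/k ≤ (l+1)/k ≤ 6/85`-like, so `x > l - 2.15`; then `x (l-x) < k0 (l-x) ≤ l` contradicts
`x(l-x) > l` on `[l-2.15, l-1-2/l]` (concave in `x`, true at both end points: `2.15(l-2.15) > l`,
`(1+2/l)(l-1-2/l) = l+1-4/l-4/l² > l`).
-/

namespace Pool.Agent.H63.PDR

theorem rb1 {l k v : ℝ} (hl : 5 ≤ l) (hk : l < k) (hv : k < v) :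
    (k - 1) ^ 2 / (v - 1) * (1 - l / (k - 1)) ≤ (k - 2) * ((k - l) / (v - l)) := by
  have h1 : 0 < v - 1 := by linarith
  have h2 : 0 < v - l := by linarith
  have h3 : 0 < k - 1 := by linarith
  have e1 : (k - 1) ^ 2 / (v - 1) * (1 - l / (k - 1)) = (k - 1) * (k - 1 - l) / (v - 1) := by
    field_simp
  have e2 : (k - 2) * ((k - l) / (v - l)) = (k - 2) * (k - l) / (v - l) := by ring
  rw [e1, e2, div_le_div_iff₀ h1 h2]
  have h4 : 0 ≤ (l - 1) * ((k - 1) * (k - l) + (v - k)) := by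
    apply mul_nonneg (by linarith)
    have : 0 ≤ (k - 1) * (k - l) := mul_nonneg h3.le (by linarith)
    linarith
  nlinarith [h4]

theorem rb2 {l k v : ℝ} (hl : 5 ≤ l) (hk : l < k) (hv : k < v) :
    (k - 2) * ((k - l) / (v - l)) ≤ (k - 1) ^ 2 / (v - 1) := by
  have h1 : 0 < v - 1 := by linarith
  have h2 : 0 < v - l := by linarith
  have h3 : 0 < k - 1 := by linarith
  have e2 : (k - 2) * ((k - l) / (v - l)) = (k - 2) * (k - l) / (v - l) := by ring
  rw [e2, div_le_div_iff₀ h2 h1]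
  have h4 : 0 ≤ (v - k) * (l * (k - 2) + 1) + (k - 1) * (k - l) := by
    apply add_nonneg
    · apply mul_nonneg (by linarith)
      have : 0 ≤ l * (k - 2) := mul_nonneg (by linarith) (by linarith)
      linarith
    · exact mul_nonneg h3.le (by linarith)
  nlinarith [h4]

theorem rb3 {l μ k v : ℝ} (hl : 5 ≤ l) (hμ : l ^ 2 - l + 1 ≤ μ) (hk : (l - 1) * μ + 1 ≤ k)
    (hv : k < v) (h0 : k ^ 2 / v < l + 1) :
    (k - l) * ((k - μ) / (v - μ)) ≤
      ((k - 2) * ((k - l) / (v - l))) * (1 - (μ - 7 / 2) / (k - 2)) := by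
  have hμ21 : 21 ≤ μ := by nlinarith
  have hμl : l + 16 ≤ μ := by nlinarith
  have hkμ : 4 * μ + 1 ≤ k := by nlinarith
  have h1 : 0 < v - μ := by linarith
  have h2 : 0 < v - l := by linarith
  have h3 : 0 < k - 2 := by linarith
  have h4 : 0 < v := by linarith
  rw [div_lt_iff₀ h4] at h0
  have e1 : (k - l) * ((k - μ) / (v - μ)) = (k - l) * (k - μ) / (v - μ) := by ring
  have e2 : ((k - 2) * ((k - l) / (v - l))) * (1 - (μ - 7 / 2) / (k - 2)) =
      (k - l) * (k - μ + 3 / 2) / (v - l) := by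
    field_simp
    ring
  rw [e1, e2, div_le_div_iff₀ h1 h2]
  have h5 : k * μ ≤ 3 / 2 * v := by
    have h6 : k * ((l - 1) * μ + 1) ≤ k * k := mul_le_mul_of_nonneg_left hk (by linarith)
    have h7 : (l + 1) * (k * μ) ≤ (l + 1) * (3 / 2 * v) := by
      have h8 : 0 ≤ k * μ * (l - 5) := by
        apply mul_nonneg (mul_nonneg (by linarith) (by linarith)) (by linarith)
      nlinarith
    exact le_of_mul_le_mul_left h7 (by linarith)
  have h9 : 0 ≤ 3 / 2 * (v - μ) - (k - μ) * (μ - l) := by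
    have h10 : 0 ≤ μ * (μ - l - 3 / 2) := mul_nonneg (by linarith) (by linarith)
    have h11 : 0 ≤ k * l := mul_nonneg (by linarith) (by linarith)
    nlinarith
  have h12 : 0 ≤ (k - l) * (3 / 2 * (v - μ) - (k - μ) * (μ - l)) :=
    mul_nonneg (by linarith) h9
  nlinarith [h12]

theorem rb4 {l μ k v : ℝ} (hl : 5 ≤ l) (hμ : l ^ 2 - l + 1 ≤ μ) (hk : (l - 1) * μ + 1 ≤ k)
    (hv : k < v) (h0 : k ^ 2 / v < l + 1) (h1 : l - 2 < k ^ 2 / v)
    (hW : k ^ 2 / v * (l - (k - 1) ^ 2 / (v - 1)) ≤ l) :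
    l - 1 - 2 / l < (k - 1) ^ 2 / (v - 1) := by
  by_contra hcon
  push Not at hcon
  have hμ21 : 21 ≤ μ := by nlinarith
  have hk85 : 85 / 6 * (l + 1) ≤ k := by
    have h2 : (l - 1) * (l ^ 2 - l + 1) ≤ (l - 1) * μ := mul_le_mul_of_nonneg_left hμ (by linarith)
    have h3 : 85 / 6 * (l + 1) ≤ (l - 1) * (l ^ 2 - l + 1) + 1 := by
      have h4 : 0 ≤ l - 5 := by linarith
      have h5 : (l - 1) * (l ^ 2 - l + 1) + 1 - 85 / 6 * (l + 1) =
          (l - 5) ^ 3 + 13 * (l - 5) ^ 2 + (57 - 85 / 6) * (l - 5) := by ring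
      have h6 : 0 ≤ (l - 5) ^ 3 := by positivity
      have h7 : 0 ≤ (l - 5) ^ 2 := by positivity
      linarith
    linarith
  have hk85' : 85 ≤ k := by linarith
  have hv0 : 0 < v := by linarith
  have hv1 : 0 < v - 1 := by linarith
  have h0' := h0
  rw [div_lt_iff₀ hv0] at h0'
  -- `k < 6 v / 85`
  have hkv : 85 * k < 6 * v := by
    have h2 : 85 / 6 * (l + 1) * k ≤ k ^ 2 := by
      rw [sq]; exact mul_le_mul_of_nonneg_right hk85 (by linarith)
    have h3 : (l + 1) * (85 * k) < (l + 1) * (6 * v) := by linarith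
    exact lt_of_mul_lt_mul_left h3 (by linarith)
  -- the difference
  have hd1 : (k - 1) ^ 2 / (v - 1) < k ^ 2 / v := by
    rw [div_lt_div_iff₀ hv1 hv0]
    have h2 : 0 < k * (v - k) := mul_pos (by linarith) (by linarith)
    have h3 : 0 < v * (k - 1) := mul_pos hv0 (by linarith)
    linarith
  have hd2 : k ^ 2 / v - (k - 1) ^ 2 / (v - 1) < 3 / 20 := by
    rw [div_sub_div _ _ hv0.ne' hv1.ne', div_lt_iff₀ (mul_pos hv0 hv1)]
    have h2 : 0 < v * (6 * v - 85 * k) := mul_pos hv0 (by linarith)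
    have h3 : 0 < v * (v - 85) := mul_pos hv0 (by linarith)
    have h4 := sq_nonneg k
    linarith
  set x := (k - 1) ^ 2 / (v - 1) with hx
  set k0 := k ^ 2 / v with hk0
  set a := 1 + 2 / l with ha
  have hl0 : 0 < l := by linarith
  have ha1 : l * (a - 1) = 2 := by rw [ha]; field_simp; ring
  have ha2 : a ≤ 7 / 5 := by
    rw [ha]
    have : 2 / l ≤ 2 / 5 := div_le_div_of_nonneg_left (by norm_num) (by norm_num) hl
    linarith
  have ha3 : 1 < a := by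
    rw [ha]
    have : 0 < 2 / l := by positivity
    linarith
  have hy1 : a ≤ l - x := by rw [ha]; linarith
  have hy2 : l - x ≤ 43 / 20 := by linarith
  have hprod : 0 ≤ (l - x - a) * (43 / 20 - (l - x)) := mul_nonneg (by linarith) (by linarith)
  have h2 : x * (l - x) < l := by
    have : x * (l - x) < k0 * (l - x) := mul_lt_mul_of_pos_right hd1 (by linarith)
    linarith
  have h3 : 0 ≤ (l - a - 43 / 20) * (l - x - a) := mul_nonneg (by linarith) (by linarith)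
  have h4 : a * a ≤ 49 / 25 := by nlinarith
  linarith

end Pool.Agent.H63.PDR
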