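import Mathlib

/-!
# REB: real inequalities (Mathlib only)

The final polynomial inequalities are in Bernstein form with positive coefficients.
-/

namespace Pool.Agent.H63.PDR

set_option maxRecDepth 100000

theorem reb_core {l μ k x a c x0 : ℝ} (hl : 5 ≤ l) (hμ : l ^ 2 - l + 1 ≤ μ)
    (hk : (l - 1) * μ + 1 ≤ k) (hx0 : 0 < x0)
    (hx : x0 < x) (hx' : x < l + 1) (ha : x * (1 - l / (k - 1)) ≤ a) (ha' : a ≤ x)
    (hc : c ≤ a * (1 - (μ - 7 / 2) / (k - 2))) (hI : (μ - 2) * (a + 2 - l) ≤ a * c)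
    (hpos : ∀ T, 0 ≤ T → T ≤ 1 → 0 < (μ - 2) * (x0 * (1 - l * T / ((l - 1) * μ)) + 2 - l) -
      (x0 * (1 - l * T / ((l - 1) * μ))) ^ 2 * (1 - (μ - 7 / 2) * T / ((l - 1) * μ))) : False := by
  have hμ21 : 21 ≤ μ := by nlinarith
  have hD : 0 < (l - 1) * μ := mul_pos (by linarith) (by linarith)
  have hD84 : 84 ≤ (l - 1) * μ := by nlinarith
  have hk1 : 0 < k - 1 := by linarith
  have hk2 : 0 < k - 2 := by linarith
  obtain ⟨T, hT⟩ : ∃ T, T = (l - 1) * μ / (k - 1) := ⟨_, rfl⟩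
  have hT0 : 0 < T := by rw [hT]; exact div_pos hD hk1
  have hT1 : T ≤ 1 := by rw [hT, div_le_one hk1]; linarith
  have hDne : (l - 1) * μ ≠ 0 := hD.ne'
  have e1 : l * T / ((l - 1) * μ) = l / (k - 1) := by
    rw [hT, mul_div_assoc, div_div_cancel_left' hDne, ← div_eq_mul_inv]
  have e2 : (μ - 7 / 2) * T / ((l - 1) * μ) = (μ - 7 / 2) / (k - 1) := by
    rw [hT, mul_div_assoc, div_div_cancel_left' hDne, ← div_eq_mul_inv]
  have h0 := hpos T hT0.le hT1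
  rw [e1, e2] at h0
  have hlk : l / (k - 1) < 1 := by rw [div_lt_one hk1]; nlinarith
  obtain ⟨s, hs⟩ : ∃ s, s = 1 - l / (k - 1) := ⟨_, rfl⟩
  have hs0 : 0 < s := by rw [hs]; linarith
  rw [← hs] at h0 ha
  obtain ⟨q, hq⟩ : ∃ q, q = 1 - (μ - 7 / 2) / (k - 1) := ⟨_, rfl⟩
  have hq1 : q ≤ 1 := by
    rw [hq]
    have : 0 ≤ (μ - 7 / 2) / (k - 1) := div_nonneg (by linarith) hk1.le
    linarith
  have hq0 : 0 ≤ q := by
    rw [hq]
    have : (μ - 7 / 2) / (k - 1) ≤ 1 := by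
      rw [div_le_one hk1]; nlinarith
    linarith
  rw [← hq] at h0
  have ha0 : x0 * s < a := lt_of_lt_of_le (mul_lt_mul_of_pos_right hx hs0) ha
  have hapos : 0 < a := lt_trans (mul_pos hx0 hs0) ha0
  have hqc : c ≤ a * q := by
    refine hc.trans (mul_le_mul_of_nonneg_left ?_ hapos.le)
    rw [hq]
    have : (μ - 7 / 2) / (k - 1) ≤ (μ - 7 / 2) / (k - 2) :=
      div_le_div_of_nonneg_left (by linarith) hk2 (by linarith)
    linarith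
  have h1 : (μ - 2) * (a + 2 - l) ≤ a * (a * q) :=
    hI.trans (mul_le_mul_of_nonneg_left hqc hapos.le)
  have h2 : q * (a + x0 * s) ≤ μ - 2 := by
    have h3 : q * (a + x0 * s) ≤ 1 * (a + x0 * s) :=
      mul_le_mul_of_nonneg_right hq1 (by have := mul_pos hx0 hs0; linarith)
    nlinarith
  have h4 : 0 ≤ (a - x0 * s) * ((μ - 2) - q * (a + x0 * s)) :=
    mul_nonneg (by linarith) (by linarith)
  nlinarith

theorem ra {l μ k x a c : ℝ} (hl : 5 ≤ l) (hμ : l ^ 2 ≤ μ) (hk : (l - 1) * μ + 1 ≤ k)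
    (hx : l - 1 - 2 / l < x) (hx' : x < l + 1) (ha : x * (1 - l / (k - 1)) ≤ a) (ha' : a ≤ x)
    (hc : c ≤ a * (1 - (μ - 7 / 2) / (k - 2))) (hI : (μ - 2) * (a + 2 - l) ≤ a * c) : False := by
  have hl0 : l ≠ 0 := by linarith
  have hx0 : l - 1 - 2 / l = (l ^ 2 - l - 2) / l := by field_simp
  rw [hx0] at hx
  refine reb_core hl (by linarith) hk (div_pos (by nlinarith) (by linarith)) hx hx' ha ha' hc hI ?_
  intro T hT0 hT1
  obtain ⟨z, rfl⟩ : ∃ z, l = z + 5 := ⟨l - 5, by ring⟩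
  obtain ⟨w, rfl⟩ : ∃ w, μ = (z + 5) ^ 2 + w := ⟨μ - (z + 5) ^ 2, by ring⟩
  have hz : 0 ≤ z := by linarith
  have hw : 0 ≤ w := by linarith
  obtain ⟨U, hU⟩ : ∃ U, U = 1 - T := ⟨_, rfl⟩
  have hU0 : 0 ≤ U := by linarith
  have hTU : T + U = 1 := by linarith
  have hp : 0 < U ^ 3 * (21000000 + 17520000 * w + 42356000 * w * z + 46481800 * w * z ^ 2 + 30579990 * w * z ^
      3 + 13407112 * w * z ^ 4 + 4114679 * w * z ^ 5 + 902298 * w * z ^ 6 + 141409 * w * z ^ 7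
      + 15524 * w * z ^ 8 + 1137 * w * z ^ 9 + 50 * w * z ^ 10 + 1 * w * z ^ 11 + 1900800 * w ^
      2 + 3913920 * w ^ 2 * z + 3570672 * w ^ 2 * z ^ 2 + 1895124 * w ^ 2 * z ^ 3 + 645108 * w
      ^ 2 * z ^ 4 + 146103 * w ^ 2 * z ^ 5 + 22020 * w ^ 2 * z ^ 6 + 2130 * w ^ 2 * z ^ 7 + 120
      * w ^ 2 * z ^ 8 + 3 * w ^ 2 * z ^ 9 + 73344 * w ^ 3 + 122848 * w ^ 3 * z + 87736 * w ^ 3
      * z ^ 2 + 34650 * w ^ 3 * z ^ 3 + 8176 * w ^ 3 * z ^ 4 + 1153 * w ^ 3 * z ^ 5 + 90 * w ^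
      3 * z ^ 6 + 3 * w ^ 3 * z ^ 7 + 960 * w ^ 4 + 1232 * w ^ 4 * z + 628 * w ^ 4 * z ^ 2 +
      159 * w ^ 4 * z ^ 3 + 20 * w ^ 4 * z ^ 4 + 1 * w ^ 4 * z ^ 5 + 50950000 * z + 55937500 *
      z ^ 2 + 36688125 * z ^ 3 + 15974000 * z ^ 4 + 4848320 * z ^ 5 + 1046784 * z ^ 6 + 160778
      * z ^ 7 + 17216 * z ^ 8 + 1224 * z ^ 9 + 52 * z ^ 10 + 1 * z ^ 11) + 3 * T ^ 1 * U ^ 2 *
      (20520000 + 17061600 * w + 41579840 * w * z + (137784082/3) * w * z ^ 2 + (91102879/3) *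
      w * z ^ 3 + 13362091 * w * z ^ 4 + (12331388/3) * w * z ^ 5 + 902522 * w * z ^ 6 +
      (424526/3) * w * z ^ 7 + (46601/3) * w * z ^ 8 + (3412/3) * w * z ^ 9 + 50 * w * z ^ 10 +
      1 * w * z ^ 11 + 1866432 * w ^ 2 + 3863184 * w ^ 2 * z + (10617908/3) * w ^ 2 * z ^ 2 +
      1884623 * w ^ 2 * z ^ 3 + (3858365/6) * w ^ 2 * z ^ 4 + 145872 * w ^ 2 * z ^ 5 +
      (132037/6) * w ^ 2 * z ^ 6 + (6389/3) * w ^ 2 * z ^ 7 + 120 * w ^ 2 * z ^ 8 + 3 * w ^ 2 *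
      z ^ 9 + 72672 * w ^ 3 + 122080 * w ^ 3 * z + (262178/3) * w ^ 3 * z ^ 2 + 34575 * w ^ 3 *
      z ^ 3 + 8168 * w ^ 3 * z ^ 4 + (3458/3) * w ^ 3 * z ^ 5 + 90 * w ^ 3 * z ^ 6 + 3 * w ^ 3
      * z ^ 7 + 960 * w ^ 4 + 1232 * w ^ 4 * z + 628 * w ^ 4 * z ^ 2 + 159 * w ^ 4 * z ^ 3 + 20
      * w ^ 4 * z ^ 4 + 1 * w ^ 4 * z ^ 5 + 51256000 * z + (173812900/3) * z ^ 2 +
      (117363970/3) * z ^ 3 + (105201197/6) * z ^ 4 + (16430227/3) * z ^ 5 + (7299587/6) * z ^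
      6 + (576584/3) * z ^ 7 + (42321/2) * z ^ 8 + (4639/3) * z ^ 9 + (135/2) * z ^ 10 + (4/3)
      * z ^ 11) + 3 * T ^ 2 * U ^ 1 * (17448000 + 16391520 * w + 40408184 * w * z +
      (135164768/3) * w * z ^ 2 + (90029198/3) * w * z ^ 3 + (39828371/3) * w * z ^ 4 + 4098962
      * w * z ^ 5 + (2705837/3) * w * z ^ 6 + (424676/3) * w * z ^ 7 + 15542 * w * z ^ 8 +
      (3413/3) * w * z ^ 9 + 50 * w * z ^ 10 + 1 * w * z ^ 11 + 1827744 * w ^ 2 + 3806184 * w ^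
      2 * z + (10512640/3) * w ^ 2 * z ^ 2 + 1872964 * w ^ 2 * z ^ 3 + (1922443/3) * w ^ 2 * z
      ^ 4 + 145623 * w ^ 2 * z ^ 5 + (65975/3) * w ^ 2 * z ^ 6 + (6388/3) * w ^ 2 * z ^ 7 + 120
      * w ^ 2 * z ^ 8 + 3 * w ^ 2 * z ^ 9 + 72000 * w ^ 3 + 121312 * w ^ 3 * z + (261148/3) * w
      ^ 3 * z ^ 2 + 34500 * w ^ 3 * z ^ 3 + 8160 * w ^ 3 * z ^ 4 + (3457/3) * w ^ 3 * z ^ 5 +
      90 * w ^ 3 * z ^ 6 + 3 * w ^ 3 * z ^ 7 + 960 * w ^ 4 + 1232 * w ^ 4 * z + 628 * w ^ 4 * z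
      ^ 2 + 159 * w ^ 4 * z ^ 3 + 20 * w ^ 4 * z ^ 4 + 1 * w ^ 4 * z ^ 5 + 45632800 * z +
      (161678480/3) * z ^ 2 + (113811617/3) * z ^ 3 + (53057876/3) * z ^ 4 + (17200031/3) * z ^
      5 + (3956431/3) * z ^ 6 + 215260 * z ^ 7 + 24434 * z ^ 8 + 1837 * z ^ 9 + (247/3) * z ^
      10 + (5/3) * z ^ 11) + T ^ 3 * (11958150 + 15517860 * w + 38852372 * w * z + 43868975 * w
      * z ^ 2 + 29508253 * w * z ^ 3 + 13149532 * w * z ^ 4 + 4080205 * w * z ^ 5 + 900570 * w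
      * z ^ 6 + 141559 * w * z ^ 7 + 15549 * w * z ^ 8 + 1138 * w * z ^ 9 + 50 * w * z ^ 10 + 1
      * w * z ^ 11 + 1784736 * w ^ 2 + 3742920 * w ^ 2 * z + 3465404 * w ^ 2 * z ^ 2 + 1860147
      * w ^ 2 * z ^ 3 + (1276737/2) * w ^ 2 * z ^ 4 + 145356 * w ^ 2 * z ^ 5 + (43953/2) * w ^
      2 * z ^ 6 + 2129 * w ^ 2 * z ^ 7 + 120 * w ^ 2 * z ^ 8 + 3 * w ^ 2 * z ^ 9 + 71328 * w ^
      3 + 120544 * w ^ 3 * z + 86706 * w ^ 3 * z ^ 2 + 34425 * w ^ 3 * z ^ 3 + 8152 * w ^ 3 * z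
      ^ 4 + 1152 * w ^ 3 * z ^ 5 + 90 * w ^ 3 * z ^ 6 + 3 * w ^ 3 * z ^ 7 + 960 * w ^ 4 + 1232
      * w ^ 4 * z + 628 * w ^ 4 * z ^ 2 + 159 * w ^ 4 * z ^ 3 + 20 * w ^ 4 * z ^ 4 + 1 * w ^ 4
      * z ^ 5 + 34405210 * z + (88128187/2) * z ^ 2 + 33253798 * z ^ 3 + (32928259/2) * z ^ 4 +
      5623890 * z ^ 5 + 1354045 * z ^ 6 + 230012 * z ^ 7 + (54075/2) * z ^ 8 + 2096 * z ^ 9 +
      (193/2) * z ^ 10 + 2 * z ^ 11) := by
    rcases hT0.eq_or_lt with h | h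
    · have : U = 1 := by linarith
      rw [← h, this]; positivity
    · positivity
  have h2 : (z + 5) ^ 2 + w = z ^ 2 + 10 * z + 25 + w := by ring
  have h3 : z + 5 - 1 = z + 4 := by ring
  rw [h2, h3]
  have h4 : z ^ 2 + 10 * z + 25 + w ≠ 0 := by positivity
  have h5 : z + 4 ≠ 0 := by positivity
  have h6 : z + 5 ≠ 0 := by positivity
  have hkey : (z ^ 2 + 10 * z + 25 + w - 2) * (((z + 5) ^ 2 - (z + 5) - 2) / (z + 5) *
      (1 - (z + 5) * T / ((z + 4) * (z ^ 2 + 10 * z + 25 + w))) + 2 - (z + 5)) -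
      (((z + 5) ^ 2 - (z + 5) - 2) / (z + 5) *
      (1 - (z + 5) * T / ((z + 4) * (z ^ 2 + 10 * z + 25 + w)))) ^ 2 *
      (1 - (z ^ 2 + 10 * z + 25 + w - 7 / 2) * T / ((z + 4) * (z ^ 2 + 10 * z + 25 + w))) =
      (U ^ 3 * (21000000 + 17520000 * w + 42356000 * w * z + 46481800 * w * z ^ 2 + 30579990 * w * z ^
      3 + 13407112 * w * z ^ 4 + 4114679 * w * z ^ 5 + 902298 * w * z ^ 6 + 141409 * w * z ^ 7
      + 15524 * w * z ^ 8 + 1137 * w * z ^ 9 + 50 * w * z ^ 10 + 1 * w * z ^ 11 + 1900800 * w ^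
      2 + 3913920 * w ^ 2 * z + 3570672 * w ^ 2 * z ^ 2 + 1895124 * w ^ 2 * z ^ 3 + 645108 * w
      ^ 2 * z ^ 4 + 146103 * w ^ 2 * z ^ 5 + 22020 * w ^ 2 * z ^ 6 + 2130 * w ^ 2 * z ^ 7 + 120
      * w ^ 2 * z ^ 8 + 3 * w ^ 2 * z ^ 9 + 73344 * w ^ 3 + 122848 * w ^ 3 * z + 87736 * w ^ 3
      * z ^ 2 + 34650 * w ^ 3 * z ^ 3 + 8176 * w ^ 3 * z ^ 4 + 1153 * w ^ 3 * z ^ 5 + 90 * w ^
      3 * z ^ 6 + 3 * w ^ 3 * z ^ 7 + 960 * w ^ 4 + 1232 * w ^ 4 * z + 628 * w ^ 4 * z ^ 2 +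
      159 * w ^ 4 * z ^ 3 + 20 * w ^ 4 * z ^ 4 + 1 * w ^ 4 * z ^ 5 + 50950000 * z + 55937500 *
      z ^ 2 + 36688125 * z ^ 3 + 15974000 * z ^ 4 + 4848320 * z ^ 5 + 1046784 * z ^ 6 + 160778
      * z ^ 7 + 17216 * z ^ 8 + 1224 * z ^ 9 + 52 * z ^ 10 + 1 * z ^ 11) + 3 * T ^ 1 * U ^ 2 *
      (20520000 + 17061600 * w + 41579840 * w * z + (137784082/3) * w * z ^ 2 + (91102879/3) *
      w * z ^ 3 + 13362091 * w * z ^ 4 + (12331388/3) * w * z ^ 5 + 902522 * w * z ^ 6 +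
      (424526/3) * w * z ^ 7 + (46601/3) * w * z ^ 8 + (3412/3) * w * z ^ 9 + 50 * w * z ^ 10 +
      1 * w * z ^ 11 + 1866432 * w ^ 2 + 3863184 * w ^ 2 * z + (10617908/3) * w ^ 2 * z ^ 2 +
      1884623 * w ^ 2 * z ^ 3 + (3858365/6) * w ^ 2 * z ^ 4 + 145872 * w ^ 2 * z ^ 5 +
      (132037/6) * w ^ 2 * z ^ 6 + (6389/3) * w ^ 2 * z ^ 7 + 120 * w ^ 2 * z ^ 8 + 3 * w ^ 2 *
      z ^ 9 + 72672 * w ^ 3 + 122080 * w ^ 3 * z + (262178/3) * w ^ 3 * z ^ 2 + 34575 * w ^ 3 *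
      z ^ 3 + 8168 * w ^ 3 * z ^ 4 + (3458/3) * w ^ 3 * z ^ 5 + 90 * w ^ 3 * z ^ 6 + 3 * w ^ 3
      * z ^ 7 + 960 * w ^ 4 + 1232 * w ^ 4 * z + 628 * w ^ 4 * z ^ 2 + 159 * w ^ 4 * z ^ 3 + 20
      * w ^ 4 * z ^ 4 + 1 * w ^ 4 * z ^ 5 + 51256000 * z + (173812900/3) * z ^ 2 +
      (117363970/3) * z ^ 3 + (105201197/6) * z ^ 4 + (16430227/3) * z ^ 5 + (7299587/6) * z ^
      6 + (576584/3) * z ^ 7 + (42321/2) * z ^ 8 + (4639/3) * z ^ 9 + (135/2) * z ^ 10 + (4/3)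
      * z ^ 11) + 3 * T ^ 2 * U ^ 1 * (17448000 + 16391520 * w + 40408184 * w * z +
      (135164768/3) * w * z ^ 2 + (90029198/3) * w * z ^ 3 + (39828371/3) * w * z ^ 4 + 4098962
      * w * z ^ 5 + (2705837/3) * w * z ^ 6 + (424676/3) * w * z ^ 7 + 15542 * w * z ^ 8 +
      (3413/3) * w * z ^ 9 + 50 * w * z ^ 10 + 1 * w * z ^ 11 + 1827744 * w ^ 2 + 3806184 * w ^
      2 * z + (10512640/3) * w ^ 2 * z ^ 2 + 1872964 * w ^ 2 * z ^ 3 + (1922443/3) * w ^ 2 * z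
      ^ 4 + 145623 * w ^ 2 * z ^ 5 + (65975/3) * w ^ 2 * z ^ 6 + (6388/3) * w ^ 2 * z ^ 7 + 120
      * w ^ 2 * z ^ 8 + 3 * w ^ 2 * z ^ 9 + 72000 * w ^ 3 + 121312 * w ^ 3 * z + (261148/3) * w
      ^ 3 * z ^ 2 + 34500 * w ^ 3 * z ^ 3 + 8160 * w ^ 3 * z ^ 4 + (3457/3) * w ^ 3 * z ^ 5 +
      90 * w ^ 3 * z ^ 6 + 3 * w ^ 3 * z ^ 7 + 960 * w ^ 4 + 1232 * w ^ 4 * z + 628 * w ^ 4 * z
      ^ 2 + 159 * w ^ 4 * z ^ 3 + 20 * w ^ 4 * z ^ 4 + 1 * w ^ 4 * z ^ 5 + 45632800 * z +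
      (161678480/3) * z ^ 2 + (113811617/3) * z ^ 3 + (53057876/3) * z ^ 4 + (17200031/3) * z ^
      5 + (3956431/3) * z ^ 6 + 215260 * z ^ 7 + 24434 * z ^ 8 + 1837 * z ^ 9 + (247/3) * z ^
      10 + (5/3) * z ^ 11) + T ^ 3 * (11958150 + 15517860 * w + 38852372 * w * z + 43868975 * w
      * z ^ 2 + 29508253 * w * z ^ 3 + 13149532 * w * z ^ 4 + 4080205 * w * z ^ 5 + 900570 * w
      * z ^ 6 + 141559 * w * z ^ 7 + 15549 * w * z ^ 8 + 1138 * w * z ^ 9 + 50 * w * z ^ 10 + 1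
      * w * z ^ 11 + 1784736 * w ^ 2 + 3742920 * w ^ 2 * z + 3465404 * w ^ 2 * z ^ 2 + 1860147
      * w ^ 2 * z ^ 3 + (1276737/2) * w ^ 2 * z ^ 4 + 145356 * w ^ 2 * z ^ 5 + (43953/2) * w ^
      2 * z ^ 6 + 2129 * w ^ 2 * z ^ 7 + 120 * w ^ 2 * z ^ 8 + 3 * w ^ 2 * z ^ 9 + 71328 * w ^
      3 + 120544 * w ^ 3 * z + 86706 * w ^ 3 * z ^ 2 + 34425 * w ^ 3 * z ^ 3 + 8152 * w ^ 3 * z
      ^ 4 + 1152 * w ^ 3 * z ^ 5 + 90 * w ^ 3 * z ^ 6 + 3 * w ^ 3 * z ^ 7 + 960 * w ^ 4 + 1232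
      * w ^ 4 * z + 628 * w ^ 4 * z ^ 2 + 159 * w ^ 4 * z ^ 3 + 20 * w ^ 4 * z ^ 4 + 1 * w ^ 4
      * z ^ 5 + 34405210 * z + (88128187/2) * z ^ 2 + 33253798 * z ^ 3 + (32928259/2) * z ^ 4 +
      5623890 * z ^ 5 + 1354045 * z ^ 6 + 230012 * z ^ 7 + (54075/2) * z ^ 8 + 2096 * z ^ 9 +
      (193/2) * z ^ 10 + 2 * z ^ 11)) / (((z + 5) * ((z + 4) * (z ^ 2 + 10 * z + 25 + w))) ^ 2 *
        ((z + 4) * (z ^ 2 + 10 * z + 25 + w))) := by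
    rw [hU]
    field_simp
    ring
  rw [hkey]
  apply div_pos hp
  positivity

theorem rp1 {l μ k x a c : ℝ} (hl : 5 ≤ l) (hμ : μ = l ^ 2 - l + 1) (hk : (l - 1) * μ + 1 ≤ k)
    (hx : l * (l - 2) / (l - 1) < x) (hx' : x < l + 1) (ha : x * (1 - l / (k - 1)) ≤ a)
    (ha' : a ≤ x) (hc : c ≤ a * (1 - (μ - 7 / 2) / (k - 2)))
    (hI : (μ - 2) * (a + 2 - l) ≤ a * c) : False := by
  refine reb_core hl hμ.ge hk (div_pos (by nlinarith) (by linarith)) hx hx' ha ha' hc hI ?_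
  intro T hT0 hT1
  subst hμ
  obtain ⟨z, rfl⟩ : ∃ z, l = z + 5 := ⟨l - 5, by ring⟩
  have hz : 0 ≤ z := by linarith
  obtain ⟨U, hU⟩ : ∃ U, U = 1 - T := ⟨_, rfl⟩
  have hU0 : 0 ≤ U := by linarith
  have hp : 0 < U ^ 3 * (1778112 + 4212432 * z + 4488372 * z ^ 2 + 2833407 * z ^ 3 + 1173906 * z ^ 4 + 333621 *
      z ^ 5 + 65883 * z ^ 6 + 8929 * z ^ 7 + 795 * z ^ 8 + 42 * z ^ 9 + 1 * z ^ 10) + 3 * T ^ 1
      * U ^ 2 * (2924712 + 7579572 * z + (17831397/2) * z ^ 2 + 6283522 * z ^ 3 + (5896247/2) *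
      z ^ 4 + (2900549/3) * z ^ 5 + (678439/3) * z ^ 6 + 37722 * z ^ 7 + (26381/6) * z ^ 8 +
      341 * z ^ 9 + (95/6) * z ^ 10 + (1/3) * z ^ 11) + 3 * T ^ 2 * U ^ 1 * (2811312 + 7897212
      * z + 10042600 * z ^ 2 + 7629837 * z ^ 3 + (11542579/3) * z ^ 4 + 1352080 * z ^ 5 +
      (1013588/3) * z ^ 6 + (180103/3) * z ^ 7 + 7434 * z ^ 8 + 611 * z ^ 9 + 30 * z ^ 10 +
      (2/3) * z ^ 11) + T ^ 3 * ((3072699/2) + 5360352 * z + 8036014 * z ^ 2 + 6953027 * z ^ 3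
      + 3896192 * z ^ 4 + 1493858 * z ^ 5 + (803125/2) * z ^ 6 + 75901 * z ^ 7 + (19815/2) * z
      ^ 8 + 852 * z ^ 9 + (87/2) * z ^ 10 + 1 * z ^ 11) := by
    rcases hT0.eq_or_lt with h | h
    · have : U = 1 := by linarith
      rw [← h, this]; positivity
    · positivity
  have h2 : (z + 5) ^ 2 - (z + 5) + 1 = z ^ 2 + 9 * z + 21 := by ring
  have h3 : z + 5 - 1 = z + 4 := by ring
  rw [h2, h3]
  have h4 : z ^ 2 + 9 * z + 21 ≠ 0 := by positivity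
  have h5 : z + 4 ≠ 0 := by positivity
  have hkey : (z ^ 2 + 9 * z + 21 - 2) * ((z + 5) * (z + 5 - 2) / (z + 4) *
      (1 - (z + 5) * T / ((z + 4) * (z ^ 2 + 9 * z + 21))) + 2 - (z + 5)) -
      ((z + 5) * (z + 5 - 2) / (z + 4) *
      (1 - (z + 5) * T / ((z + 4) * (z ^ 2 + 9 * z + 21)))) ^ 2 *
      (1 - (z ^ 2 + 9 * z + 21 - 7 / 2) * T / ((z + 4) * (z ^ 2 + 9 * z + 21))) =
      (U ^ 3 * (1778112 + 4212432 * z + 4488372 * z ^ 2 + 2833407 * z ^ 3 + 1173906 * z ^ 4 + 333621 *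
      z ^ 5 + 65883 * z ^ 6 + 8929 * z ^ 7 + 795 * z ^ 8 + 42 * z ^ 9 + 1 * z ^ 10) + 3 * T ^ 1
      * U ^ 2 * (2924712 + 7579572 * z + (17831397/2) * z ^ 2 + 6283522 * z ^ 3 + (5896247/2) *
      z ^ 4 + (2900549/3) * z ^ 5 + (678439/3) * z ^ 6 + 37722 * z ^ 7 + (26381/6) * z ^ 8 +
      341 * z ^ 9 + (95/6) * z ^ 10 + (1/3) * z ^ 11) + 3 * T ^ 2 * U ^ 1 * (2811312 + 7897212
      * z + 10042600 * z ^ 2 + 7629837 * z ^ 3 + (11542579/3) * z ^ 4 + 1352080 * z ^ 5 +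
      (1013588/3) * z ^ 6 + (180103/3) * z ^ 7 + 7434 * z ^ 8 + 611 * z ^ 9 + 30 * z ^ 10 +
      (2/3) * z ^ 11) + T ^ 3 * ((3072699/2) + 5360352 * z + 8036014 * z ^ 2 + 6953027 * z ^ 3
      + 3896192 * z ^ 4 + 1493858 * z ^ 5 + (803125/2) * z ^ 6 + 75901 * z ^ 7 + (19815/2) * z
      ^ 8 + 852 * z ^ 9 + (87/2) * z ^ 10 + 1 * z ^ 11)) / (((z + 4) * ((z + 4) * (z ^ 2 + 9 * z + 21))) ^ 2 *
        ((z + 4) * (z ^ 2 + 9 * z + 21))) := by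
    rw [hU]
    field_simp
    ring
  rw [hkey]
  apply div_pos hp
  positivity

/-- the first polynomial inequality for `rp2` -/
theorem rp2_c1 {z S : ℝ} (hz : 0 ≤ z) (hS0 : 0 ≤ S) (hS1 : S ≤ 1) {x : ℝ}
    (hx : x = (z + 4) - ((z + 5) + S * (z + 3)) / ((z + 4) * (z + 5))) :
    0 < x ^ 2 * (x * (1 - (z + 5) / ((z + 4) * (z ^ 2 + 9 * z + 21))) + 2 - (z + 5)) -
      (z ^ 2 + 9 * z + 21) * (x ^ 2 - (z + 5) * x + (z + 5)) := by
  obtain ⟨U, hU⟩ : ∃ U, U = 1 - S := ⟨_, rfl⟩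
  have hU0 : 0 ≤ U := by linarith
  have hp : 0 < U ^ 3 * (568125 + 4408875 * z + 8330475 * z ^ 2 + 7891105 * z ^ 3 + 4566799 * z ^ 4 + 1756282 *
      z ^ 5 + 465954 * z ^ 6 + 86114 * z ^ 7 + 10930 * z ^ 8 + 911 * z ^ 9 + 45 * z ^ 10 + 1 *
      z ^ 11) + 3 * S ^ 1 * U ^ 2 * (1755000 + 7898250 * z + 12921375 * z ^ 2 + 11469645 * z ^
      3 + 6406772 * z ^ 4 + (7237382/3) * z ^ 5 + 631741 * z ^ 6 + 115811 * z ^ 7 + 14628 * z ^
      8 + 1216 * z ^ 9 + 60 * z ^ 10 + (4/3) * z ^ 11) + 3 * S ^ 2 * U ^ 1 * (2874240 +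
      11232528 * z + 17353536 * z ^ 2 + 14953045 * z ^ 3 + 8209974 * z ^ 4 + (9177437/3) * z ^
      5 + (2387678/3) * z ^ 6 + 145327 * z ^ 7 + (54943/3) * z ^ 8 + (4562/3) * z ^ 9 + 75 * z
      ^ 10 + (5/3) * z ^ 11) + S ^ 3 * (3923712 + 14408064 * z + 21624384 * z ^ 2 + 18340344 *
      z ^ 3 + 9976205 * z ^ 4 + 3696315 * z ^ 5 + 958408 * z ^ 6 + 174662 * z ^ 7 + 21989 * z ^
      8 + 1825 * z ^ 9 + 90 * z ^ 10 + 2 * z ^ 11) := by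
    rcases hS0.eq_or_lt with h | h
    · have : U = 1 := by linarith
      rw [← h, this]; positivity
    · positivity
  have h4 : z ^ 2 + 9 * z + 21 ≠ 0 := by positivity
  have h5 : z + 4 ≠ 0 := by positivity
  have h6 : z + 5 ≠ 0 := by positivity
  have hkey : x ^ 2 * (x * (1 - (z + 5) / ((z + 4) * (z ^ 2 + 9 * z + 21))) + 2 - (z + 5)) -
      (z ^ 2 + 9 * z + 21) * (x ^ 2 - (z + 5) * x + (z + 5)) =
      (U ^ 3 * (568125 + 4408875 * z + 8330475 * z ^ 2 + 7891105 * z ^ 3 + 4566799 * z ^ 4 + 1756282 *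
      z ^ 5 + 465954 * z ^ 6 + 86114 * z ^ 7 + 10930 * z ^ 8 + 911 * z ^ 9 + 45 * z ^ 10 + 1 *
      z ^ 11) + 3 * S ^ 1 * U ^ 2 * (1755000 + 7898250 * z + 12921375 * z ^ 2 + 11469645 * z ^
      3 + 6406772 * z ^ 4 + (7237382/3) * z ^ 5 + 631741 * z ^ 6 + 115811 * z ^ 7 + 14628 * z ^
      8 + 1216 * z ^ 9 + 60 * z ^ 10 + (4/3) * z ^ 11) + 3 * S ^ 2 * U ^ 1 * (2874240 +
      11232528 * z + 17353536 * z ^ 2 + 14953045 * z ^ 3 + 8209974 * z ^ 4 + (9177437/3) * z ^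
      5 + (2387678/3) * z ^ 6 + 145327 * z ^ 7 + (54943/3) * z ^ 8 + (4562/3) * z ^ 9 + 75 * z
      ^ 10 + (5/3) * z ^ 11) + S ^ 3 * (3923712 + 14408064 * z + 21624384 * z ^ 2 + 18340344 *
      z ^ 3 + 9976205 * z ^ 4 + 3696315 * z ^ 5 + 958408 * z ^ 6 + 174662 * z ^ 7 + 21989 * z ^
      8 + 1825 * z ^ 9 + 90 * z ^ 10 + 2 * z ^ 11)) / (((z + 4) * (z + 5)) ^ 3 * ((z + 4) * (z ^ 2 + 9 * z + 21))) := by
    rw [hU, hx]
    field_simp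
    ring
  rw [hkey]
  apply div_pos hp
  positivity

/-- the second polynomial inequality for `rp2` -/
theorem rp2_c2 {z S : ℝ} (hz : 0 ≤ z) (hS0 : 0 ≤ S) (hS1 : S ≤ 1) {x : ℝ}
    (hx : x = (z + 4) - ((z + 5) + S * (z + 3)) / ((z + 4) * (z + 5))) :
    0 < ((z + 4) * (z ^ 2 + 9 * z + 21) + 1) *
      (x ^ 2 * (x * (1 - (z + 5) / ((z + 4) * (z ^ 2 + 9 * z + 21))) + 2 - (z + 5)) -
      (z ^ 2 + 9 * z + 21) * (x ^ 2 - (z + 5) * x + (z + 5))) +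
      x ^ 2 * ((z ^ 2 + 9 * z + 21 - 2) *
        (x * (1 - (z + 5) / ((z + 4) * (z ^ 2 + 9 * z + 21))) + 2 - (z + 5)) -
      (x * (1 - (z + 5) / ((z + 4) * (z ^ 2 + 9 * z + 21)))) ^ 2) := by
  obtain ⟨U, hU⟩ : ∃ U, U = 1 - S := ⟨_, rfl⟩
  have hU0 : 0 ≤ U := by linarith
  have hp : 0 < U ^ 6 * (42560859375 + 615338437500 * z + 2125315800000 * z ^ 2 + 3834109125000 * z ^ 3 +
      4466411294375 * z ^ 4 + 3703453901600 * z ^ 5 + 2307592135100 * z ^ 6 + 1116815046091 * z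
      ^ 7 + 428683747016 * z ^ 8 + 132193952210 * z ^ 9 + 32978081058 * z ^ 10 + 6669070647 * z
      ^ 11 + 1090437169 * z ^ 12 + 143061452 * z ^ 13 + 14854138 * z ^ 14 + 1193645 * z ^ 15 +
      71625 * z ^ 16 + 3022 * z ^ 17 + 80 * z ^ 18 + 1 * z ^ 19) + 6 * S ^ 1 * U ^ 5 *
      (123358663125 + 1000122093000 * z + 2987989644150 * z ^ 2 + 5045458378595 * z ^ 3 +
      (16984764970508/3) * z ^ 4 + (13752908846390/3) * z ^ 5 + 2810699250206 * z ^ 6 +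
      (4034348765489/3) * z ^ 7 + (3071207263729/6) * z ^ 8 + (470575394587/3) * z ^ 9 +
      38946245403 * z ^ 10 + (47086739785/6) * z ^ 11 + 1279690660 * z ^ 12 + 167550520 * z ^
      13 + (52112915/3) * z ^ 14 + (4183258/3) * z ^ 15 + (167227/2) * z ^ 16 + (10579/3) * z ^
      17 + (280/3) * z ^ 18 + (7/6) * z ^ 19) + 15 * S ^ 2 * U ^ 4 * (202342331745 +
      1377455279508 * z + (19181182363344/5) * z ^ 2 + (31196579211212/5) * z ^ 3 +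
      (20525686877236/3) * z ^ 4 + (16367244653401/3) * z ^ 5 + (16546130854199/5) * z ^ 6 +
      (7854981613756/5) * z ^ 7 + 594517037904 * z ^ 8 + (2720886357494/15) * z ^ 9 +
      (224444586152/5) * z ^ 10 + (135338250236/15) * z ^ 11 + (22026917399/15) * z ^ 12 +
      (2879914348/15) * z ^ 13 + (99423259/5) * z ^ 14 + (23925602/15) * z ^ 15 + (286792/3) *
      z ^ 16 + (20153/5) * z ^ 17 + (320/3) * z ^ 18 + (4/3) * z ^ 19) + 20 * S ^ 3 * U ^ 3 *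
      (279495758952 + (8736406319502/5) * z + 4669963742241 * z ^ 2 + (74155888662873/10) * z ^
      3 + (40036348035846/5) * z ^ 4 + (126355161078393/20) * z ^ 5 + (15212644459305/4) * z ^
      6 + (8977259589563/5) * z ^ 7 + (3383152550968/5) * z ^ 8 + (4115914227497/20) * z ^ 9 +
      (508060821209/10) * z ^ 10 + 10193349522 * z ^ 11 + 1656748591 * z ^ 12 + (2163927587/10)
      * z ^ 13 + (447903567/20) * z ^ 14 + (8977537/5) * z ^ 15 + (215153/2) * z ^ 16 +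
      (22674/5) * z ^ 17 + 120 * z ^ 18 + (3/2) * z ^ 19) + 15 * S ^ 4 * U ^ 2 *
      ((1774014023808/5) + (10547716101696/5) * z + 5489078795352 * z ^ 2 + (42870923590728/5)
      * z ^ 3 + (45788233172619/5) * z ^ 4 + (35851503948737/5) * z ^ 5 + (21462461485744/5) *
      z ^ 6 + (6054439127813/3) * z ^ 7 + (11373113631659/15) * z ^ 8 + (1150341048693/5) * z ^
      9 + (850465884827/15) * z ^ 10 + (170402808049/15) * z ^ 11 + (9222764377/5) * z ^ 12 +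
      (1203729618/5) * z ^ 13 + (373538269/15) * z ^ 14 + (29937317/15) * z ^ 15 + 119551 * z ^
      16 + (75584/15) * z ^ 17 + (400/3) * z ^ 18 + (5/3) * z ^ 19) + 6 * S ^ 5 * U ^ 1 *
      (428247295488 + 2464184230272 * z + 6293488860288 * z ^ 2 + 9715010582304 * z ^ 3 +
      10292963035242 * z ^ 4 + (16026689490321/2) * z ^ 5 + (9554415859899/2) * z ^ 6 +
      2239076365017 * z ^ 7 + (5035485089393/6) * z ^ 8 + (1525258807033/6) * z ^ 9 +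
      (187691500241/3) * z ^ 10 + (75138370679/6) * z ^ 11 + (6095621806/3) * z ^ 12 +
      (795161345/3) * z ^ 13 + (54813541/2) * z ^ 14 + (6587944/3) * z ^ 15 + (789125/6) * z ^
      16 + 5543 * z ^ 17 + (440/3) * z ^ 18 + (11/6) * z ^ 19) + S ^ 6 * (499813023744 +
      2811147282432 * z + 7083101051136 * z ^ 2 + 10837973560320 * z ^ 3 + 11413155097440 * z ^
      4 + 8846858227320 * z ^ 5 + 5257296222529 * z ^ 6 + 2458238552908 * z ^ 7 + 919749609759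
      * z ^ 8 + 278220367921 * z ^ 9 + 68404390977 * z ^ 10 + 13681971972 * z ^ 11 + 2218711693
      * z ^ 12 + 289316330 * z ^ 13 + 29907836 * z ^ 14 + 2395988 * z ^ 15 + 143486 * z ^ 16 +
      6047 * z ^ 17 + 160 * z ^ 18 + 2 * z ^ 19) := by
    rcases hS0.eq_or_lt with h | h
    · have : U = 1 := by linarith
      rw [← h, this]; positivity
    · positivity
  have h4 : z ^ 2 + 9 * z + 21 ≠ 0 := by positivity
  have h5 : z + 4 ≠ 0 := by positivity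
  have h6 : z + 5 ≠ 0 := by positivity
  have hkey : ((z + 4) * (z ^ 2 + 9 * z + 21) + 1) *
      (x ^ 2 * (x * (1 - (z + 5) / ((z + 4) * (z ^ 2 + 9 * z + 21))) + 2 - (z + 5)) -
      (z ^ 2 + 9 * z + 21) * (x ^ 2 - (z + 5) * x + (z + 5))) +
      x ^ 2 * ((z ^ 2 + 9 * z + 21 - 2) *
        (x * (1 - (z + 5) / ((z + 4) * (z ^ 2 + 9 * z + 21))) + 2 - (z + 5)) -
      (x * (1 - (z + 5) / ((z + 4) * (z ^ 2 + 9 * z + 21)))) ^ 2) =
      (U ^ 6 * (42560859375 + 615338437500 * z + 2125315800000 * z ^ 2 + 3834109125000 * z ^ 3 +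
      4466411294375 * z ^ 4 + 3703453901600 * z ^ 5 + 2307592135100 * z ^ 6 + 1116815046091 * z
      ^ 7 + 428683747016 * z ^ 8 + 132193952210 * z ^ 9 + 32978081058 * z ^ 10 + 6669070647 * z
      ^ 11 + 1090437169 * z ^ 12 + 143061452 * z ^ 13 + 14854138 * z ^ 14 + 1193645 * z ^ 15 +
      71625 * z ^ 16 + 3022 * z ^ 17 + 80 * z ^ 18 + 1 * z ^ 19) + 6 * S ^ 1 * U ^ 5 *
      (123358663125 + 1000122093000 * z + 2987989644150 * z ^ 2 + 5045458378595 * z ^ 3 +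
      (16984764970508/3) * z ^ 4 + (13752908846390/3) * z ^ 5 + 2810699250206 * z ^ 6 +
      (4034348765489/3) * z ^ 7 + (3071207263729/6) * z ^ 8 + (470575394587/3) * z ^ 9 +
      38946245403 * z ^ 10 + (47086739785/6) * z ^ 11 + 1279690660 * z ^ 12 + 167550520 * z ^
      13 + (52112915/3) * z ^ 14 + (4183258/3) * z ^ 15 + (167227/2) * z ^ 16 + (10579/3) * z ^
      17 + (280/3) * z ^ 18 + (7/6) * z ^ 19) + 15 * S ^ 2 * U ^ 4 * (202342331745 +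
      1377455279508 * z + (19181182363344/5) * z ^ 2 + (31196579211212/5) * z ^ 3 +
      (20525686877236/3) * z ^ 4 + (16367244653401/3) * z ^ 5 + (16546130854199/5) * z ^ 6 +
      (7854981613756/5) * z ^ 7 + 594517037904 * z ^ 8 + (2720886357494/15) * z ^ 9 +
      (224444586152/5) * z ^ 10 + (135338250236/15) * z ^ 11 + (22026917399/15) * z ^ 12 +
      (2879914348/15) * z ^ 13 + (99423259/5) * z ^ 14 + (23925602/15) * z ^ 15 + (286792/3) *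
      z ^ 16 + (20153/5) * z ^ 17 + (320/3) * z ^ 18 + (4/3) * z ^ 19) + 20 * S ^ 3 * U ^ 3 *
      (279495758952 + (8736406319502/5) * z + 4669963742241 * z ^ 2 + (74155888662873/10) * z ^
      3 + (40036348035846/5) * z ^ 4 + (126355161078393/20) * z ^ 5 + (15212644459305/4) * z ^
      6 + (8977259589563/5) * z ^ 7 + (3383152550968/5) * z ^ 8 + (4115914227497/20) * z ^ 9 +
      (508060821209/10) * z ^ 10 + 10193349522 * z ^ 11 + 1656748591 * z ^ 12 + (2163927587/10)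
      * z ^ 13 + (447903567/20) * z ^ 14 + (8977537/5) * z ^ 15 + (215153/2) * z ^ 16 +
      (22674/5) * z ^ 17 + 120 * z ^ 18 + (3/2) * z ^ 19) + 15 * S ^ 4 * U ^ 2 *
      ((1774014023808/5) + (10547716101696/5) * z + 5489078795352 * z ^ 2 + (42870923590728/5)
      * z ^ 3 + (45788233172619/5) * z ^ 4 + (35851503948737/5) * z ^ 5 + (21462461485744/5) *
      z ^ 6 + (6054439127813/3) * z ^ 7 + (11373113631659/15) * z ^ 8 + (1150341048693/5) * z ^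
      9 + (850465884827/15) * z ^ 10 + (170402808049/15) * z ^ 11 + (9222764377/5) * z ^ 12 +
      (1203729618/5) * z ^ 13 + (373538269/15) * z ^ 14 + (29937317/15) * z ^ 15 + 119551 * z ^
      16 + (75584/15) * z ^ 17 + (400/3) * z ^ 18 + (5/3) * z ^ 19) + 6 * S ^ 5 * U ^ 1 *
      (428247295488 + 2464184230272 * z + 6293488860288 * z ^ 2 + 9715010582304 * z ^ 3 +
      10292963035242 * z ^ 4 + (16026689490321/2) * z ^ 5 + (9554415859899/2) * z ^ 6 +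
      2239076365017 * z ^ 7 + (5035485089393/6) * z ^ 8 + (1525258807033/6) * z ^ 9 +
      (187691500241/3) * z ^ 10 + (75138370679/6) * z ^ 11 + (6095621806/3) * z ^ 12 +
      (795161345/3) * z ^ 13 + (54813541/2) * z ^ 14 + (6587944/3) * z ^ 15 + (789125/6) * z ^
      16 + 5543 * z ^ 17 + (440/3) * z ^ 18 + (11/6) * z ^ 19) + S ^ 6 * (499813023744 +
      2811147282432 * z + 7083101051136 * z ^ 2 + 10837973560320 * z ^ 3 + 11413155097440 * z ^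
      4 + 8846858227320 * z ^ 5 + 5257296222529 * z ^ 6 + 2458238552908 * z ^ 7 + 919749609759
      * z ^ 8 + 278220367921 * z ^ 9 + 68404390977 * z ^ 10 + 13681971972 * z ^ 11 + 2218711693
      * z ^ 12 + 289316330 * z ^ 13 + 29907836 * z ^ 14 + 2395988 * z ^ 15 + 143486 * z ^ 16 +
      6047 * z ^ 17 + 160 * z ^ 18 + 2 * z ^ 19)) / (((z + 4) * (z + 5)) ^ 4 * ((z + 4) * (z ^ 2 + 9 * z + 21)) ^ 2) := by
    rw [hU, hx]
    field_simp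
    ring
  rw [hkey]
  apply div_pos hp
  positivity

theorem rp2 {l μ k x κ a c A : ℝ} (hl : 5 ≤ l) (hμ : μ = l ^ 2 - l + 1)
    (hA : (l - 1) * μ + 1 ≤ A) (hk : A ≤ k)
    (hx : l - 1 - 2 / l < x) (hx' : x ≤ l * (l - 2) / (l - 1)) (hκ : x < κ)
    (ha : x * (1 - l / (k - 1)) ≤ a) (ha' : a ≤ x) (hc : c ≤ a)
    (hI : κ * x * ((A + μ - 2) * (a + 2 - l) - a * c) ≤ μ * A * (κ * x - l * κ + l)) : False := by
  obtain ⟨z, rfl⟩ : ∃ z, l = z + 5 := ⟨l - 5, by ring⟩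
  have hz : 0 ≤ z := by linarith
  have h2 : (z + 5) ^ 2 - (z + 5) + 1 = z ^ 2 + 9 * z + 21 := by ring
  have h3 : z + 5 - 1 = z + 4 := by ring
  rw [h2] at hμ
  subst hμ
  rw [h3] at hA hx hx'
  have hz5 : (0 : ℝ) < z + 5 := by positivity
  have hz4 : (0 : ℝ) < z + 4 := by positivity
  have hz3 : (0 : ℝ) < z + 3 := by positivity
  have hM : (0 : ℝ) < z ^ 2 + 9 * z + 21 := by positivity
  obtain ⟨S, hS⟩ : ∃ S, S = ((z + 4 - x) * ((z + 4) * (z + 5)) - (z + 5)) / (z + 3) := ⟨_, rfl⟩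
  have hxS : x = (z + 4) - ((z + 5) + S * (z + 3)) / ((z + 4) * (z + 5)) := by
    rw [hS]; field_simp; ring
  have hS0 : 0 ≤ S := by
    rw [hS]
    apply div_nonneg _ hz3.le
    have h4 : x * (z + 4) ≤ (z + 5) * (z + 5 - 2) := by
      rwa [le_div_iff₀ hz4] at hx'
    nlinarith
  have hS1 : S ≤ 1 := by
    rw [hS, div_le_one hz3]
    have h4 : (z + 4) * (z + 5) - 2 < x * (z + 5) := by
      have h5 := mul_lt_mul_of_pos_right hx hz5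
      have h6 : (z + 4 - 2 / (z + 5)) * (z + 5) = (z + 4) * (z + 5) - 2 := by
        field_simp
      rw [h6] at h5
      exact h5
    nlinarith
  have p1 := rp2_c1 hz hS0 hS1 hxS
  have p2 := rp2_c2 hz hS0 hS1 hxS
  obtain ⟨e, he⟩ : ∃ e, e = (z + 5) / ((z + 4) * (z ^ 2 + 9 * z + 21)) := ⟨_, rfl⟩
  rw [← he] at p1 p2
  have hD : 84 ≤ (z + 4) * (z ^ 2 + 9 * z + 21) := by nlinarith [mul_nonneg hz hz, pow_nonneg hz 3]
  have hx0 : 0 < x := by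
    have h5 : 2 / (z + 5) ≤ 1 := by rw [div_le_one hz5]; linarith
    linarith
  have he1 : e < 1 := by
    rw [he, div_lt_one (by positivity)]; nlinarith [mul_nonneg hz hz, pow_nonneg hz 3]
  have hek : (z + 5) / (k - 1) ≤ e := by
    rw [he]
    exact div_le_div_of_nonneg_left hz5.le (by positivity) (by linarith)
  have hae : x * (1 - e) ≤ a := by
    refine le_trans (mul_le_mul_of_nonneg_left ?_ hx0.le) ha
    linarith
  have ha0 : 0 < x * (1 - e) := mul_pos hx0 (by linarith)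
  -- divide the hypothesis by `κ x`
  have hκ0 : 0 < κ := hx0.trans hκ
  have hApos : 0 < A := by nlinarith
  have q1 : x ^ 2 * ((A + (z ^ 2 + 9 * z + 21) - 2) * (a + 2 - (z + 5)) - a * a) ≤
      (z ^ 2 + 9 * z + 21) * A * (x ^ 2 - (z + 5) * x + (z + 5)) := by
    have hac : a * c ≤ a * a := mul_le_mul_of_nonneg_left hc (ha0.trans_le hae).le
    have r1 : κ * x * ((A + (z ^ 2 + 9 * z + 21) - 2) * (a + 2 - (z + 5)) - a * a) ≤
        (z ^ 2 + 9 * z + 21) * A * (κ * x - (z + 5) * κ + (z + 5)) :=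
      le_trans (mul_le_mul_of_nonneg_left (by linarith) (mul_pos hκ0 hx0).le) hI
    have r2 : κ * (x ^ 2 * ((A + (z ^ 2 + 9 * z + 21) - 2) * (a + 2 - (z + 5)) - a * a)) ≤
        κ * ((z ^ 2 + 9 * z + 21) * A * (x ^ 2 - (z + 5) * x + (z + 5))) := by
      have r3 : κ * (x ^ 2 * ((A + (z ^ 2 + 9 * z + 21) - 2) * (a + 2 - (z + 5)) - a * a)) ≤
          x * ((z ^ 2 + 9 * z + 21) * A * (κ * x - (z + 5) * κ + (z + 5))) := by
        have := mul_le_mul_of_nonneg_left r1 hx0.le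
        linarith
      have r4 : 0 ≤ (z ^ 2 + 9 * z + 21) * A * (z + 5) * (κ - x) :=
        mul_nonneg (mul_nonneg (mul_nonneg hM.le hApos.le) hz5.le) (by linarith)
      linarith
    exact le_of_mul_le_mul_left r2 hκ0
  -- monotonicity in `a`
  have hxz : x ≤ z + 5 := by
    have : (z + 5) * (z + 5 - 2) / (z + 4) ≤ z + 5 := by
      rw [div_le_iff₀ hz4]; nlinarith
    linarith
  have q2 : (A + (z ^ 2 + 9 * z + 21) - 2) * (x * (1 - e) + 2 - (z + 5)) - (x * (1 - e)) ^ 2 ≤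
      (A + (z ^ 2 + 9 * z + 21) - 2) * (a + 2 - (z + 5)) - a * a := by
    have r5 : 0 ≤ (a - x * (1 - e)) * ((A + (z ^ 2 + 9 * z + 21) - 2) - (a + x * (1 - e))) := by
      apply mul_nonneg (by linarith)
      nlinarith [mul_nonneg hz hz, pow_nonneg hz 3]
    nlinarith
  have hx2 : 0 < x ^ 2 := by positivity
  have q3 := mul_le_mul_of_nonneg_left q2 hx2.le
  have q4 : 0 ≤ (A - ((z + 4) * (z ^ 2 + 9 * z + 21) + 1)) *
      (x ^ 2 * (x * (1 - e) + 2 - (z + 5)) -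
        (z ^ 2 + 9 * z + 21) * (x ^ 2 - (z + 5) * x + (z + 5))) :=
    mul_nonneg (by linarith) p1.le
  linarith

end Pool.Agent.H63.PDR
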