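import Mathlib

/-!
# RJA: a product estimate (Mathlib only)

`a` is log-convex from index 1 to `j+1`.  Write `A = a (j+1)`, `γ = a j`, `l = a 2`, `μ = a 3`.
Proof.
(1) `μ * a i ≤ l * a (i+1)` for `2 ≤ i ≤ j` (induction with log-convexity: multiply by `a (i+1)`,
cancel `a i`).
(2) `(μ - l) * ∑_{i ∈ Ico 2 s} a i ≤ l * a s` for `2 ≤ s ≤ j`: induction on `s`:
`(μ-l)(∑ + a s) ≤ l a s + (μ - l) a s = μ a s ≤ l a (s+1)` by (1).  So
`∑_{i ∈ Ico 2 j} a i ≤ γ l/(μ-l)`.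
(3) `∏ (A - a i) ≥ A^(j-2) (1 - ∑ a i / A)` over `Ico 2 j` (Weierstrass/Bernoulli inequality, `0 ≤ a i ≤ A`;
`Finset.prod_one_sub_ge`-style, or by induction), and multiplying by `A - γ/2 = A (1 - (γ/2)/A)`:
`∏ (A - a i) (A - γ/2) ≥ A^(j-1) (1 - (γ/A)(1/2 + l/(μ-l)))` (induction `(1-u)(1-w) ≥ 1-u-w`).
(4) `γ^(j-2) ≤ μ A^(j-3)`: more generally `a j * γ^(s) ...`: for `3 ≤ i ≤ j`, `a i * A^(…)`; simplest:
`γ * γ^(i-3) ≤ ...`; by induction on `i` from 3 to `j`: `a i * γ^(i-3) ≤ μ * A^(i-3)` since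
`a (i+1) / a i ≤ A / γ` (log-convexity: the ratios are nondecreasing, so
`a (i+1) * γ ≤ A * a i` for `1 ≤ i ≤ j`, proved by descending induction on `i` from `i = j`).
At `i = j` this is `γ^(j-2) ≤ μ A^(j-3)`, so `A^(j-1) ≥ γ^(j-2) A² / μ`.
(5) If the last factor of the left side is `≤ 0` the claim is trivial (right side `≥ 0`).
-/

namespace Pool.Agent.H63.PDR

theorem Rja_weier (u : ℕ → ℝ) (s : Finset ℕ) (h : ∀ i ∈ s, 0 ≤ u i ∧ u i ≤ 1) :
    1 - ∑ i ∈ s, u i ≤ ∏ i ∈ s, (1 - u i) ∧ 0 ≤ ∏ i ∈ s, (1 - u i) ∧ ∏ i ∈ s, (1 - u i) ≤ 1 := by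
  classical
  induction s using Finset.induction_on with
  | empty => simp
  | insert b s hb ih =>
    obtain ⟨h1, h2, h3⟩ := ih (fun i hi => h i (Finset.mem_insert_of_mem hi))
    obtain ⟨h4, h5⟩ := h b (Finset.mem_insert_self _ _)
    rw [Finset.sum_insert hb, Finset.prod_insert hb]
    set P := ∏ i ∈ s, (1 - u i)
    refine ⟨by nlinarith, by nlinarith, by nlinarith⟩

theorem Rja_one (a : ℕ → ℝ) {j : ℕ} (hj : 3 ≤ j) (hpos : ∀ i, 1 ≤ i → i ≤ j + 1 → 0 < a i)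
    (hconv : ∀ i, 1 ≤ i → i + 1 ≤ j → a (i + 1) ^ 2 ≤ a i * a (i + 2)) (i : ℕ) (hi : 2 ≤ i) :
    i ≤ j → a 3 * a i ≤ a 2 * a (i + 1) := by
  induction i, hi using Nat.le_induction with
  | base => intro _; exact le_of_eq (mul_comm _ _)
  | succ i hi ih =>
    intro hij
    have h1 := ih (by omega)
    have h2 := hconv i (by omega) hij
    have h3 := hpos i (by omega) (by omega)
    have h4 := hpos (i + 1) (by omega) (by omega)
    have h5 := hpos 2 (by omega) (by omega)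
    have h6 : (a 3 * a (i + 1)) * a i ≤ (a 2 * a (i + 1 + 1)) * a i := by
      have h7 : (a 3 * a i) * a (i + 1) ≤ (a 2 * a (i + 1)) * a (i + 1) :=
        mul_le_mul_of_nonneg_right h1 h4.le
      have h8 : a 2 * a (i + 1) ^ 2 ≤ a 2 * (a i * a (i + 2)) :=
        mul_le_mul_of_nonneg_left h2 h5.le
      calc (a 3 * a (i + 1)) * a i = (a 3 * a i) * a (i + 1) := by ring
        _ ≤ (a 2 * a (i + 1)) * a (i + 1) := h7
        _ = a 2 * a (i + 1) ^ 2 := by ring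
        _ ≤ a 2 * (a i * a (i + 2)) := h8
        _ = (a 2 * a (i + 1 + 1)) * a i := by
          rw [show i + 1 + 1 = i + 2 from rfl]; ring
    exact le_of_mul_le_mul_right h6 h3

theorem Rja_two (a : ℕ → ℝ) {j : ℕ} (hj : 3 ≤ j) (hpos : ∀ i, 1 ≤ i → i ≤ j + 1 → 0 < a i)
    (hconv : ∀ i, 1 ≤ i → i + 1 ≤ j → a (i + 1) ^ 2 ≤ a i * a (i + 2)) (s : ℕ) (hs : 2 ≤ s) :
    s ≤ j → (a 3 - a 2) * ∑ i ∈ Finset.Ico 2 s, a i ≤ a 2 * a s := by
  induction s, hs using Nat.le_induction with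
  | base =>
    intro _
    simp only [Finset.Ico_self, Finset.sum_empty, mul_zero]
    have h5 := hpos 2 (by omega) (by omega)
    positivity
  | succ s hs ih =>
    intro hsj
    have h1 := ih (by omega)
    have h2 := Rja_one a hj hpos hconv s hs (by omega)
    rw [Finset.sum_Ico_succ_top hs, mul_add]
    linarith

theorem Rja_three (a : ℕ → ℝ) {j : ℕ} (hpos : ∀ i, 1 ≤ i → i ≤ j + 1 → 0 < a i)
    (hconv : ∀ i, 1 ≤ i → i + 1 ≤ j → a (i + 1) ^ 2 ≤ a i * a (i + 2)) (d : ℕ) :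
    ∀ i, 1 ≤ i → i + d = j → a (i + 1) * a j ≤ a (j + 1) * a i := by
  induction d with
  | zero =>
    intro i _ hij
    have : i = j := by omega
    subst this
    exact le_rfl
  | succ d ih =>
    intro i hi hij
    have h1 := ih (i + 1) (by omega) (by omega)
    have h2 := hconv i hi (by omega)
    have h3 := hpos i (by omega) (by omega)
    have h4 := hpos (i + 1) (by omega) (by omega)
    have h5 := hpos j (by omega) (by omega)
    have h6 : (a (i + 1) * a j) * a (i + 1) ≤ (a (j + 1) * a i) * a (i + 1) := by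
      calc (a (i + 1) * a j) * a (i + 1) = a (i + 1) ^ 2 * a j := by ring
        _ ≤ (a i * a (i + 2)) * a j := mul_le_mul_of_nonneg_right h2 h5.le
        _ = a i * (a (i + 1 + 1) * a j) := by
          rw [show i + 1 + 1 = i + 2 from rfl]; ring
        _ ≤ a i * (a (j + 1) * a (i + 1)) := mul_le_mul_of_nonneg_left h1 h3.le
        _ = (a (j + 1) * a i) * a (i + 1) := by ring
    exact le_of_mul_le_mul_right h6 h4

theorem Rja_four (a : ℕ → ℝ) {j : ℕ} (hpos : ∀ i, 1 ≤ i → i ≤ j + 1 → 0 < a i)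
    (hconv : ∀ i, 1 ≤ i → i + 1 ≤ j → a (i + 1) ^ 2 ≤ a i * a (i + 2)) (i : ℕ) (hi : 3 ≤ i) :
    i ≤ j → a i * a j ^ (i - 3) ≤ a 3 * a (j + 1) ^ (i - 3) := by
  induction i, hi using Nat.le_induction with
  | base => intro _; simp
  | succ i hi ih =>
    intro hij
    have h1 := ih (by omega)
    have h2 := Rja_three a hpos hconv (j - i) i (by omega) (by omega)
    have h5 := hpos j (by omega) (by omega)
    have h6 := hpos (j + 1) (by omega) (by omega)
    rw [show i + 1 - 3 = (i - 3) + 1 by omega, pow_succ, pow_succ]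
    have h7 : 0 ≤ a j ^ (i - 3) := by positivity
    calc a (i + 1) * (a j ^ (i - 3) * a j) = (a (i + 1) * a j) * a j ^ (i - 3) := by ring
      _ ≤ (a (j + 1) * a i) * a j ^ (i - 3) := mul_le_mul_of_nonneg_right h2 h7
      _ = a (j + 1) * (a i * a j ^ (i - 3)) := by ring
      _ ≤ a (j + 1) * (a 3 * a (j + 1) ^ (i - 3)) := mul_le_mul_of_nonneg_left h1 h6.le
      _ = a 3 * (a (j + 1) ^ (i - 3) * a (j + 1)) := by ring

theorem Rja_mono (a : ℕ → ℝ) {j : ℕ} (hmono : ∀ i, 1 ≤ i → i ≤ j → a i < a (i + 1)) (i : ℕ)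
    (hi : 1 ≤ i) (k : ℕ) (hk : i ≤ k) : k ≤ j + 1 → a i ≤ a k := by
  induction k, hk using Nat.le_induction with
  | base => intro _; exact le_rfl
  | succ k hk ih =>
    intro h
    exact (ih (by omega)).trans (hmono k (by omega) (by omega)).le

theorem rja (a : ℕ → ℝ) {j : ℕ} (hj : 3 ≤ j) (hpos : ∀ i, 1 ≤ i → i ≤ j + 1 → 0 < a i)
    (hmono : ∀ i, 1 ≤ i → i ≤ j → a i < a (i + 1))
    (hconv : ∀ i, 1 ≤ i → i + 1 ≤ j → a (i + 1) ^ 2 ≤ a i * a (i + 2)) :
    a j ^ (j - 2) * (a (j + 1) ^ 2 / a 3 *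
      (1 - a j / a (j + 1) * (1 / 2 + a 2 / (a 3 - a 2)))) ≤
    (∏ i ∈ Finset.Ico 2 j, (a (j + 1) - a i)) * (a (j + 1) - a j / 2) := by
  set A := a (j + 1) with hA
  set γ := a j with hγ
  have hA0 : 0 < A := hpos (j + 1) (by omega) (by omega)
  have hγ0 : 0 < γ := hpos j (by omega) (by omega)
  have hγA : γ ≤ A := (hmono j (by omega) le_rfl).le
  have h3 : 0 < a 3 := hpos 3 (by omega) (by omega)
  have h2 : 0 < a 2 := hpos 2 (by omega) (by omega)
  have h23 : a 2 < a 3 := hmono 2 (by omega) (by omega)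
  set R := 1 - γ / A * (1 / 2 + a 2 / (a 3 - a 2)) with hR
  -- the product
  have hu : ∀ i ∈ Finset.Ico 2 j, 0 ≤ a i / A ∧ a i / A ≤ 1 := by
    intro i hi
    rw [Finset.mem_Ico] at hi
    have h4 := hpos i (by omega) (by omega)
    have h5 := Rja_mono a hmono i (by omega) (j + 1) (by omega) le_rfl
    exact ⟨by positivity, (div_le_one hA0).2 h5⟩
  obtain ⟨w1, w2, w3⟩ := Rja_weier (fun i => a i / A) (Finset.Ico 2 j) hu
  have hprod : ∏ i ∈ Finset.Ico 2 j, (A - a i) =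
      A ^ (j - 2) * ∏ i ∈ Finset.Ico 2 j, (1 - a i / A) := by
    rw [← Nat.card_Ico 2 j, ← Finset.prod_const, ← Finset.prod_mul_distrib]
    refine Finset.prod_congr rfl fun i _ => ?_
    field_simp
  have hsum : ∑ i ∈ Finset.Ico 2 j, a i / A ≤ γ / A * (a 2 / (a 3 - a 2)) := by
    have h4 := Rja_two a hj hpos hconv j (by omega) le_rfl
    rw [← Finset.sum_div, div_mul_div_comm, div_le_div_iff₀ hA0 (mul_pos hA0 (by linarith))]
    have h5 := mul_le_mul_of_nonneg_right h4 hA0.le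
    calc (∑ i ∈ Finset.Ico 2 j, a i) * (A * (a 3 - a 2)) =
        ((a 3 - a 2) * ∑ i ∈ Finset.Ico 2 j, a i) * A := by ring
      _ ≤ (a 2 * a j) * A := h5
      _ = γ * a 2 * A := by rw [hγ]; ring
  set Q := ∏ i ∈ Finset.Ico 2 j, (1 - a i / A) with hQ
  have hw : γ / A / 2 ≤ 1 := by
    have : γ / A ≤ 1 := (div_le_one hA0).2 hγA
    linarith
  have hw0 : 0 ≤ γ / A / 2 := by positivity
  have hQR : R ≤ Q * (1 - γ / A / 2) := by
    have h4 : Q * (γ / A / 2) ≤ γ / A / 2 := by nlinarith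
    rw [hR]
    have h5 : γ / A * (1 / 2 + a 2 / (a 3 - a 2)) = γ / A / 2 + γ / A * (a 2 / (a 3 - a 2)) := by
      ring
    rw [h5]
    linarith
  have hrhs : (∏ i ∈ Finset.Ico 2 j, (A - a i)) * (A - γ / 2) =
      A ^ (j - 1) * (Q * (1 - γ / A / 2)) := by
    rw [hprod, show j - 1 = (j - 2) + 1 by omega, pow_succ]
    field_simp
  rw [hrhs]
  have hγA4 : γ ^ (j - 2) * (A ^ 2 / a 3) ≤ A ^ (j - 1) := by
    have h4 := Rja_four a hpos hconv j hj le_rfl
    rw [← hA, ← hγ] at h4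
    have h5 : γ ^ (j - 2) = γ * γ ^ (j - 3) := by
      rw [show j - 2 = (j - 3) + 1 by omega, pow_succ]; ring
    have h6 : A ^ (j - 1) = A ^ (j - 3) * A ^ 2 := by
      rw [← pow_add]; congr 1; omega
    rw [h5, h6, mul_div_assoc', div_le_iff₀ h3]
    nlinarith [mul_le_mul_of_nonneg_right h4 (sq_nonneg A)]
  have h7 : γ ^ (j - 2) * (A ^ 2 / a 3 * R) = (γ ^ (j - 2) * (A ^ 2 / a 3)) * R := by ring
  rw [h7]
  rcases le_or_gt R 0 with h8 | h8
  · have h9 : (γ ^ (j - 2) * (A ^ 2 / a 3)) * R ≤ 0 :=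
      mul_nonpos_of_nonneg_of_nonpos (by positivity) h8
    refine h9.trans ?_
    have h10 : 0 ≤ 1 - γ / A / 2 := by linarith
    positivity
  · calc (γ ^ (j - 2) * (A ^ 2 / a 3)) * R ≤ A ^ (j - 1) * R :=
        mul_le_mul_of_nonneg_right hγA4 h8.le
      _ ≤ _ := mul_le_mul_of_nonneg_left hQR (by positivity)

end Pool.Agent.H63.PDR
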