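import Mathlib

/-!
# RJB: real inequalities (Mathlib only)

`rj2`.  Write `κ = k²/v`, `x = (k-1)²/(v-1) < κ`.  From `hW` and `x < κ`: `(κ-β)(κ-γ) + κ > 0`, so
(if `κ < γ`) `γ - κ < κ/(κ-β) = 1 + β/(κ-β)`.  `κ > γ - 2` and `γ ≥ 5β + 2` (because
`γ ≥ β μ/l`, `μ ≥ l²+2l-2 ≥ 6.6 l`, `β ≥ 5`) give `κ - β ≥ 4 β`, so `γ - κ < 5/4`; again
`γ - κ ≤ 1 + β/(γ-β-5/4) ≤ 1 + l/(μ-l-5/4)` (from `β μ ≤ γ l`, `l ≤ β`).  If `κ ≥ γ` this is clear.
And `(k-2)(k-l)/(v-l) ≥ (k-2)(1-l/k) k/v = κ (1-2/k)(1-l/k) ≥ κ - (l+2) κ/k = κ - (l+2) k/v`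
(`(k-l)/(v-l) ≥ (k-l)/v`... precisely `v - l < v`).
`rj5`: `(k-A)(v-l) = (k-l)(v-A) - (A-l)(v-k)`, so
`(k-A)/(v-A) = ((k-l)/(v-l)) (1 - (A-l)(v-k)/((k-l)(v-A)))` and `(v-k)/(v-A) ≥ (v-k)/v = 1 - k/v`,
`1/(k-l) ≥ 1/k`, `k - γ ≤ k - 2`.
`rj6`.  Put `D = A²/μ (1 - γ/A s)`.  If `aa ≤ γ`: `(2+aa-γ) P ≥ gl γ^(j-2) D > γ^j (1-y) ≥ aa^j (1-y) ≥ κs aa^(j-1)`.
If `aa > γ`: `(2+aa-γ) P ≥ 2 γ^(j-2) D ≥ 2 γ^j ≥ (γ+1)^j > aa^j ≥ κs aa^(j-1)`; here
`(1+1/γ)^j ≤ 2` because `(1+1/γ)^j (1-1/γ)^j ≤ 1` and `(1-1/γ)^j ≥ 1 - j/γ ≥ 1/2`.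
-/

namespace Pool.Agent.H63.PDR

theorem rj2 {l μ β γ k v : ℝ} (hl : 5 ≤ l) (hμ : l ^ 2 + 2 * l - 2 ≤ μ) (hβ : l ≤ β)
    (hγ : β * μ ≤ γ * l) (hk : γ < k) (hv : k < v) (h1 : γ - 2 < k ^ 2 / v)
    (hW : 0 ≤ k ^ 2 / v * (1 + (k - 1) ^ 2 / (v - 1) - β - γ) + β * γ) :
    1 - l / (μ - l - 5 / 4) - (l + 2) * (k / v) ≤ 2 + (k - 2) * ((k - l) / (v - l)) - γ := by
  have hl0 : 0 < l := by linarith
  have hβ5 : 5 ≤ β := by linarith
  -- `γ ≥ 6 β + 3`
  have hμl : 33 / 5 * l ≤ μ := by nlinarith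
  have hγβ : 33 / 5 * β ≤ γ := by
    have h2 : β * (33 / 5 * l) ≤ γ * l := (mul_le_mul_of_nonneg_left hμl (by linarith)).trans hγ
    have h3 : (33 / 5 * β) * l ≤ γ * l := by linarith
    exact le_of_mul_le_mul_right h3 hl0
  have hk0 : 0 < k := by linarith
  have hv0 : 0 < v := by linarith
  have hv1 : 0 < v - 1 := by linarith
  set κ := k ^ 2 / v with hκ
  have hκ0 : 0 < κ := by positivity
  have hx : (k - 1) ^ 2 / (v - 1) < κ := by
    rw [hκ, div_lt_div_iff₀ hv1 hv0]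
    nlinarith [mul_pos hk0 (show 0 < v - k by linarith)]
  have hq : 0 < (κ - β) * (κ - γ) + κ := by
    have h2 : κ * (1 + (k - 1) ^ 2 / (v - 1) - β - γ) < κ * (1 + κ - β - γ) :=
      mul_lt_mul_of_pos_left (by linarith) hκ0
    nlinarith
  have hden : 0 < μ - l - 5 / 4 := by nlinarith
  have hfr : 0 < l / (μ - l - 5 / 4) := by positivity
  have hmain : γ - κ ≤ 1 + l / (μ - l - 5 / 4) := by
    rcases le_or_gt γ κ with h2 | h2
    · linarith
    · have hκβ : 4 * β ≤ κ - β := by linarith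
      have h3 : (γ - κ) * (κ - β) < κ := by nlinarith
      have hpos : 0 < κ - β := by linarith
      have h4 : γ - κ < 5 / 4 := by
        by_contra hcon
        push Not at hcon
        have h5 : 5 / 4 * (κ - β) ≤ (γ - κ) * (κ - β) := mul_le_mul_of_nonneg_right hcon hpos.le
        linarith
      have h6 : 0 < γ - β - 5 / 4 := by linarith
      have h7 : (γ - κ - 1) * (κ - β) < β := by nlinarith
      have h8 : (γ - κ - 1) * (γ - β - 5 / 4) ≤ β := by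
        rcases le_or_gt (γ - κ - 1) 0 with h9 | h9
        · have := mul_nonpos_of_nonpos_of_nonneg h9 h6.le
          linarith
        · have : (γ - κ - 1) * (γ - β - 5 / 4) ≤ (γ - κ - 1) * (κ - β) :=
            mul_le_mul_of_nonneg_left (by linarith) h9.le
          linarith
      have h9 : β / (γ - β - 5 / 4) ≤ l / (μ - l - 5 / 4) := by
        rw [div_le_div_iff₀ h6 hden]
        nlinarith
      have h10 : γ - κ - 1 ≤ β / (γ - β - 5 / 4) := by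
        rw [le_div_iff₀ h6]
        exact h8
      linarith
  have hlow : κ - (l + 2) * (k / v) ≤ (k - 2) * ((k - l) / (v - l)) := by
    have h2 : (k - 2) * ((k - l) / v) ≤ (k - 2) * ((k - l) / (v - l)) := by
      refine mul_le_mul_of_nonneg_left ?_ (by linarith)
      exact div_le_div_of_nonneg_left (by linarith) (by linarith) (by linarith)
    have h3 : (k - 2) * ((k - l) / v) = κ - (l + 2) * (k / v) + 2 * l / v := by
      rw [hκ]
      field_simp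
      ring
    have h4 : 0 < 2 * l / v := by positivity
    linarith
  linarith

theorem rj5 {l γ A k v : ℝ} (hl : 5 ≤ l) (hγ : l ≤ γ) (hA : γ ≤ A) (hk : A ≤ k) (hv : k < v)
    (hlk : l < k) :
    (k - γ) * ((k - A) / (v - A)) ≤
      ((k - 2) * ((k - l) / (v - l))) * (1 - (A - l) / k * (1 - k / v)) := by
  have hk0 : 0 < k := by linarith
  have hv0 : 0 < v := by linarith
  have hvA : 0 < v - A := by linarith
  have hvl : 0 < v - l := by linarith
  have hkl : 0 < k - l := by linarith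
  have hq0 : 0 ≤ (k - A) / (v - A) := div_nonneg (by linarith) hvA.le
  have hq : (k - A) / (v - A) ≤ (k - l) / (v - l) * (1 - (A - l) / k * (1 - k / v)) := by
    have e : (k - A) / (v - A) =
        (k - l) / (v - l) * (1 - ((A - l) / (k - l)) * ((v - k) / (v - A))) := by
      field_simp
      ring
    rw [e]
    refine mul_le_mul_of_nonneg_left ?_ (by positivity)
    have h1 : (A - l) / k ≤ (A - l) / (k - l) :=
      div_le_div_of_nonneg_left (by linarith) hkl (by linarith)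
    have h2 : 1 - k / v ≤ (v - k) / (v - A) := by
      have e2 : 1 - k / v = (v - k) / v := by field_simp
      rw [e2]
      exact div_le_div_of_nonneg_left (by linarith) hvA (by linarith)
    have h3 : 0 ≤ 1 - k / v := by
      have : k / v ≤ 1 := by rw [div_le_one hv0]; exact hv.le
      linarith
    have h4 : (A - l) / k * (1 - k / v) ≤ (A - l) / (k - l) * ((v - k) / (v - A)) :=
      mul_le_mul h1 h2 h3 (div_nonneg (by linarith) hkl.le)
    linarith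
  calc (k - γ) * ((k - A) / (v - A)) ≤ (k - 2) * ((k - A) / (v - A)) :=
        mul_le_mul_of_nonneg_right (by linarith) hq0
    _ ≤ (k - 2) * ((k - l) / (v - l) * (1 - (A - l) / k * (1 - k / v))) :=
        mul_le_mul_of_nonneg_left hq (by linarith)
    _ = _ := by ring

theorem Rjb_pow {γ : ℝ} {j : ℕ} (hj : 1 ≤ j) (hγ : 2 * (j : ℝ) ≤ γ) :
    (γ + 1) ^ j ≤ 2 * γ ^ j := by
  have hj' : (1 : ℝ) ≤ j := by exact_mod_cast hj
  have hγ0 : 0 < γ := by linarith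
  have h1 : 1 + (j : ℝ) * (-(1 / γ)) ≤ (1 + -(1 / γ)) ^ j := by
    refine one_add_mul_le_pow ?_ j
    have : 1 / γ ≤ 1 := by rw [div_le_one hγ0]; linarith
    linarith
  have h2 : (j : ℝ) / γ ≤ 1 / 2 := by
    rw [div_le_div_iff₀ hγ0 two_pos]
    linarith
  have h3 : 1 / 2 ≤ (1 - 1 / γ) ^ j := by
    have e : (1 : ℝ) + -(1 / γ) = 1 - 1 / γ := by ring
    rw [e] at h1
    have : (j : ℝ) * (-(1 / γ)) = -((j : ℝ) / γ) := by ring
    rw [this] at h1
    linarith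
  have h4 : (1 + 1 / γ) ^ j * (1 - 1 / γ) ^ j ≤ 1 := by
    rw [← mul_pow]
    have e : (1 + 1 / γ) * (1 - 1 / γ) = 1 - (1 / γ) ^ 2 := by ring
    rw [e]
    have h5 : (1 / γ) ^ 2 ≤ 1 := by
      refine pow_le_one₀ (by positivity) ?_
      rw [div_le_one hγ0]; linarith
    exact pow_le_one₀ (by linarith) (by linarith [sq_nonneg (1 / γ)])
  have h5 : (1 + 1 / γ) ^ j ≤ 2 := by
    have h6 : 0 ≤ (1 + 1 / γ) ^ j := by positivity
    nlinarith
  have e : (γ + 1) ^ j = γ ^ j * (1 + 1 / γ) ^ j := by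
    rw [← mul_pow]
    congr 1
    field_simp
  rw [e, mul_comm (2 : ℝ)]
  exact mul_le_mul_of_nonneg_left h5 (by positivity)

theorem rj6 {γ A μ s aa y gl κs P : ℝ} {j : ℕ} (hj : 3 ≤ j) (hγ : 2 * (j : ℝ) ≤ γ)
    (haa0 : 0 ≤ aa) (haa : aa < γ + 1)
    (hP : γ ^ (j - 2) * (A ^ 2 / μ * (1 - γ / A * s)) ≤ P) (hgl : 0 < gl) (hg : gl ≤ 2 + aa - γ)
    (hy : 0 ≤ y) (hy1 : y ≤ 1) (hκ : κs ≤ aa * (1 - y))
    (hmain : γ ^ 2 * (1 - y) < gl * (A ^ 2 / μ * (1 - γ / A * s)))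
    (hD : γ ^ 2 ≤ A ^ 2 / μ * (1 - γ / A * s))
    (hstar : (2 + aa - γ) * P ≤ κs * aa ^ (j - 1)) : False := by
  set D := A ^ 2 / μ * (1 - γ / A * s) with hDdef
  have hj' : (3 : ℝ) ≤ j := by exact_mod_cast hj
  have hγ0 : 0 < γ := by linarith
  have hD0 : 0 < D := lt_of_lt_of_le (by positivity) hD
  have hP0 : 0 ≤ P := le_trans (by positivity) hP
  have hpj : γ ^ j = γ ^ (j - 2) * γ ^ 2 := by
    rw [← pow_add]; congr 1; omega
  have hp1 : aa ^ j = aa * aa ^ (j - 1) := by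
    rw [← pow_succ']; congr 1; omega
  have hup : κs * aa ^ (j - 1) ≤ aa ^ j * (1 - y) := by
    calc κs * aa ^ (j - 1) ≤ aa * (1 - y) * aa ^ (j - 1) :=
          mul_le_mul_of_nonneg_right hκ (by positivity)
      _ = aa ^ j * (1 - y) := by rw [hp1]; ring
  rcases le_or_gt aa γ with h | h
  · have h1 : gl * P ≤ (2 + aa - γ) * P := mul_le_mul_of_nonneg_right hg hP0
    have h2 : gl * (γ ^ (j - 2) * D) ≤ gl * P := mul_le_mul_of_nonneg_left hP hgl.le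
    have h3 : γ ^ (j - 2) * (γ ^ 2 * (1 - y)) < γ ^ (j - 2) * (gl * D) :=
      mul_lt_mul_of_pos_left hmain (by positivity)
    have h4 : aa ^ j * (1 - y) ≤ γ ^ j * (1 - y) :=
      mul_le_mul_of_nonneg_right (pow_le_pow_left₀ haa0 h j) (by linarith)
    have h5 : γ ^ j * (1 - y) = γ ^ (j - 2) * (γ ^ 2 * (1 - y)) := by rw [hpj]; ring
    have h6 : gl * (γ ^ (j - 2) * D) = γ ^ (j - 2) * (gl * D) := by ring
    linarith
  · have h1 : 2 * P ≤ (2 + aa - γ) * P := mul_le_mul_of_nonneg_right (by linarith) hP0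
    have h2 : γ ^ (j - 2) * γ ^ 2 ≤ γ ^ (j - 2) * D :=
      mul_le_mul_of_nonneg_left hD (by positivity)
    have h3 : aa ^ j * (1 - y) ≤ aa ^ j := mul_le_of_le_one_right (by positivity) (by linarith)
    have h4 : aa ^ j < (γ + 1) ^ j := pow_lt_pow_left₀ haa haa0 (by omega)
    have h5 := Rjb_pow (show 1 ≤ j by omega) hγ
    rw [hpj] at h5
    linarith

end Pool.Agent.H63.PDR
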