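import Mathlib

/-!
# RJC: two numerical inequalities (Mathlib only)
-/

namespace Pool.Agent.H63.PDR

set_option maxRecDepth 100000

theorem rj3_core {z s : ℝ} (hz : 0 ≤ z) (hs : 0 ≤ s) :
    (z + 5) + (z + 4) * (z + 8 + s) <
      ((1 - (z + 5) / ((z + 4) * (z + 8 + s) - 5 / 4)) *
          ((z + 8 + s) - 1 / (z + 4)) ^ 2 -
        (z + 5 + 2) * (1 + 1 / ((z + 5) + (z + 4) * (z + 8 + s)))) *
      (1 - (1 / 2 + (z + 5) / ((z + 4) * (z + 8 + s))) / ((z + 8 + s) - 1 / (z + 4))) := by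
  have h1 : 0 < (z + 4) * (z + 8 + s) - 5 / 4 := by nlinarith [mul_nonneg hz hs, mul_nonneg hz hz]
  have h2 : 0 < (z + 4) * (z + 8 + s) - 1 := by linarith
  have h4 : (0 : ℝ) < z + 4 := by positivity
  have hq : (z + 8 + s) - 1 / (z + 4) = ((z + 4) * (z + 8 + s) - 1) / (z + 4) := by
    field_simp
  rw [hq, ← sub_pos]
  have hkey : ((1 - (z + 5) / ((z + 4) * (z + 8 + s) - 5 / 4)) *
          (((z + 4) * (z + 8 + s) - 1) / (z + 4)) ^ 2 -
        (z + 5 + 2) * (1 + 1 / ((z + 5) + (z + 4) * (z + 8 + s)))) *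
      (1 - (1 / 2 + (z + 5) / ((z + 4) * (z + 8 + s))) / (((z + 4) * (z + 8 + s) - 1) / (z + 4))) -
      ((z + 5) + (z + 4) * (z + 8 + s)) =
      (88733650 + 391905990 * s + (1686097477/2) * s * z + (3236549045/4) * s * z ^ 2 + (1827653793/4)
      * s * z ^ 3 + 168510100 * s * z ^ 4 + (170321623/4) * s * z ^ 5 + 7517293 * s * z ^ 6 +
      (3707347/4) * s * z ^ 7 + (156411/2) * s * z ^ 8 + (8605/2) * s * z ^ 9 + 139 * s * z ^
      10 + 2 * s * z ^ 11 + 216177792 * s ^ 2 + 434276716 * s ^ 2 * z + 386452438 * s ^ 2 * z ^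
      2 + (801436475/4) * s ^ 2 * z ^ 3 + (133876719/2) * s ^ 2 * z ^ 4 + 15039854 * s ^ 2 * z
      ^ 5 + 2299044 * s ^ 2 * z ^ 6 + 235910 * s ^ 2 * z ^ 7 + 15545 * s ^ 2 * z ^ 8 + 594 * s
      ^ 2 * z ^ 9 + 10 * s ^ 2 * z ^ 10 + 50227392 * s ^ 3 + 94294592 * s ^ 3 * z + 77592408 *
      s ^ 3 * z ^ 2 + 36677288 * s ^ 3 * z ^ 3 + (43830735/4) * s ^ 3 * z ^ 4 + (8568391/4) * s
      ^ 3 * z ^ 5 + (547085/2) * s ^ 3 * z ^ 6 + 21970 * s ^ 3 * z ^ 7 + 1006 * s ^ 3 * z ^ 8 +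
      20 * s ^ 3 * z ^ 9 + 5901312 * s ^ 4 + 10325184 * s ^ 4 * z + 7813440 * s ^ 4 * z ^ 2 +
      3334664 * s ^ 4 * z ^ 3 + 876184 * s ^ 4 * z ^ 4 + (579203/4) * s ^ 4 * z ^ 5 + 14660 * s
      ^ 4 * z ^ 6 + 829 * s ^ 4 * z ^ 7 + 20 * s ^ 4 * z ^ 8 + 347648 * s ^ 5 + 564608 * s ^ 5
      * z + 390080 * s ^ 5 * z ^ 2 + 148400 * s ^ 5 * z ^ 3 + 33510 * s ^ 5 * z ^ 4 + (8959/2)
      * s ^ 5 * z ^ 5 + 327 * s ^ 5 * z ^ 6 + 10 * s ^ 5 * z ^ 7 + 8192 * s ^ 6 + 12288 * s ^ 6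
      * z + 7680 * s ^ 6 * z ^ 2 + 2560 * s ^ 6 * z ^ 3 + 480 * s ^ 6 * z ^ 4 + 48 * s ^ 6 * z
      ^ 5 + 2 * s ^ 6 * z ^ 6 + (434835197/2) * z + (465468915/2) * z ^ 2 + (577311187/4) * z ^
      3 + (231080483/4) * z ^ 4 + (62790497/4) * z ^ 5 + (11831639/4) * z ^ 6 + (1547243/4) * z
      ^ 7 + (68853/2) * z ^ 8 + (7949/4) * z ^ 9 + 67 * z ^ 10 + 1 * z ^ 11) /
      (2 * ((z + 4) * (z + 8 + s)) * ((z + 4) * (z + 8 + s) - 1) *
        ((z + 4) * (z + 8 + s) - 5 / 4) * ((z + 5) + (z + 4) * (z + 8 + s)) * (z + 4) ^ 2) := by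
    have h5 : (z + 4) * (z + 8 + s) - 5 / 4 ≠ 0 := h1.ne'
    have h6 : (z + 4) * (z + 8 + s) - 1 ≠ 0 := h2.ne'
    have h7 : (z + 5) + (z + 4) * (z + 8 + s) ≠ 0 := by positivity
    have h8 : z + 8 + s ≠ 0 := by positivity
    generalize hA : (z + 4) * (z + 8 + s) - 5 / 4 = A at *
    generalize hB : (z + 4) * (z + 8 + s) - 1 = B at *
    generalize hC : (z + 5) + (z + 4) * (z + 8 + s) = D at *
    field_simp
    rw [← hA, ← hB, ← hC]
    ring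
  rw [hkey]
  apply div_pos
  · positivity
  · have h9 : 0 < (z + 4) * (z + 8 + s) := by positivity
    have h10 : 0 < (z + 5) + (z + 4) * (z + 8 + s) := by positivity
    positivity

theorem rj3 {l ρ Q : ℝ} (hl : 5 ≤ l) (hρ : l + 3 ≤ ρ) (hQ : ρ - 1 / (l - 1) ≤ Q) :
    l + (l - 1) * ρ < ((1 - l / ((l - 1) * ρ - 5 / 4)) * Q ^ 2 -
      (l + 2) * (1 + 1 / (l + (l - 1) * ρ))) * (1 - (1 / 2 + l / ((l - 1) * ρ)) / Q) := by
  obtain ⟨z, rfl⟩ : ∃ z, l = z + 5 := ⟨l - 5, by ring⟩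
  have hz : 0 ≤ z := by linarith
  obtain ⟨s, rfl⟩ : ∃ s, ρ = z + 8 + s := ⟨ρ - z - 8, by ring⟩
  have hs : 0 ≤ s := by linarith
  have h0 : z + 5 - 1 = z + 4 := by ring
  rw [h0] at hQ ⊢
  refine (rj3_core hz hs).trans_le ?_
  obtain ⟨q, hq⟩ : ∃ q, q = z + 8 + s - 1 / (z + 4) := ⟨_, rfl⟩
  obtain ⟨α, hα⟩ : ∃ α, α = 1 - (z + 5) / ((z + 4) * (z + 8 + s) - 5 / 4) := ⟨_, rfl⟩
  obtain ⟨β, hβ⟩ : ∃ β, β = (z + 5 + 2) * (1 + 1 / ((z + 5) + (z + 4) * (z + 8 + s))) := ⟨_, rfl⟩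
  obtain ⟨δ, hδ⟩ : ∃ δ, δ = 1 / 2 + (z + 5) / ((z + 4) * (z + 8 + s)) := ⟨_, rfl⟩
  rw [← hq] at hQ ⊢
  rw [← hα, ← hβ, ← hδ]
  have hzs := mul_nonneg hz hs
  have hzz := mul_nonneg hz hz
  have h4 : (0 : ℝ) < z + 4 := by positivity
  have hq7 : z + 7 ≤ q := by
    have : 1 / (z + 4) ≤ 1 := by rw [div_le_one h4]; linarith
    rw [hq]; linarith
  have hα0 : 1 / 2 ≤ α := by
    have h1 : 0 < (z + 4) * (z + 8 + s) - 5 / 4 := by nlinarith
    have : (z + 5) / ((z + 4) * (z + 8 + s) - 5 / 4) ≤ 1 / 2 := by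
      rw [div_le_iff₀ h1]; nlinarith
    rw [hα]; linarith
  have hα1 : α ≤ 1 := by
    have h1 : 0 < (z + 4) * (z + 8 + s) - 5 / 4 := by nlinarith
    have : 0 ≤ (z + 5) / ((z + 4) * (z + 8 + s) - 5 / 4) := by positivity
    rw [hα]; linarith
  have hδ1 : δ ≤ 1 := by
    have : (z + 5) / ((z + 4) * (z + 8 + s)) ≤ 1 / 2 := by
      rw [div_le_iff₀ (by positivity)]; nlinarith
    rw [hδ]; linarith
  have hδ0 : 0 ≤ δ := by rw [hδ]; positivity
  have hβ2 : β ≤ 2 * (z + 7) := by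
    have : 1 / ((z + 5) + (z + 4) * (z + 8 + s)) ≤ 1 := by
      rw [div_le_one (by positivity)]; nlinarith
    have h3 : 0 ≤ z + 5 + 2 := by positivity
    have := mul_le_mul_of_nonneg_left (show 1 + 1 / ((z + 5) + (z + 4) * (z + 8 + s)) ≤ 2 by
      linarith) h3
    rw [hβ]; linarith
  have hβ0 : 0 ≤ β := by rw [hβ]; positivity
  have hqpos : 0 < q := by linarith
  have hQpos : 0 < Q := by linarith
  have hdiff : (α * Q ^ 2 - β) * (1 - δ / Q) - (α * q ^ 2 - β) * (1 - δ / q) =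
      (Q - q) * (α * (Q + q - δ) - β * δ / (Q * q)) := by
    field_simp
    ring
  have hsmall : β * δ / (Q * q) ≤ 2 := by
    rw [div_le_iff₀ (by positivity)]
    have h1 : β * δ ≤ β * 1 := mul_le_mul_of_nonneg_left hδ1 hβ0
    have h2 : 1 * q ≤ Q * q := mul_le_mul_of_nonneg_right (by linarith) hqpos.le
    nlinarith
  have hbig : 2 ≤ α * (Q + q - δ) := by nlinarith
  have : 0 ≤ (Q - q) * (α * (Q + q - δ) - β * δ / (Q * q)) :=
    mul_nonneg (by linarith) (by linarith)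
  linarith

theorem rj4 {Q x : ℝ} (hQ : 183 / 23 ≤ Q) (hx0 : 0 ≤ x) (hx : x * Q ≤ 1) :
    46 * (1 - x * (60 / 61) * (1 - 47 / 46 * x / Q)) <
      (131 / 155 - 8 * (47 / 46) * x / Q) * (Q ^ 2 - 13 / 20 * Q) := by
  have hQ0 : 0 < Q := by linarith
  obtain ⟨T, hT⟩ : ∃ T, T = x * Q := ⟨_, rfl⟩
  have hxT : x = T / Q := by rw [hT]; field_simp
  have hT0 : 0 ≤ T := by rw [hT]; positivity
  have hT1 : T ≤ 1 := by rw [hT]; exact hx
  obtain ⟨U, hU⟩ : ∃ U, U = 1 - T := ⟨_, rfl⟩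
  have hU0 : 0 ≤ U := by linarith
  obtain ⟨w, hw⟩ : ∃ w, w = Q - 183 / 23 := ⟨_, rfl⟩
  have hw0 : 0 ≤ w := by linarith
  have hQw : Q = w + 183 / 23 := by linarith
  have hp : 0 < U ^ 2 * ((31487265318411/19952663300) + (1538216681022/216876775) * w + (55640970477/18858850)
      * w ^ 2 + (193326173/409975) * w ^ 3 + (2358131/71300) * w ^ 4 + (131/155) * w ^ 5) + 2 *
      T ^ 1 * U ^ 1 * ((22344130759221/19952663300) + (1457122945107/216876775) * w +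
      (1655477729921/575194925) * w ^ 2 + (191650623/409975) * w ^ 3 + (2358131/71300) * w ^ 4
      + (131/155) * w ^ 5) + T ^ 2 * ((748994257695891/1217112461300) +
      (1376029209192/216876775) * w + (3227811720587/1150389850) * w ^ 2 + (189975073/409975) *
      w ^ 3 + (2358131/71300) * w ^ 4 + (131/155) * w ^ 5) := by
    rcases hT0.eq_or_lt with h | h
    · have : U = 1 := by linarith
      rw [← h, this]; positivity
    · positivity
  have hkey : (131 / 155 - 8 * (47 / 46) * x / Q) * (Q ^ 2 - 13 / 20 * Q) -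
      46 * (1 - x * (60 / 61) * (1 - 47 / 46 * x / Q)) = (U ^ 2 * ((31487265318411/19952663300) + (1538216681022/216876775) * w + (55640970477/18858850)
      * w ^ 2 + (193326173/409975) * w ^ 3 + (2358131/71300) * w ^ 4 + (131/155) * w ^ 5) + 2 *
      T ^ 1 * U ^ 1 * ((22344130759221/19952663300) + (1457122945107/216876775) * w +
      (1655477729921/575194925) * w ^ 2 + (191650623/409975) * w ^ 3 + (2358131/71300) * w ^ 4
      + (131/155) * w ^ 5) + T ^ 2 * ((748994257695891/1217112461300) +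
      (1376029209192/216876775) * w + (3227811720587/1150389850) * w ^ 2 + (189975073/409975) *
      w ^ 3 + (2358131/71300) * w ^ 4 + (131/155) * w ^ 5)) / Q ^ 3 := by
    rw [hxT, eq_div_iff (by positivity)]
    have h1 : ((131 / 155 - 8 * (47 / 46) * (T / Q) / Q) * (Q ^ 2 - 13 / 20 * Q) -
      46 * (1 - (T / Q) * (60 / 61) * (1 - 47 / 46 * (T / Q) / Q))) * Q ^ 3 =
      131 / 155 * (Q ^ 5 - 13 / 20 * Q ^ 4) - 188 / 23 * T * Q ^ 3 +
      188 / 23 * (13 / 20) * T * Q ^ 2 - 46 * Q ^ 3 + 2760 / 61 * T * Q ^ 2 -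
      2820 / 61 * T ^ 2 := by
      field_simp
      ring
    rw [h1, hU, hQw]
    ring
  have : 0 < (U ^ 2 * ((31487265318411/19952663300) + (1538216681022/216876775) * w + (55640970477/18858850)
      * w ^ 2 + (193326173/409975) * w ^ 3 + (2358131/71300) * w ^ 4 + (131/155) * w ^ 5) + 2 *
      T ^ 1 * U ^ 1 * ((22344130759221/19952663300) + (1457122945107/216876775) * w +
      (1655477729921/575194925) * w ^ 2 + (191650623/409975) * w ^ 3 + (2358131/71300) * w ^ 4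
      + (131/155) * w ^ 5) + T ^ 2 * ((748994257695891/1217112461300) +
      (1376029209192/216876775) * w + (3227811720587/1150389850) * w ^ 2 + (189975073/409975) *
      w ^ 3 + (2358131/71300) * w ^ 4 + (131/155) * w ^ 5)) / Q ^ 3 := div_pos hp (by positivity)
  linarith

end Pool.Agent.H63.PDR
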