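import Pool.Agent.H63.PD.Ngd

/-!
# SEC: two moment inequalities when `k0 < a 2 + 1`

Write `l = a 2`, `μ = a 3`, `aa = (k-2) rho 2`, `cc = (k-l) rho 3`, `g = aa + 2 - l`.
For a flat `L` of relative rank 2 with `2 ≤ b L` write `e = b L`; `e ≤ l - 1` (FUL with `j = i = 2`,
`IsF.b_le_sub`).  For `y ∈ out L` the flat `jn L y` has `b ≤ l` (NGD, `j = i = 2`), so
`mu 3 (jn L y) - l = b' - l + (k - b') rho 3 ≤ cc`.
Also `g ≤ k0 + 2 - l < 3` (`aa ≤ k0`: `kap_le` for a line with `b = 2`? no: directly `aa ≤ k rho 0 = k0`)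
and `(μ - e)(1 - rho 2) ≥ 3`:
`μ - e ≥ μ - l + 1 ≥ (l-2) l + 2 ≥ 17` (`a_ge`), `1 - rho 2 = (v-k)/(v-l) ≥ 3/4 - ...`: simply
`rho 2 ≤ 1/4` because `v - l ≥ 4 (k - l)` (`a_ge`: `v ≥ (l-1) k + 1`), so `(μ-e)(1-rho 2) ≥ 12`.

(I1) By `growth` (`i = 2`, `t = 2`): `(μ - e)(mu 2 L - l) ≤ rho 2 ∑ (mu 3 (jn L y) - l) ≤ rho 2 (k - e) cc`,
with `mu 2 L - l = e + (k-e) rho 2 - l = g + (e-2)(1 - rho 2)`, `rho 2 (k-e) = aa - (e-2) rho 2`:
`(μ-e)(g + (e-2)(1-rho 2)) ≤ (aa - (e-2) rho 2) cc ≤ aa cc`, and the left side is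
`(μ-2) g + (e-2) [(μ-e)(1-rho 2) - g] ≥ (μ-2) g`.  The line exists: `exists_line`.

(I2) For all `X = b H`: `(X-1)(X-l)(X-μ)(X-a 4) ≥ 0` (`exists_val`: `X = a i`; for `i = 0` it is
`l μ (a 4) ≥ 0`, for `1 ≤ i ≤ 4` it is `0`, for `i ≥ 5` all factors are `≥ 0`).  Since
`(X-1)(X-l)(X-μ)(X-a 4) = X(X-1)·(X-l)(X-μ-a 4) + μ (a 4) (X(X-1) - l X + l)`,
averaging over all hyperplanes on `F₀` (`E_base_two`, `E_base_sq`, `E_base_id`) gives
`0 ≤ rho 0 rho 1 ∑_y ∑_z E_L [(X-l)(X-μ-a 4)] + μ (a 4) (k0 k1 - l k0 + l)`, `L = jn (jn F₀ y) z`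
(`2 ≤ b L`).  For such `L`, `e = b L`: `(X-l)(X-μ-a 4) = (X-e)(X-l) - (μ+a 4-e)(X-l)`, so by
`E_key` and `mu_eq`
`E_L[...] = rho 2 ∑_w (mu 3 (jn L w) - l) - (μ + a 4 - e)(mu 2 L - l)
  ≤ (aa - (e-2) rho 2) cc - (μ+a 4-e)(g + (e-2)(1-rho 2)) ≤ aa cc - (μ + a 4 - 2) g`
(as in (I1)).  The number of pairs `(y,z)` times `rho 0 rho 1` is `k0 k1` (as in `E_base_sq`).
-/

open Set

namespace Pool.Agent.H63.PD

open Pool.Agent.H69.Pmd

set_option linter.unusedSectionVars false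

variable {α : Type*} [Fintype α] {C : PD α}

/-- the numbers -/
theorem Sec_num (h5 : 5 ≤ C.a 2) (hk : C.k0 < C.a 2 + 1) :
    0 < C.rho 2 ∧ C.rho 2 ≤ 1 / 4 ∧ 0 < C.rho 3 ∧ C.rho 3 < 1 ∧ C.a 2 < C.k ∧
      (C.a 2 - 1) * C.a 2 + 1 ≤ C.a 3 ∧ (C.k - 2) * C.rho 2 + 2 - C.a 2 < 3 ∧ 0 ≤ C.a 4 := by
  have h1 : 0 < C.rho 2 := rho_pos (by omega)
  have h2 : 0 < C.rho 3 := rho_pos (by omega)
  have h3 : C.rho 3 < 1 := rho_lt_one (by omega)
  have h4 : C.a 2 < C.k := C.a_lt (show 2 < C.m + 4 by omega) (by omega)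
  have h6 : (C.a 2 - 1) * C.a 2 + 1 ≤ C.a 3 := a_ge (C := C) (i := 2) (by omega)
  have h7 : (C.a 2 - 1) * C.k + 1 ≤ C.v := a_ge (C := C) (i := C.m + 4) (by omega)
  have h8 : C.rho 2 ≤ C.rho 0 := rho_anti (by omega) (by omega)
  have h9 := rho_zero_mul (C := C)
  have h10 : C.a 2 < C.v := h4.trans C.k_lt_v
  have h11 : 0 ≤ C.a 4 := C.a_nonneg (by omega)
  refine ⟨h1, ?_, h2, h3, h4, h6, ?_, h11⟩
  · rw [rho, div_le_div_iff₀ (by linarith) (by norm_num)]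
    nlinarith
  · nlinarith

/-- for a line `L` with at least two points of `B` -/
theorem Sec_line (h5 : 5 ≤ C.a 2) (hk : C.k0 < C.a 2 + 1) {L : Set α} (hL : C.IsF 2 L)
    (h2 : 2 ≤ C.b L) :
    C.rho 2 * ∑ y ∈ C.out L, (C.mu 3 (C.jn L y) - C.a 2) ≤
      ((C.k - 2) * C.rho 2) * ((C.k - C.a 2) * C.rho 3) ∧
    ∀ A, C.a 3 ≤ A → (A - 2) * ((C.k - 2) * C.rho 2 + 2 - C.a 2) ≤
      (A - C.b L) * (C.mu 2 L - C.a 2) := by
  obtain ⟨n1, n2, n3, n4, n5, n6, n7, n8⟩ := Sec_num h5 hk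
  have f1 : C.b L ≤ C.a 2 - 1 := hL.b_le_sub (ful h5 le_rfl hk le_rfl (by omega) hL)
  have f2 : ∀ y ∈ C.out L, C.mu 3 (C.jn L y) - C.a 2 ≤ (C.k - C.a 2) * C.rho 3 := by
    intro y hy
    have hG := hL.jn (mem_out.1 hy).2
    have hb := ngd h5 le_rfl hk (i := 2) le_rfl (by omega) hG
    rw [mu]
    nlinarith
  refine ⟨?_, ?_⟩
  · have h3 := Finset.sum_le_sum f2
    rw [Finset.sum_const, nsmul_eq_mul, card_out] at h3
    have h4 : C.rho 2 * ∑ y ∈ C.out L, (C.mu 3 (C.jn L y) - C.a 2) ≤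
        C.rho 2 * ((C.k - C.b L) * ((C.k - C.a 2) * C.rho 3)) :=
      mul_le_mul_of_nonneg_left h3 n1.le
    refine h4.trans ?_
    have h6 : 0 ≤ (C.k - C.a 2) * C.rho 3 := mul_nonneg (by linarith) n3.le
    have h7 : 0 ≤ C.rho 2 * ((C.b L - 2) * ((C.k - C.a 2) * C.rho 3)) :=
      mul_nonneg n1.le (mul_nonneg (by linarith) h6)
    nlinarith
  · intro A hA
    have h3 : C.mu 2 L - C.a 2 = ((C.k - 2) * C.rho 2 + 2 - C.a 2) +
        (C.b L - 2) * (1 - C.rho 2) := by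
      rw [mu]; ring
    rw [h3]
    have h4 : (A - C.b L) * (((C.k - 2) * C.rho 2 + 2 - C.a 2) +
        (C.b L - 2) * (1 - C.rho 2)) - (A - 2) * ((C.k - 2) * C.rho 2 + 2 - C.a 2) =
        (C.b L - 2) * ((A - C.b L) * (1 - C.rho 2) - ((C.k - 2) * C.rho 2 + 2 - C.a 2)) := by
      ring
    have h6 : 17 ≤ A - C.b L := by nlinarith
    have h7 : 0 ≤ (C.b L - 2) * ((A - C.b L) * (1 - C.rho 2) -
        ((C.k - 2) * C.rho 2 + 2 - C.a 2)) := by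
      refine mul_nonneg (by linarith) ?_
      nlinarith
    linarith

/-- the values of the polynomial -/
theorem Sec_prod {H : Set α} (hH : C.IsF (C.m + 4) H) :
    0 ≤ (C.b H - 1) * (C.b H - C.a 2) * ((C.b H - C.a 3) * (C.b H - C.a 4)) := by
  obtain ⟨i, hi, hb⟩ := exists_val hH
  have n1 := C.a_one
  have n2 : 0 ≤ C.a 2 := C.a_nonneg (by omega)
  have n3 : 0 ≤ C.a 3 := C.a_nonneg (by omega)
  have n4 : 0 ≤ C.a 4 := C.a_nonneg (by omega)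
  rcases (show i = 0 ∨ i = 1 ∨ i = 2 ∨ i = 3 ∨ i = 4 ∨ 5 ≤ i by omega) with
    rfl | rfl | rfl | rfl | rfl | h
  · rw [hb, C.a_zero]
    have : (0 - 1) * (0 - C.a 2) * ((0 - C.a 3) * (0 - C.a 4)) = C.a 2 * (C.a 3 * C.a 4) := by ring
    rw [this]
    positivity
  · rw [hb, n1]
    simp
  · rw [hb]
    simp
  · rw [hb]
    simp
  · rw [hb]
    simp
  · have m1 : C.a 1 ≤ C.a i := C.a_le (by omega) (by omega)
    have m2 : C.a 2 ≤ C.a i := C.a_le (by omega) (by omega)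
    have m3 : C.a 3 ≤ C.a i := C.a_le (by omega) (by omega)
    have m4 : C.a 4 ≤ C.a i := C.a_le (by omega) (by omega)
    rw [hb]
    exact mul_nonneg (mul_nonneg (by linarith) (by linarith))
      (mul_nonneg (by linarith) (by linarith))

/-- the mean on a line -/
theorem Sec_E (h5 : 5 ≤ C.a 2) (hk : C.k0 < C.a 2 + 1) {L : Set α} (hL : C.IsF 2 L)
    (h2 : 2 ≤ C.b L) :
    C.E L (fun x => (x - C.a 2) * (x - C.a 3 - C.a 4)) ≤
      ((C.k - 2) * C.rho 2) * ((C.k - C.a 2) * C.rho 3) -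
        (C.a 4 + C.a 3 - 2) * ((C.k - 2) * C.rho 2 + 2 - C.a 2) := by
  obtain ⟨n1, n2, n3, n4, n5, n6, n7, n8⟩ := Sec_num h5 hk
  obtain ⟨s1, s2⟩ := Sec_line h5 hk hL h2
  have s3 := s2 (C.a 4 + C.a 3) (by linarith)
  have h1 := E_key (by omega) hL (fun x => x - C.a 2)
  have h3 : ∀ y ∈ C.out L, C.E (C.jn L y) (fun x => x - C.a 2) =
      C.mu 3 (C.jn L y) - C.a 2 := by
    intro y hy
    have hJ := hL.jn (mem_out.1 hy).2
    rw [E_sub _ (fun x => x) (fun _ => C.a 2), mu_eq (by omega) hJ, E_const hJ (by omega)]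
  rw [Finset.sum_congr rfl h3] at h1
  have h4 : C.E L (fun x => (x - C.a 2) * (x - C.a 3 - C.a 4)) =
      C.E L (fun x => (x - C.b L) * (x - C.a 2)) -
        (C.a 4 + C.a 3 - C.b L) * (C.mu 2 L - C.a 2) := by
    have h6 : C.E L (fun x => x - C.a 2) = C.mu 2 L - C.a 2 := by
      rw [E_sub _ (fun x => x) (fun _ => C.a 2), mu_eq (by omega) hL, E_const hL (by omega)]
    rw [← h6, ← E_mul L (C.a 4 + C.a 3 - C.b L) (fun x => x - C.a 2),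
      ← E_sub L (fun x => (x - C.b L) * (x - C.a 2))
        (fun x => (C.a 4 + C.a 3 - C.b L) * (x - C.a 2))]
    congr 1
    funext x
    ring
  rw [h4, h1]
  linarith

theorem sec1 (h5 : 5 ≤ C.a 2) (hk : C.k0 < C.a 2 + 1) :
    (C.a 3 - 2) * ((C.k - 2) * C.rho 2 + 2 - C.a 2) ≤
      ((C.k - 2) * C.rho 2) * ((C.k - C.a 2) * C.rho 3) := by
  obtain ⟨L, hL, h2⟩ := exists_line (C := C)
  obtain ⟨s1, s2⟩ := Sec_line h5 hk hL h2
  have s3 := s2 (C.a 3) le_rfl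
  have h1 := growth (C := C) (i := 2) (t := 2) (by omega) hL (by omega)
  exact s3.trans (h1.trans s1)

theorem sec2 (h5 : 5 ≤ C.a 2) (hk : C.k0 < C.a 2 + 1) :
    C.k0 * C.k1 * ((C.a 4 + C.a 3 - 2) * ((C.k - 2) * C.rho 2 + 2 - C.a 2) -
      ((C.k - 2) * C.rho 2) * ((C.k - C.a 2) * C.rho 3)) ≤
    C.a 3 * C.a 4 * (C.k0 * C.k1 - C.a 2 * C.k0 + C.a 2) := by
  set R : ℝ := ((C.k - 2) * C.rho 2) * ((C.k - C.a 2) * C.rho 3) -
        (C.a 4 + C.a 3 - 2) * ((C.k - 2) * C.rho 2 + 2 - C.a 2) with hR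
  have h1 : 0 ≤ C.E C.F₀ (fun x => (x - 1) * (x - C.a 2) * ((x - C.a 3) * (x - C.a 4))) :=
    E_nonneg Subset.rfl fun H hH _ => Sec_prod hH
  have h2 : C.E C.F₀ (fun x => (x - 1) * (x - C.a 2) * ((x - C.a 3) * (x - C.a 4))) =
      C.E C.F₀ (fun x => x * (x - 1) * ((x - C.a 2) * (x - C.a 3 - C.a 4))) +
        C.a 3 * C.a 4 * (C.k0 * C.k1 - C.a 2 * C.k0 + C.a 2) := by
    have h3 : C.E C.F₀ (fun x => x * (x - 1) - C.a 2 * x + C.a 2) =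
        C.k0 * C.k1 - C.a 2 * C.k0 + C.a 2 := by
      rw [E_add _ (fun x => x * (x - 1) - C.a 2 * x) (fun _ => C.a 2),
        E_const isF_base (by omega), E_sub _ (fun x => x * (x - 1)) (fun x => C.a 2 * x),
        E_mul _ _ (fun x => x), E_base_sq, E_base_id]
    rw [← h3, ← E_mul _ _ (fun x => x * (x - 1) - C.a 2 * x + C.a 2),
      ← E_add _ (fun x => x * (x - 1) * ((x - C.a 2) * (x - C.a 3 - C.a 4)))
        (fun x => C.a 3 * C.a 4 * (x * (x - 1) - C.a 2 * x + C.a 2))]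
    congr 1
    funext x
    ring
  have hrr : 0 ≤ C.rho 0 * C.rho 1 :=
    mul_nonneg (rho_pos (by omega)).le (rho_pos (by omega)).le
  have h4 : C.E C.F₀ (fun x => x * (x - 1) * ((x - C.a 2) * (x - C.a 3 - C.a 4))) ≤
      C.k0 * C.k1 * R := by
    have h6 : C.k0 * C.k1 * R = C.E C.F₀ (fun x => x * (x - 1) * R) := by
      have h7 : (fun x : ℝ => x * (x - 1) * R) = fun x => R * (x * (x - 1)) := by
        funext x; ring
      rw [h7, E_mul _ _ (fun x => x * (x - 1)), E_base_sq]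
      ring
    rw [h6, E_base_two, E_base_two]
    refine mul_le_mul_of_nonneg_left ?_ hrr
    refine Finset.sum_le_sum fun y hy => Finset.sum_le_sum fun z hz => ?_
    obtain ⟨a1, a2⟩ := point hy
    obtain ⟨a3, a4⟩ := mem_out.1 hz
    have hL := a1.jn a4
    have hb := b_add_one_le (C := C) (sub_jn (C := C) (C.jn C.F₀ y) z) a3
      (mem_jn (C := C) _ z) a4
    rw [a2] at hb
    rw [E_const hL (by omega)]
    exact Sec_E h5 hk hL (by linarith)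
  have h8 : C.k0 * C.k1 * ((C.a 4 + C.a 3 - 2) * ((C.k - 2) * C.rho 2 + 2 - C.a 2) -
      ((C.k - 2) * C.rho 2) * ((C.k - C.a 2) * C.rho 3)) = -(C.k0 * C.k1 * R) := by
    rw [hR]; ring
  rw [h8]
  linarith

end Pool.Agent.H63.PD
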