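import Pool.Agent.H63.PD.Siz

/-!
# TOP: the case `a (m+3) - 2 < k0`

Write `l = a 2 ≥ 5`, `γ = a (m+3)`, `β = a (m+2)`, `n = K (m+3)`, so `v - γ = n (k - γ)`, `v - k = (n-1)(k-γ)`,
`n ≥ K 1 ≥ l` (`K_mono`, `K_zero`), `c = 1/(n-1)`, `β₀ = γ - k/(n-1)`.
(1) `γ v - k² = (k-γ)((n-1)γ - k) = (v-k) β₀` and `γ v - k² = v (γ - k0)`; `k0 = mu 0 F₀ ≤ γ`
(`mu_le_top`), so `β₀ ≥ 0`.
(2) `β₀ ≥ 2 - c l`: take a line `L` with `2 ≤ b L` (`exists_line`); `mu 2 L ≤ γ` (`mu_le_top`) gives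
`2 + (k-2) rho 2 ≤ γ` (`mu` is nondecreasing in `b` as `rho ≤ 1`), i.e.
`(k-2)(k-l) ≤ (γ-2)(v-l)`, i.e. `γ v - k² ≥ 2 (v-k) - l (k-γ)`.  Divide by `v - k`.
(3) `window` with `t = m+2`: `k0 (γ - 1 - k1) ≤ β (γ - k0)`; here
`γ - k0 = (v-k) β₀ / v`, `γ - 1 - k1 = (v-k)(β₀ - 1 + c)/(v-1)`
(`(γ-1)(v-1) - (k-1)² = (γv-k²) - (v-k) + (k-γ)`), so `k0 (β₀-1+c) v/(v-1) ≤ β β₀`.  Hence, if
`β₀ - 1 + c ≥ 0`: `(γ-2)(β₀ + c - 1) ≤ β β₀` (W).
(4) Suppose `n ≥ l + 2`.  Then `c ≤ 1/(l+1)`, `β₀ ≥ 2 - c l > 1`,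
`(β₀+c-1)/β₀ = 1 - (1-c)/β₀ ≥ 1 - (1-c)/(2-cl) = (1-c(l-1))/(2-cl) ≥ 2/(l+2)` (decreasing in `c`),
i.e. `(l+2)(β₀+c-1) ≥ 2 β₀`; with (W): `2 (γ-2) ≤ (l+2) β`; but `γ ≥ (l-1) β + 1` (`a_ge`), so
`2 (l-1) β - 2 ≤ (l+2) β`, `(l-4) β ≤ 2`, false since `β ≥ a 2 = l ≥ 5`.
(5) So `n < l + 2`; `n`, `l = K 0`, `K 1`, `K 2` are natural numbers (`K_nat`), `l ≤ K 1 ≤ K 2 ≤ n` (for
`m = 0`, `n = K 3`), so `n ≤ l+1`; this contradicts `a 2 + 2 ≤ K 1`.  Now let `m = 0`, `n = K 3`, `γ = a 3 = μ`,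
`β = a 2 = l`, `μ = 1 + K 1 (l-1)`, `k = a 4 = l + K 2 (μ - l)`.
 * `n = l`: `K 1 = K 2 = l`, `μ = l²-l+1`, `k = l(l²-2l+2)`, `β₀ = -1/(l-1) < 0`: contradiction with (1).
 * `n = l+1`, `K 2 = l+1`: `β₀ = μ - k/l = l - μ/l` and (2) says `β₀ ≥ 1`, so `μ ≤ l² - l`, but
   `μ ≥ 1 + l(l-1)`.
 * `n = l+1`, `K 2 = l`: `K 1 = l`, `β₀ = μ - k/l = l - 1`, `c = 1/l`, (W):
   `(l-2+1/l)(l²-l-1) ≤ l(l-1)`; false: the left side is `≥ 3 (l²-l-1) > l²-l`.
-/

open Set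

namespace Pool.Agent.H63.PD

open Pool.Agent.H69.Pmd

set_option linter.unusedSectionVars false

variable {α : Type*} [Fintype α] {C : PD α}

theorem top (h5 : 5 ≤ C.a 2) (hk : C.a (C.m + 3) - 2 < C.k0)
    (h : C.a 2 + 2 ≤ C.K 1 ∨ C.m = 0) : False := by
  obtain ⟨l, hl⟩ : ∃ l, l = C.a 2 := ⟨_, rfl⟩
  obtain ⟨γ, hγ⟩ : ∃ γ, γ = C.a (C.m + 3) := ⟨_, rfl⟩
  obtain ⟨β, hβ⟩ : ∃ β, β = C.a (C.m + 2) := ⟨_, rfl⟩
  obtain ⟨n, hn⟩ : ∃ n, n = C.K (C.m + 3) := ⟨_, rfl⟩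
  have hnm : n * (C.k - γ) = C.v - γ := by
    rw [hn, hγ]
    exact K_mul (C := C) (i := C.m + 3) le_rfl
  have hK01 : C.K 0 ≤ C.K 1 := K_mono (by omega) (by omega)
  have hK1n : C.K 1 ≤ n := by rw [hn]; exact K_mono (by omega) le_rfl
  have hln : l ≤ n := by
    rw [K_zero, ← hl] at hK01
    linarith
  have hγk : γ < C.k := by rw [hγ]; exact C.a_lt (by omega) (by omega)
  have hkv : C.k < C.v := C.k_lt_v
  have hv1 : 1 ≤ C.v := C.v_pos
  have hk1 := C.k_pos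
  have hβl : l ≤ β := by rw [hβ, hl]; exact C.a_le (by omega) (by omega)
  have hγβ : (l - 1) * β + 1 ≤ γ := by
    rw [hβ, hγ, hl]
    exact a_ge (C := C) (i := C.m + 2) (by omega)
  rw [← hl] at h5
  rw [← hγ] at hk
  have hlk : C.a 2 < C.k := C.a_lt (by omega) (by omega)
  rw [← hl] at hlk
  -- c
  obtain ⟨c, hc⟩ : ∃ c, c = (n - 1)⁻¹ := ⟨_, rfl⟩
  have hn1 : 0 < n - 1 := by linarith
  have hc1 : c * (n - 1) = 1 := by rw [hc]; exact inv_mul_cancel₀ hn1.ne'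
  have hc0 : 0 < c := by rw [hc]; exact inv_pos.2 hn1
  obtain ⟨b0, hb0⟩ : ∃ b0, b0 = γ - C.k * c := ⟨_, rfl⟩
  have hvk : C.v - C.k = (n - 1) * (C.k - γ) := by linarith
  have hkγ : C.k - γ = c * (C.v - C.k) := by
    rw [hvk, ← mul_assoc, hc1, one_mul]
  have hvk0 : 0 < C.v - C.k := by linarith
  have hvb : (C.v - C.k) * b0 = γ * C.v - C.k ^ 2 := by
    have h1 : (C.v - C.k) * b0 = (C.k - γ) * ((n - 1) * γ - C.k) := by
      have h2 : (C.v - C.k) * b0 = (C.k - γ) * ((n - 1) * γ - C.k * (c * (n - 1))) := by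
        rw [hvk, hb0]; ring
      rw [h2, hc1, mul_one]
    have h3 : C.v = γ + n * (C.k - γ) := by linarith
    rw [h1]
    rw [h3]
    ring
  have hk0v : C.k0 * C.v = C.k ^ 2 := by
    rw [PD.k0, div_mul_cancel₀]
    linarith
  -- (1)
  have hk0γ : C.k0 ≤ γ := by
    have h1 := mu_le_top (C := C) (i := 0) (by omega) isF_base
    rw [PD.mu, b_base, zero_add, sub_zero, rho_zero_mul, ← hγ] at h1
    exact h1
  have hb0nn : 0 ≤ b0 := by
    have h1 : 0 ≤ (C.v - C.k) * b0 := by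
      rw [hvb, ← hk0v]
      nlinarith
    exact nonneg_of_mul_nonneg_right h1 hvk0
  -- (2)
  have hb2 : 2 - c * l ≤ b0 := by
    obtain ⟨L, hL, hL2⟩ := exists_line (C := C)
    have h1 := mu_le_top (C := C) (i := 2) (by omega) hL
    rw [PD.mu, ← hγ] at h1
    have h2 := rho_lt_one (C := C) (i := 2) (by omega)
    have h3 : 2 + (C.k - 2) * C.rho 2 ≤ γ := by nlinarith
    have h4 : C.rho 2 * (C.v - l) = C.k - l := by
      rw [PD.rho, ← hl, div_mul_cancel₀]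
      linarith
    have h5' : (C.k - 2) * (C.k - l) ≤ (γ - 2) * (C.v - l) := by
      have h6 : 0 < C.v - l := by linarith
      have h7 := mul_le_mul_of_nonneg_right h3 h6.le
      have h8 : (2 + (C.k - 2) * C.rho 2) * (C.v - l) =
          2 * (C.v - l) + (C.k - 2) * (C.rho 2 * (C.v - l)) := by ring
      rw [h8, h4] at h7
      linarith
    have h9 : (2 - c * l) * (C.v - C.k) ≤ b0 * (C.v - C.k) := by
      have h10 : (2 - c * l) * (C.v - C.k) = 2 * (C.v - C.k) - l * (c * (C.v - C.k)) := by ring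
      rw [h10, ← hkγ, mul_comm b0, hvb]
      nlinarith
    exact le_of_mul_le_mul_right h9 hvk0
  -- (3)
  have hW : 0 ≤ b0 - 1 + c → (γ - 2) * (b0 + c - 1) ≤ β * b0 := by
    intro hpos
    have h1 := window (C := C) (t := C.m + 2) le_rfl
    have h1' : 0 ≤ C.k0 * (1 + C.k1 - β - γ) + β * γ := by
      rw [hβ, hγ]
      exact h1
    have h2 : γ - C.k0 = (C.v - C.k) * b0 / C.v := by
      rw [hvb, ← hk0v]
      field_simp
    have hv1' : 0 < C.v - 1 := by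
      have : 1 < C.v := by linarith
      linarith
    have h3 : γ - 1 - C.k1 = (C.v - C.k) * (b0 - 1 + c) / (C.v - 1) := by
      have h4 : (C.v - C.k) * (b0 - 1 + c) = (γ - 1) * (C.v - 1) - (C.k - 1) ^ 2 := by
        have h5 : (C.v - C.k) * (b0 - 1 + c) =
            (C.v - C.k) * b0 - (C.v - C.k) + c * (C.v - C.k) := by ring
        rw [h5, hvb, ← hkγ]
        ring
      rw [h4, PD.k1]
      field_simp
    have h4 : C.k0 * (γ - 1 - C.k1) ≤ β * (γ - C.k0) := by linarith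
    rw [h2, h3] at h4
    have h5 : C.k0 * ((C.v - C.k) * (b0 - 1 + c) / (C.v - 1)) =
        (C.v - C.k) * (C.k0 * (b0 - 1 + c) / (C.v - 1)) := by ring
    have h6 : β * ((C.v - C.k) * b0 / C.v) = (C.v - C.k) * (β * b0 / C.v) := by ring
    rw [h5, h6] at h4
    have h7 := le_of_mul_le_mul_left h4 hvk0
    have hv0 : 0 < C.v := by linarith
    rw [div_le_div_iff₀ hv1' hv0] at h7
    have hββ : 0 ≤ β * b0 := mul_nonneg (by linarith) hb0nn
    have h8 : C.k0 * (b0 - 1 + c) ≤ β * b0 := by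
      have h9 : C.k0 * (b0 - 1 + c) * C.v ≤ β * b0 * C.v := by nlinarith
      exact le_of_mul_le_mul_right h9 hv0
    nlinarith
  -- (4)
  have hn2 : n < l + 2 := by
    by_contra hcon
    push Not at hcon
    have h1 : c * (l + 1) ≤ 1 := by
      rw [← hc1]
      exact mul_le_mul_of_nonneg_left (by linarith) hc0.le
    have h2 : 1 ≤ b0 := by nlinarith
    have h3 := hW (by linarith)
    have h4 : 2 * b0 ≤ (l + 2) * (b0 + c - 1) := by
      have h5 : 0 ≤ (l - 2) * (1 - c * (l + 1)) := mul_nonneg (by linarith) (by linarith)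
      nlinarith [mul_le_mul_of_nonneg_left hb2 (show 0 ≤ l by linarith)]
    have hγ2 : 0 ≤ γ - 2 := by nlinarith
    have h5 : 2 * (γ - 2) * b0 ≤ (l + 2) * β * b0 := by
      have h6 := mul_le_mul_of_nonneg_left h4 hγ2
      have h7 := mul_le_mul_of_nonneg_left h3 (show 0 ≤ l + 2 by linarith)
      nlinarith
    have h6 := le_of_mul_le_mul_right h5 (by linarith)
    nlinarith
  -- (5)
  have hm : C.m = 0 := by
    rcases h with h | h
    · linarith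
    · exact h
  obtain ⟨N0, h0⟩ := K_nat (C := C) (i := 0) (by omega)
  obtain ⟨N1, h1⟩ := K_nat (C := C) (i := 1) (by omega)
  obtain ⟨N2, h2⟩ := K_nat (C := C) (i := 2) (by omega)
  obtain ⟨N3, h3⟩ := K_nat (C := C) (i := C.m + 3) le_rfl
  have hK12 : C.K 1 ≤ C.K 2 := K_mono (by omega) (by omega)
  have hK23 : C.K 2 ≤ C.K (C.m + 3) := K_mono (by omega) le_rfl
  have hlN : l = N0 := by rw [hl, ← K_zero, h0]
  have hnN : n = N3 := by rw [hn, h3]
  have hγ3 : γ = C.a 3 := by rw [hγ, hm]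
  have hk4 : C.k = C.a 4 := by rw [PD.k, hm]
  have hβ2 : β = l := by rw [hβ, hm, hl]
  have hμ : γ = 1 + N1 * (l - 1) := by rw [hγ3, a_three, h1, hl]
  have hkk : C.k = l + N2 * (γ - l) := by
    have h4 := K_mul (C := C) (i := 2) (by omega)
    rw [h2] at h4
    rw [hk4, hγ3, hl]
    linarith
  rw [h0, h1] at hK01
  rw [h1, h2] at hK12
  rw [h2, h3] at hK23
  have e01 : N0 ≤ N1 := by exact_mod_cast hK01
  have e12 : N1 ≤ N2 := by exact_mod_cast hK12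
  have e23 : N2 ≤ N3 := by exact_mod_cast hK23
  have e30 : N3 < N0 + 2 := by
    rw [hlN, hnN] at hn2
    exact_mod_cast hn2
  have hl0 : 0 < l := by linarith
  by_cases c1 : N3 = N0
  · have f1 : N1 = N0 := by omega
    have f2 : N2 = N0 := by omega
    have g1 : (N1 : ℝ) = l := by rw [f1, hlN]
    have g2 : (N2 : ℝ) = l := by rw [f2, hlN]
    have g3 : n = l := by rw [hnN, c1, hlN]
    rw [g1] at hμ
    rw [g2] at hkk
    have h4 : b0 * (l - 1) = γ * (l - 1) - C.k * (c * (n - 1)) := by rw [hb0, g3]; ring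
    rw [hc1, hkk, hμ] at h4
    have h6 : b0 * (l - 1) = -1 := by rw [h4]; ring
    have h7 : 0 ≤ b0 * (l - 1) := mul_nonneg hb0nn (by linarith)
    linarith
  · have g3 : n = l + 1 := by
      have : N3 = N0 + 1 := by omega
      rw [hnN, this, hlN]; push_cast; ring
    have hcl : c * l = 1 := by rw [← hc1, g3]; ring
    have h4 : b0 * l = γ * l - C.k * (c * l) := by rw [hb0]; ring
    rw [hcl, mul_one] at h4
    by_cases c2 : N2 = N0
    · have g2 : (N2 : ℝ) = l := by rw [c2, hlN]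
      have g1 : (N1 : ℝ) = l := by
        have : N1 = N0 := by omega
        rw [this, hlN]
      rw [g1] at hμ
      rw [g2] at hkk
      have h6 : b0 = l - 1 := by
        have : b0 * l = (l - 1) * l := by rw [h4, hkk]; ring
        exact mul_right_cancel₀ hl0.ne' this
      have h7 := hW (by rw [h6]; linarith)
      rw [h6, hβ2, hμ] at h7
      nlinarith
    · have g2 : (N2 : ℝ) = l + 1 := by
        have : N2 = N0 + 1 := by omega
        rw [this, hlN]; push_cast; ring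
      rw [g2] at hkk
      rw [hcl] at hb2
      have h6 : b0 * l = l ^ 2 - γ := by rw [h4, hkk]; ring
      have h7 : l ≤ (N1 : ℝ) := by rw [hlN]; exact_mod_cast e01
      have h8 : l * (l - 1) ≤ N1 * (l - 1) := mul_le_mul_of_nonneg_right h7 (by linarith)
      nlinarith

end Pool.Agent.H63.PD
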