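import Pool.Agent.H63.PD.Low
import Pool.Agent.H63.PD.Sec
import Pool.Agent.H63.PD.Top
import Pool.Agent.H63.PD.Chb
import Pool.Agent.H63.PD.Rea
import Pool.Agent.H63.PD.Reb
import Pool.Agent.H63.PD.Rja
import Pool.Agent.H63.PD.Rjb
import Pool.Agent.H63.PD.Rjc

/-!
# ASM: the main theorem about `PD`
-/

open Set

namespace Pool.Agent.H63.PD

open Pool.Agent.H69.Pmd Pool.Agent.H63.PDR

set_option linter.unusedSectionVars false

variable {α : Type*} [Fintype α] {C : PD α}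

/-- the window inequality with `k1 < k0` -/
theorem window' {t : ℕ} (ht : t ≤ C.m + 2) (h0 : 0 < C.k0) :
    0 < (C.k0 - C.a t) * (C.k0 - C.a (t + 1)) + C.k0 := by
  have h1 := window (C := C) ht
  have h2 := k1_lt_k0 (C := C)
  nlinarith [mul_pos h0 (show 0 < C.k0 - C.k1 by linarith)]

theorem not_window (h5 : 5 ≤ C.a 2) {t : ℕ} (h1 : 1 ≤ t) (ht : t ≤ C.m + 2)
    (hlo : C.a t + 1 ≤ C.k0) : C.a (t + 1) - 2 < C.k0 := by
  by_contra hcon
  push Not at hcon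
  have h2 := C.a_pos h1 (by omega)
  have h3 := window' (C := C) ht (by linarith)
  have h4 := a_ge (C := C) (i := t) (by omega)
  have h6 : 2 * C.a t + 2 ≤ C.a (t + 1) := by nlinarith
  nlinarith [mul_nonneg (show 0 ≤ C.k0 - (C.a t + 1) by linarith)
    (show 0 ≤ C.a (t + 1) - 2 - C.k0 by linarith)]

/-- case `j = 2` -/
theorem case_two (h5 : 5 ≤ C.a 2) (hl : C.a 2 - 2 < C.k0) (hk : C.k0 < C.a 2 + 1) : False := by
  have hs1 := sec1 h5 hk
  have hs2 := sec2 h5 hk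
  have hw := window (C := C) (t := 1) (by omega)
  rw [C.a_one] at hw
  norm_num at hw
  have h3 := a_three (C := C)
  have hK0 := K_zero (C := C)
  have hK1 := K_mono (C := C) (i := 0) (j := 1) (by omega) (by omega)
  rw [hK0] at hK1
  have hkv := C.k_lt_v
  have ha4 := a_ge (C := C) (i := 3) (by omega)
  norm_num at ha4
  have hk4 : C.a 4 ≤ C.k := C.a_le (by omega) (by omega)
  have hμ : C.a 2 ^ 2 - C.a 2 + 1 ≤ C.a 3 := by rw [h3]; nlinarith
  have hμ21 : 21 ≤ C.a 3 := by nlinarith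
  have hk85 : (C.a 2 - 1) * C.a 3 + 1 ≤ C.k := by linarith
  have hlk : C.a 2 < C.k := by nlinarith
  have hr2 : C.rho 2 = (C.k - C.a 2) / (C.v - C.a 2) := rfl
  have hr3 : C.rho 3 = (C.k - C.a 3) / (C.v - C.a 3) := rfl
  have e1 := rb1 h5 hlk hkv
  have e2 := rb2 h5 hlk hkv
  have e3 := rb3 (v := C.v) h5 hμ hk85 hkv hk
  have hW1 : C.k ^ 2 / C.v * (C.a 2 - (C.k - 1) ^ 2 / (C.v - 1)) ≤ C.a 2 := by
    have : C.k0 * (C.a 2 - C.k1) ≤ C.a 2 := by linarith
    exact this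
  have e4 := rb4 h5 hμ hk85 hkv hk hl hW1
  have hx' : (C.k - 1) ^ 2 / (C.v - 1) < C.a 2 + 1 := (k1_lt_k0 (C := C)).trans hk
  rw [← hr2] at e1 e2 e3
  rw [← hr3] at e3
  have hI : (C.a 3 - 2) * ((C.k - 2) * C.rho 2 + 2 - C.a 2) ≤
      ((C.k - 2) * C.rho 2) * ((C.k - C.a 2) * C.rho 3) := hs1
  rcases lt_or_ge (C.a 3) (C.a 2 ^ 2) with hcase | hcase
  · -- projective planes
    obtain ⟨n, hn⟩ := K_nat (C := C) (i := 1) (by omega)
    obtain ⟨l, hl'⟩ := K_nat (C := C) (i := 0) (by omega)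
    rw [hK0] at hl'
    have hnl : n = l := by
      have h6 : (l : ℝ) ≤ n := by rw [← hl', ← hn]; exact hK1
      have h6' : l ≤ n := by exact_mod_cast h6
      have h7 : (n : ℝ) < l + 1 := by
        rw [← hl', ← hn]
        rw [h3] at hcase
        nlinarith
      have h7' : n < l + 1 := by exact_mod_cast h7
      omega
    have hμ' : C.a 3 = C.a 2 ^ 2 - C.a 2 + 1 := by
      rw [h3, hn, hnl, ← hl']; ring
    rcases lt_or_ge (C.a 2 * (C.a 2 - 2) / (C.a 2 - 1)) ((C.k - 1) ^ 2 / (C.v - 1)) with h | h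
    · exact rp1 h5 hμ' hk85 h hx' e1 e2 e3 hI
    · have hccaa : (C.k - C.a 2) * C.rho 3 ≤ (C.k - 2) * C.rho 2 := by
        refine e3.trans ?_
        have h8 : 0 ≤ (C.k - 2) * C.rho 2 := mul_nonneg (by linarith) (rho_pos (by omega)).le
        have h9 : 0 ≤ (C.a 3 - 7 / 2) / (C.k - 2) := div_nonneg (by linarith) (by linarith)
        nlinarith
      refine rp2 h5 hμ' ha4 hk4 e4 h (k1_lt_k0 (C := C)) e1 e2 hccaa ?_
      exact hs2
  · exact ra h5 hcase hk85 e4 hx' e1 e2 e3 hI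

/-- ratios of the sizes -/
theorem ratio_from {s : ℕ} (hs : 1 ≤ s)
    (hrat : ∀ i, 1 ≤ i → i ≤ C.m + 3 → C.a (i + 1) ^ 2 ≤ C.a i * C.a (i + 2)) :
    ∀ i, s ≤ i → i ≤ C.m + 4 → C.a (s + 1) * C.a i ≤ C.a s * C.a (i + 1) := by
  intro i h1
  have hpos : ∀ i, 1 ≤ i → i ≤ C.m + 5 → 0 < C.a i := fun i h1 h2 => by
    have := C.a_pos h1 h2; linarith
  induction i, h1 using Nat.le_induction with
  | base => intro _; linarith
  | succ i h1 ih =>
    intro h2
    have h3 := ih (by omega)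
    have h4 := hrat i (by omega) (by omega)
    have p1 := hpos i (by omega) (by omega)
    have p2 := hpos (i + 1) (by omega) (by omega)
    have p3 := hpos s (by omega) (by omega)
    have h6 : C.a i * (C.a (s + 1) * C.a (i + 1)) ≤ C.a i * (C.a s * C.a (i + 2)) := by
      nlinarith [mul_le_mul_of_nonneg_right h3 p2.le, mul_le_mul_of_nonneg_left h4 p3.le]
    exact le_of_mul_le_mul_left h6 p1

theorem two_mul_le (h5 : 5 ≤ C.a 2) : ∀ i : ℕ, 3 ≤ i → i ≤ C.m + 3 → 2 * (i : ℝ) ≤ C.a i := by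
  intro i h1
  induction i, h1 using Nat.le_induction with
  | base =>
    intro _
    have h8 := a_ge (C := C) (i := 2) (by omega)
    push_cast
    nlinarith
  | succ i h1 ih =>
    intro h2
    have h7 := ih (by omega)
    have h8 := a_ge (C := C) (i := i) (by omega)
    have h9 : (3 : ℝ) ≤ i := by exact_mod_cast h1
    push_cast
    nlinarith

theorem fin_eq {γ A μ σ Q : ℝ} (hγ : 0 < γ) (hA : A = Q * γ) (hQ : 0 < Q) :
    A ^ 2 / μ * (1 - γ / A * σ) = γ ^ 2 * (Q ^ 2 / μ * (1 - σ / Q)) := by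
  rw [hA]
  have h7 : γ / (Q * γ) = 1 / Q := by field_simp
  rw [h7]
  ring

/-- the generic final contradiction -/
theorem fin_gen {l μ ρ γ A k kv aa κs P : ℝ} {j : ℕ} (hj : 3 ≤ j) (h5 : 5 ≤ l)
    (hρ3 : l + 3 ≤ ρ) (hμρ : μ = l + (l - 1) * ρ) (hγμ : μ ≤ γ) (hγA : γ ≤ A) (hAk : A ≤ k)
    (hQ3 : (μ + ρ * (μ - l)) * γ ≤ μ * A) (hkA : A ^ 2 ≤ γ * k)
    (hkv0 : 0 ≤ kv) (hkv1 : kv < 1) (hkvle : kv ≤ (γ + 1) / k)
    (h2j : 2 * (j : ℝ) ≤ γ) (haa0 : 0 ≤ aa) (haa1 : aa < γ + 1)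
    (e2 : 1 - l / (μ - l - 5 / 4) - (l + 2) * kv ≤ 2 + aa - γ)
    (e5 : κs ≤ aa * (1 - (A - l) / k * (1 - kv)))
    (hprod : γ ^ (j - 2) * (A ^ 2 / μ * (1 - γ / A * (1 / 2 + l / (μ - l)))) ≤ P)
    (hstar : (2 + aa - γ) * P ≤ κs * aa ^ (j - 1)) : False := by
  have hl1 : 0 < l - 1 := by linarith
  have hμl : 6 * l ≤ μ := by rw [hμρ]; nlinarith
  have hμ0 : 0 < μ := by linarith
  have hγpos : 0 < γ := by linarith
  have hApos : 0 < A := by linarith
  have hkpos : 0 < k := by linarith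
  obtain ⟨Q, hQ⟩ : ∃ Q, Q = A / γ := ⟨_, rfl⟩
  have hAQ : A = Q * γ := by rw [hQ]; field_simp
  have hQpos : 0 < Q := by rw [hQ]; positivity
  have hQ3' : (μ + ρ * (μ - l)) ≤ μ * Q := by
    have h8 : (μ + ρ * (μ - l)) * γ ≤ μ * Q * γ := by
      rw [mul_assoc, ← hAQ]; exact hQ3
    exact le_of_mul_le_mul_right h8 hγpos
  have hQ' : ρ - 1 / (l - 1) ≤ Q := by
    have h7 : μ * (ρ - 1 / (l - 1)) ≤ μ * Q := by
      refine le_trans ?_ hQ3'
      have h8 : μ * (ρ - 1 / (l - 1)) = ρ * μ - (l / (l - 1) + ρ) := by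
        rw [hμρ]; field_simp
      rw [h8]
      have h9 : 0 ≤ l / (l - 1) := by positivity
      have h10 : ρ * l - μ ≤ ρ := by rw [hμρ]; nlinarith
      linarith
    exact le_of_mul_le_mul_left h7 hμ0
  have e3 := rj3 h5 hρ3 hQ'
  rw [← hμρ] at e3
  have hρl : (l - 1) * ρ = μ - l := by linarith
  rw [hρl] at e3
  have hq2 := fin_eq (μ := μ) (σ := 1 / 2 + l / (μ - l)) hγpos hAQ hQpos
  obtain ⟨δ, hδ⟩ : ∃ δ, δ = (1 / 2 + l / (μ - l)) / Q := ⟨_, rfl⟩
  obtain ⟨gl, hgl⟩ : ∃ gl, gl = 1 - l / (μ - l - 5 / 4) -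
      (l + 2) * (1 + 1 / μ) / Q ^ 2 := ⟨_, rfl⟩
  rw [← hδ] at e3 hq2
  have e3' : μ < gl * Q ^ 2 * (1 - δ) := by
    have : gl * Q ^ 2 = (1 - l / (μ - l - 5 / 4)) * Q ^ 2 -
        (l + 2) * (1 + 1 / μ) := by
      rw [hgl, sub_mul, div_mul_cancel₀ _ (by positivity)]
    rw [this]; exact e3
  have h54 : 0 < μ - l - 5 / 4 := by linarith
  have hml : 0 < μ - l := by linarith
  have hδ0 : 0 ≤ δ := by rw [hδ]; positivity
  have hgl1 : gl ≤ 1 := by
    have h7 : 0 ≤ l / (μ - l - 5 / 4) := by positivity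
    have h8 : 0 ≤ (l + 2) * (1 + 1 / μ) / Q ^ 2 := by positivity
    rw [hgl]; linarith
  have hl11 : 1 / (l - 1) ≤ 1 := by rw [div_le_one (by linarith)]; linarith
  have hδ1 : δ < 1 := by
    rw [hδ, div_lt_one hQpos]
    have h7 : l / (μ - l) ≤ 1 / 2 := by
      rw [div_le_iff₀ (by linarith)]; linarith
    linarith
  have hgl0 : 0 < gl := by
    by_contra hcon
    push Not at hcon
    have h7 : gl * Q ^ 2 * (1 - δ) ≤ 0 :=
      mul_nonpos_of_nonpos_of_nonneg (mul_nonpos_of_nonpos_of_nonneg hcon (by positivity))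
        (by linarith)
    linarith
  have hg : gl ≤ 2 + aa - γ := by
    refine le_trans ?_ e2
    rw [hgl]
    have h7 : kv ≤ (1 + 1 / μ) / Q ^ 2 := by
      refine hkvle.trans ?_
      rw [div_le_div_iff₀ hkpos (by positivity)]
      have h8 : Q ^ 2 * γ ≤ k := by
        have h9 : γ * (Q ^ 2 * γ) ≤ γ * k := by
          have : A ^ 2 = γ * (Q ^ 2 * γ) := by rw [hAQ]; ring
          rw [← this]; exact hkA
        exact le_of_mul_le_mul_left h9 hγpos
      have h10 : γ + 1 ≤ (1 + 1 / μ) * γ := by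
        have : 1 ≤ 1 / μ * γ := by
          rw [one_div, inv_mul_eq_div, le_div_iff₀ hμ0]; linarith
        linarith
      have h11 : 0 ≤ 1 + 1 / μ := by positivity
      calc (γ + 1) * Q ^ 2 ≤ (1 + 1 / μ) * γ * Q ^ 2 :=
            mul_le_mul_of_nonneg_right h10 (by positivity)
        _ = (1 + 1 / μ) * (Q ^ 2 * γ) := by ring
        _ ≤ (1 + 1 / μ) * k := mul_le_mul_of_nonneg_left h8 h11
    have h12 : (l + 2) * kv ≤ (l + 2) * ((1 + 1 / μ) / Q ^ 2) :=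
      mul_le_mul_of_nonneg_left h7 (by linarith)
    have h13 : (l + 2) * ((1 + 1 / μ) / Q ^ 2) = (l + 2) * (1 + 1 / μ) / Q ^ 2 := by ring
    linarith
  have hD0 : 0 ≤ Q ^ 2 / μ * (1 - δ) := mul_nonneg (by positivity) (by linarith)
  have hD1 : 1 < gl * (Q ^ 2 / μ * (1 - δ)) := by
    have h8 : gl * (Q ^ 2 / μ * (1 - δ)) = gl * Q ^ 2 * (1 - δ) / μ := by ring
    rw [h8, lt_div_iff₀ hμ0]; linarith
  have hγ2 : 0 < γ ^ 2 := by positivity
  have hmain : γ ^ 2 * (1 - 0) < gl * (A ^ 2 / μ * (1 - γ / A * (1 / 2 + l / (μ - l)))) := by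
    rw [hq2]
    have := mul_lt_mul_of_pos_left hD1 hγ2
    linarith
  have hD : γ ^ 2 ≤ A ^ 2 / μ * (1 - γ / A * (1 / 2 + l / (μ - l))) := by
    rw [hq2]
    have h9 : gl * (Q ^ 2 / μ * (1 - δ)) ≤ 1 * (Q ^ 2 / μ * (1 - δ)) :=
      mul_le_mul_of_nonneg_right hgl1 hD0
    have h10 : 1 ≤ Q ^ 2 / μ * (1 - δ) := by linarith
    have := mul_le_mul_of_nonneg_left h10 hγ2.le
    linarith
  have hκ : κs ≤ aa * (1 - 0) := by
    refine e5.trans ?_
    have h7 : 0 ≤ (A - l) / k * (1 - kv) :=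
      mul_nonneg (div_nonneg (by linarith) hkpos.le) (by linarith)
    exact mul_le_mul_of_nonneg_left (by linarith) haa0
  exact rj6 hj h2j haa0 haa1 hprod hgl0 hg le_rfl zero_le_one hκ hmain hD hstar

/-- the special final contradiction (`a 2 = 6`, `a 3 = 46`) -/
theorem fin_spe {γ A k kv aa κs P : ℝ} {j : ℕ} (hj : 3 ≤ j)
    (hγμ : 46 ≤ γ) (hγA : γ ≤ A) (hAk : A ≤ k)
    (hQ3 : (366 : ℝ) * γ ≤ 46 * A) (hkA : A ^ 2 ≤ γ * k)
    (hkv0 : 0 ≤ kv) (hkv1 : kv < 1) (hkvle : kv ≤ (γ + 1) / k)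
    (h2j : 2 * (j : ℝ) ≤ γ) (haa0 : 0 ≤ aa) (haa1 : aa < γ + 1)
    (e2 : 131 / 155 - 8 * kv ≤ 2 + aa - γ)
    (e5 : κs ≤ aa * (1 - (A - 6) / k * (1 - kv)))
    (hprod : γ ^ (j - 2) * (A ^ 2 / 46 * (1 - γ / A * (13 / 20))) ≤ P)
    (hstar : (2 + aa - γ) * P ≤ κs * aa ^ (j - 1)) : False := by
  have hγpos : 0 < γ := by linarith
  have hApos : 0 < A := by linarith
  have hkpos : 0 < k := by linarith
  obtain ⟨Q, hQ⟩ : ∃ Q, Q = A / γ := ⟨_, rfl⟩
  have hAQ : A = Q * γ := by rw [hQ]; field_simp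
  have hQpos : 0 < Q := by rw [hQ]; positivity
  have hQ' : 183 / 23 ≤ Q := by
    rw [hQ, le_div_iff₀ hγpos]; linarith
  have hq2 := fin_eq (μ := 46) (σ := 13 / 20) hγpos hAQ hQpos
  obtain ⟨x, hx⟩ : ∃ x, x = A / k := ⟨_, rfl⟩
  have hx0 : 0 ≤ x := by rw [hx]; positivity
  have hxQ : x * Q ≤ 1 := by
    rw [hx, hQ, div_mul_div_comm, div_le_one (by positivity), ← sq, mul_comm k]
    exact hkA
  have e4 := rj4 hQ' hx0 hxQ
  obtain ⟨y, hy⟩ : ∃ y, y = (A - 6) / k * (1 - kv) := ⟨_, rfl⟩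
  rw [← hy] at e5
  have hkvx : kv ≤ 47 / 46 * x / Q := by
    refine hkvle.trans ?_
    have h8 : 47 / 46 * x / Q = 47 / 46 * γ / k := by
      rw [hx, hQ]; field_simp
    rw [h8]
    exact div_le_div_of_nonneg_right (by linarith) hkpos.le
  have hA366 : 366 ≤ A := by linarith
  have hA6 : x * (60 / 61) ≤ (A - 6) / k := by
    rw [hx, div_mul_eq_mul_div]
    exact div_le_div_of_nonneg_right (by linarith) hkpos.le
  have h10 : 0 ≤ (A - 6) / k := div_nonneg (by linarith) hkpos.le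
  have hy0 : 0 ≤ y := by
    rw [hy]; exact mul_nonneg h10 (by linarith)
  have hy1 : y ≤ 1 := by
    rw [hy]
    have h8 : (A - 6) / k ≤ 1 := by rw [div_le_one hkpos]; linarith
    calc (A - 6) / k * (1 - kv) ≤ 1 * 1 := mul_le_mul h8 (by linarith) (by linarith) zero_le_one
      _ = 1 := one_mul 1
  have hx1 : x ≤ 1 := by rw [hx, div_le_one hkpos]; exact hAk
  have hxQ1 : 47 / 46 * x / Q ≤ 1 := by
    rw [div_le_one hQpos]; linarith
  have hyx : x * (60 / 61) * (1 - 47 / 46 * x / Q) ≤ y := by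
    rw [hy]
    exact mul_le_mul hA6 (by linarith) (by linarith) h10
  obtain ⟨gl, hgl⟩ : ∃ gl, gl = 131 / 155 - 8 * (47 / 46) * x / Q := ⟨_, rfl⟩
  rw [← hgl] at e4
  have hxQ' : x / Q ≤ 1 / 60 := by
    rw [div_le_iff₀ hQpos]
    have h11 : x * (183 / 23) ≤ x * Q := mul_le_mul_of_nonneg_left hQ' hx0
    linarith
  have h8' : 8 * (47 / 46) * x / Q = 8 * (47 / 46) * (x / Q) := by ring
  have hgl0 : 0 < gl := by rw [hgl, h8']; linarith
  have hgl1 : gl ≤ 1 := by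
    have : 0 ≤ x / Q := by positivity
    rw [hgl, h8']; linarith
  have hg : gl ≤ 2 + aa - γ := by
    refine le_trans ?_ e2
    have h8 : 8 * (47 / 46) * x / Q = 8 * (47 / 46 * x / Q) := by ring
    rw [hgl, h8]
    linarith
  have hQq : Q ^ 2 - 13 / 20 * Q = Q ^ 2 * (1 - 13 / 20 / Q) := by field_simp
  have h46 : 46 ≤ Q ^ 2 * (1 - 13 / 20 / Q) := by
    rw [← hQq]; nlinarith
  rw [hQq] at e4
  have hγ2 : 0 < γ ^ 2 := by positivity
  obtain ⟨W, hW⟩ : ∃ W, W = Q ^ 2 * (1 - 13 / 20 / Q) := ⟨_, rfl⟩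
  have hW' : Q ^ 2 / 46 * (1 - 13 / 20 / Q) = W / 46 := by rw [hW]; ring
  rw [← hW] at e4 h46
  rw [hW'] at hq2
  have hmain : γ ^ 2 * (1 - y) < gl * (A ^ 2 / 46 * (1 - γ / A * (13 / 20))) := by
    rw [hq2]
    have h8 : 46 * (1 - y) < gl * W := by
      refine lt_of_le_of_lt ?_ e4
      linarith
    have := mul_lt_mul_of_pos_left h8 hγ2
    linarith
  have hD : γ ^ 2 ≤ A ^ 2 / 46 * (1 - γ / A * (13 / 20)) := by
    rw [hq2]
    have := mul_le_mul_of_nonneg_left h46 hγ2.le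
    linarith
  exact rj6 hj h2j haa0 haa1 hprod hgl0 hg hy0 hy1 e5 hmain hD hstar

/-- case `3 ≤ j ≤ m + 2` -/
theorem case_mid (h5 : 5 ≤ C.a 2) {j : ℕ} (hj : 3 ≤ j) (hjm : j ≤ C.m + 2)
    (hK : C.a 2 + 4 ≤ C.K 1 ∨ (C.a 2 = 6 ∧ C.K 1 = 9))
    (hl : C.a j - 2 < C.k0) (hk : C.k0 < C.a j + 1) : False := by
  have hK3 : C.a 2 + 3 ≤ C.K 1 := by
    rcases hK with h | ⟨h, h'⟩
    · linarith
    · rw [h, h']; norm_num
  have hrat : ∀ i, 1 ≤ i → i ≤ C.m + 3 → C.a (i + 1) ^ 2 ≤ C.a i * C.a (i + 2) :=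
    fun i h1 h2 => ratio (by linarith) h1 h2
  have hpos : ∀ i, 1 ≤ i → i ≤ C.m + 5 → 0 < C.a i := fun i h1 h2 => by
    have := C.a_pos h1 h2; linarith
  have hr2 := ratio_from (C := C) (s := 2) (by omega) hrat
  have hr3 := ratio_from (C := C) (s := 3) (by omega) hrat
  have h3 := a_three (C := C)
  have hkv := C.k_lt_v
  have hK12 := K_mono (C := C) (i := 1) (j := 2) (by omega) (by omega)
  have hK2 := K_mul (C := C) (i := 2) (by omega)
  norm_num at hK2 hr2 hr3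
  obtain ⟨ρ, hρ⟩ : ∃ ρ, ρ = C.K 1 - 1 := ⟨_, rfl⟩
  have hμρ : C.a 3 = C.a 2 + (C.a 2 - 1) * ρ := by rw [h3, hρ]; ring
  have p2 := hpos 2 (by omega) (by omega)
  have p3 := hpos 3 (by omega) (by omega)
  have hμ : C.a 2 ^ 2 + 2 * C.a 2 - 2 ≤ C.a 3 := by
    have h7 : (C.a 2 - 1) * (C.a 2 + 3) ≤ (C.a 2 - 1) * C.K 1 :=
      mul_le_mul_of_nonneg_left hK3 (by linarith)
    rw [h3]; linarith
  have hμ6 : 6 * C.a 2 ≤ C.a 3 := by
    have : 5 * C.a 2 ≤ C.a 2 ^ 2 := by rw [sq]; exact mul_le_mul_of_nonneg_right h5 p2.le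
    linarith
  have h23 : C.a 2 < C.a 3 := C.a_lt (by omega) (by omega)
  have ha4 : C.a 3 + ρ * (C.a 3 - C.a 2) ≤ C.a 4 := by
    have : C.K 1 * (C.a 3 - C.a 2) ≤ C.K 2 * (C.a 3 - C.a 2) :=
      mul_le_mul_of_nonneg_right hK12 (by linarith)
    rw [hρ]; linarith
  have hA2 := hr2 j (by omega) (by omega)
  have h6 : 6 * C.a j ≤ C.a (j + 1) := by
    have h7 : 6 * C.a 2 * C.a j ≤ C.a 3 * C.a j :=
      mul_le_mul_of_nonneg_right hμ6 (hpos j (by omega) (by omega)).le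
    have : C.a 2 * (6 * C.a j) ≤ C.a 2 * C.a (j + 1) := by linarith
    exact le_of_mul_le_mul_left this p2
  have h6' : 6 * C.a (j + 1) ≤ C.a (j + 2) := by
    have h7 : 6 * C.a 2 * C.a (j + 1) ≤ C.a 3 * C.a (j + 1) :=
      mul_le_mul_of_nonneg_right hμ6 (hpos (j + 1) (by omega) (by omega)).le
    have h8 := hr2 (j + 1) (by omega) (by omega)
    have : C.a 2 * (6 * C.a (j + 1)) ≤ C.a 2 * C.a (j + 2) := by linarith
    exact le_of_mul_le_mul_left this p2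
  have hstar := chb h5 hj hjm hl hk h6 h6'
  have hprod := rja C.a (j := j) hj (fun i h1 h2 => hpos i h1 (by omega))
    (fun i h1 h2 => C.a_lt (by omega) (by omega)) (fun i h1 h2 => hrat i h1 (by omega))
  obtain ⟨j', rfl⟩ : ∃ j', j = j' + 1 := ⟨j - 1, by omega⟩
  have hw := window (C := C) (t := j') (by omega)
  have hβ : C.a 2 ≤ C.a j' := C.a_le (by omega) (by omega)
  have hβγ : C.a j' * C.a 3 ≤ C.a (j' + 1) * C.a 2 := by
    have := hr2 j' (by omega) (by omega); linarith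
  have hkj : C.a (j' + 1 + 2) ≤ C.k := C.a_le (by omega) (by omega)
  have hjj : C.a (j' + 1) < C.k := C.a_lt (by omega) (by omega)
  have hr2' : C.rho 2 = (C.k - C.a 2) / (C.v - C.a 2) := rfl
  have hrj : C.rho (j' + 1 + 1) = (C.k - C.a (j' + 1 + 1)) / (C.v - C.a (j' + 1 + 1)) := rfl
  have e2 := rj2 (v := C.v) h5 hμ hβ hβγ hjj hkv hl hw
  rw [← hr2'] at e2
  have hAk : C.a (j' + 1 + 1) ≤ C.k := C.a_le (by omega) (by omega)
  have hγl : C.a 2 ≤ C.a (j' + 1) := C.a_le (by omega) (by omega)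
  have hγμ : C.a 3 ≤ C.a (j' + 1) := C.a_le (by omega) (by omega)
  have hγA : C.a (j' + 1) ≤ C.a (j' + 1 + 1) := C.a_le (by omega) (by omega)
  have hlk : C.a 2 < C.k := by linarith
  have e5 := rj5 (v := C.v) h5 hγl hγA hAk hkv hlk
  rw [← hr2', ← hrj] at e5
  have hkA : C.a (j' + 1 + 1) ^ 2 ≤ C.a (j' + 1) * C.k :=
    (hrat (j' + 1) (by omega) (by omega)).trans
      (mul_le_mul_of_nonneg_left hkj (hpos (j' + 1) (by omega) (by omega)).le)
  have hQ3 : (C.a 3 + ρ * (C.a 3 - C.a 2)) * C.a (j' + 1) ≤ C.a 3 * C.a (j' + 1 + 1) :=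
    (mul_le_mul_of_nonneg_right ha4 (hpos (j' + 1) (by omega) (by omega)).le).trans
      (hr3 (j' + 1) (by omega) (by omega))
  have hkpos : 0 < C.k := by linarith
  have hvpos : 0 < C.v := by linarith
  have haa0 : 0 ≤ (C.k - 2) * C.rho 2 := mul_nonneg (by linarith) (rho_pos (by omega)).le
  have haa1 : (C.k - 2) * C.rho 2 < C.a (j' + 1) + 1 := by
    refine lt_of_le_of_lt ?_ hk
    rw [← rho_zero_mul]
    exact mul_le_mul (by linarith) (rho_anti (by omega) (by omega)) (rho_pos (by omega)).le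
      hkpos.le
  have hkv1 : C.k / C.v < 1 := by rw [div_lt_one hvpos]; exact hkv
  have hkvk : C.k / C.v = C.k0 / C.k := by rw [k0]; field_simp
  have h2j := two_mul_le (C := C) h5 (j' + 1) hj (by omega)
  have hkvle : C.k / C.v ≤ (C.a (j' + 1) + 1) / C.k := by
    rw [hkvk]; exact div_le_div_of_nonneg_right hk.le hkpos.le
  rcases hK with hK4 | ⟨hl6, hK9⟩
  · exact fin_gen hj h5 (by rw [hρ]; linarith) hμρ hγμ hγA hAk hQ3 hkA (by positivity) hkv1 hkvle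
      h2j haa0 haa1 e2 e5 hprod hstar
  · have hρ8 : ρ = 8 := by rw [hρ, hK9]; norm_num
    have hμ46 : C.a 3 = 46 := by rw [hμρ, hl6, hρ8]; norm_num
    rw [hμ46, hl6, hρ8] at hQ3
    rw [hμ46, hl6] at e2 hprod
    rw [hμ46] at hγμ
    rw [hl6] at e5
    norm_num at hQ3 e2 hprod
    refine fin_spe hj hγμ hγA hAk hQ3 hkA (by positivity) hkv1 hkvle
      h2j haa0 haa1 ?_ e5 ?_ hstar
    · linarith
    · exact hprod

/-- Main theorem. -/
theorem main (h5 : 5 ≤ C.a 2) (h : C.m = 0 ∨ C.k0 ≤ C.a 3 - 2 ∨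
    (C.a 3 ≠ C.a 2 ^ 2 - C.a 2 + 1 ∧ C.a 3 ≠ C.a 2 ^ 2)) : False := by
  have hlow := low (C := C) (by linarith)
  have h2 : C.a 2 - 2 < C.k0 := not_window h5 (le_refl 1) (by omega) (by rw [C.a_one]; linarith)
  -- the largest j with `a j - 2 < k0`
  obtain ⟨j, hj2, hjm, hjl, hjmax⟩ : ∃ j, 2 ≤ j ∧ j ≤ C.m + 3 ∧ C.a j - 2 < C.k0 ∧
      (j < C.m + 3 → C.k0 ≤ C.a (j + 1) - 2) := by
    by_contra hcon
    push Not at hcon
    have : ∀ j, 2 ≤ j → j ≤ C.m + 3 → C.a j - 2 < C.k0 := by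
      intro j hj
      induction j, hj using Nat.le_induction with
      | base => intro _; exact h2
      | succ j hj ih =>
        intro h3
        exact (hcon j hj (by omega) (ih (by omega))).2
    have h3 := hcon (C.m + 3) (by omega) le_rfl (this _ (by omega) le_rfl)
    omega
  have h3 := a_three (C := C)
  rcases hjm.eq_or_lt with hjtop | hjlt
  · -- j = m + 3
    rw [hjtop] at hjl
    apply top h5 hjl
    rcases h with h | h | h
    · exact Or.inr h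
    · exfalso
      have := C.a_le (show 3 ≤ C.m + 3 by omega) (by omega)
      linarith
    · left
      rcases K_one h5 with h' | h' | h' | ⟨h', h''⟩
      · exact absurd (by rw [h3, h']; ring) h.1
      · exact absurd (by rw [h3, h']; ring) h.2
      · linarith
      · rw [h', h'']; norm_num
  · have hk0 := hjmax hjlt
    have hk1 : C.k0 < C.a j + 1 := by
      by_contra hcon
      push Not at hcon
      have := not_window h5 (t := j) (by omega) (by omega) hcon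
      linarith
    rcases hj2.eq_or_lt with hj | hj
    · rw [← hj] at hjl hk1
      exact case_two h5 hjl hk1
    · refine case_mid h5 (j := j) (by omega) (by omega) ?_ hjl hk1
      rcases h with h | h | h
      · omega
      · exfalso
        have := C.a_le (show 3 ≤ j by omega) (by omega)
        linarith
      · rcases K_one h5 with h' | h' | h' | h'
        · exact absurd (by rw [h3, h']; ring) h.1
        · exact absurd (by rw [h3, h']; ring) h.2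
        · exact Or.inl h'
        · exact Or.inr h'

end Pool.Agent.H63.PD
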