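import Pool.Agent.H63.PD.Defs

/-!
# Basic facts about relative flats, sizes and averages (proved)
-/

open Set

namespace Pool.Agent.H63.PD

open Pool.Agent.H69.Pmd

set_option linter.unusedSectionVars false

variable {α : Type*} [Fintype α] (C : PD α)

theorem ground : C.M.E = univ := C.pmd.ground

theorem a_zero : C.a 0 = 0 := by simp [a]

theorem a_one : C.a 1 = 1 := by
  have := C.one
  simp only [a]
  rw [this]; push_cast; ring

theorem a_lt {i j : ℕ} (hij : i < j) (hj : j ≤ C.m + 5) : C.a i < C.a j := by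
  have h := C.pmd.lt (show C.τ + i < C.τ + j by omega) (by omega)
  have h' : (C.σ (C.τ + i) : ℝ) < C.σ (C.τ + j) := by exact_mod_cast h
  simp only [a]; linarith

theorem a_le {i j : ℕ} (hij : i ≤ j) (hj : j ≤ C.m + 5) : C.a i ≤ C.a j := by
  rcases hij.eq_or_lt with rfl | h
  · exact le_rfl
  · exact (C.a_lt h hj).le

theorem a_nonneg {i : ℕ} (hi : i ≤ C.m + 5) : 0 ≤ C.a i := by
  rw [← C.a_zero]; exact C.a_le (Nat.zero_le i) hi

theorem a_pos {i : ℕ} (h1 : 1 ≤ i) (hi : i ≤ C.m + 5) : 1 ≤ C.a i := by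
  rw [← C.a_one]; exact C.a_le h1 hi

/-- consecutive sizes differ by at least one -/
theorem a_succ_ge {i : ℕ} (hi : i + 1 ≤ C.m + 5) : C.a i + 1 ≤ C.a (i + 1) := by
  have h := C.pmd.lt (show C.τ + i < C.τ + (i + 1) by omega) (by omega)
  have h' : (C.σ (C.τ + i) : ℝ) + 1 ≤ C.σ (C.τ + (i + 1)) := by exact_mod_cast h
  simp only [a]; linarith

theorem k_lt_v : C.k < C.v := C.a_lt (by omega) le_rfl

theorem k_pos : 1 ≤ C.k := C.a_pos (by omega) (by omega)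

theorem v_pos : 1 ≤ C.v := C.a_pos (by omega) (by omega)

/-! ### relative flats -/

variable {C}

theorem isF_base : C.IsF 0 C.F₀ := ⟨C.flat0, by simpa using C.rk0, Subset.rfl⟩

theorem IsF.flat {i : ℕ} {F : Set α} (h : C.IsF i F) : C.M.IsFlat F := h.1

theorem IsF.rank {i : ℕ} {F : Set α} (h : C.IsF i F) : C.M.eRk F = ((C.τ + i : ℕ) : ℕ∞) := h.2.1

theorem IsF.base {i : ℕ} {F : Set α} (h : C.IsF i F) : C.F₀ ⊆ F := h.2.2

theorem IsF.ncard {i : ℕ} {F : Set α} (h : C.IsF i F) : (F.ncard : ℝ) = C.a i + C.σ C.τ := by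
  rw [C.pmd.size F _ h.1 h.2.1]; simp [a]

theorem isF_top : C.IsF (C.m + 5) (univ : Set α) :=
  ⟨C.ground ▸ C.M.ground_isFlat, by
    have := C.pmd.rank
    rw [this]; rfl, subset_univ _⟩

theorem subset_jn (F : Set α) (y : α) : insert y F ⊆ C.jn F y := subset_closure' C.ground _

theorem mem_jn (F : Set α) (y : α) : y ∈ C.jn F y := subset_jn F y (mem_insert _ _)

theorem sub_jn (F : Set α) (y : α) : F ⊆ C.jn F y := (subset_insert _ _).trans (subset_jn F y)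

theorem IsF.jn {i : ℕ} {F : Set α} (h : C.IsF i F) {y : α} (hy : y ∉ F) :
    C.IsF (i + 1) (C.jn F y) := by
  refine ⟨C.M.isFlat_closure _, ?_, h.base.trans (sub_jn F y)⟩
  rw [PD.jn, eRk_closure_insert C.ground h.1 hy, h.2.1]; push_cast; rfl

theorem jn_subset {i : ℕ} {F G : Set α} (hG : C.IsF i G) (hF : F ⊆ G) {y : α} (hy : y ∈ G) :
    C.jn F y ⊆ G := closure_subset_flat hG.1 (insert_subset hy hF)

/-- a flat of relative rank `i+1` containing `F` and `y ∉ F` is the join -/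
theorem IsF.eq_jn {i : ℕ} {F G : Set α} (hF : C.IsF i F) (hG : C.IsF (i + 1) G) (hFG : F ⊆ G)
    {y : α} (hyG : y ∈ G) (hy : y ∉ F) : C.jn F y = G := by
  apply eq_closure_insert C.ground hF.1 hG.1 hFG _ hyG hy
  rw [hG.2.1, hF.2.1]; push_cast; rfl

theorem IsF.eq_of_subset {i j : ℕ} {F G : Set α} (hF : C.IsF i F) (hG : C.IsF j G) (h : F ⊆ G)
    (hij : j ≤ i) : F = G := by
  apply flat_eq_of_subset hF.1 hG.1 h
  rw [hF.2.1, hG.2.1]
  exact_mod_cast (by omega : C.τ + j ≤ C.τ + i)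

theorem IsF.rank_le {i j : ℕ} {F G : Set α} (hF : C.IsF i F) (hG : C.IsF j G) (h : F ⊆ G) :
    i ≤ j := by
  have := C.M.eRk_mono h
  rw [hF.2.1, hG.2.1] at this
  have : C.τ + i ≤ C.τ + j := by exact_mod_cast this
  omega

/-- two flats of relative rank `i+1` containing `F` of relative rank `i` with a common point outside
`F` are equal -/
theorem IsF.inter_eq {i : ℕ} {F G G' : Set α} (hF : C.IsF i F) (hG : C.IsF (i + 1) G)
    (hG' : C.IsF (i + 1) G') (hFG : F ⊆ G) (hFG' : F ⊆ G') (hne : G ≠ G') : G ∩ G' = F := by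
  apply Subset.antisymm _ (subset_inter hFG hFG')
  rintro y ⟨h1, h2⟩
  by_contra hy
  exact hne ((hF.eq_jn hG hFG h1 hy).symm.trans (hF.eq_jn hG' hFG' h2 hy))

theorem IsF.exists_ge {i : ℕ} {F : Set α} (hF : C.IsF i F) {j : ℕ} (hij : i ≤ j)
    (hj : j ≤ C.m + 5) : ∃ G, C.IsF j G ∧ F ⊆ G := by
  obtain ⟨G, hG, hFG, hGr⟩ := exists_flat_ge C.ground C.pmd.rank (j - i) hF.1 hF.2.1 (by omega)
  exact ⟨G, ⟨hG, by rw [hGr]; congr 1; omega, hF.base.trans hFG⟩, hFG⟩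

/-! ### the numbers `b F` -/

theorem b_base : C.b C.F₀ = 0 := by
  have h1 : C.B ∩ C.F₀ = C.F₀ := inter_eq_right.2 C.sub0
  have h2 := (isF_base (C := C)).ncard
  rw [C.a_zero] at h2
  rw [b, h1, h2]; ring

theorem b_mono {F G : Set α} (h : F ⊆ G) : C.b F ≤ C.b G := by
  have := Set.ncard_le_ncard (inter_subset_inter_right C.B h) (Set.toFinite _)
  have h' : ((C.B ∩ F).ncard : ℝ) ≤ (C.B ∩ G).ncard := by exact_mod_cast this
  simp only [b]; linarith

theorem b_nonneg {F : Set α} (h : C.F₀ ⊆ F) : 0 ≤ C.b F := by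
  rw [← b_base (C := C)]; exact b_mono h

theorem IsF.b_nonneg {i : ℕ} {F : Set α} (h : C.IsF i F) : 0 ≤ C.b F := PD.b_nonneg h.base

theorem IsF.b_le {i : ℕ} {F : Set α} (h : C.IsF i F) : C.b F ≤ C.a i := by
  have h1 := Set.ncard_le_ncard (inter_subset_right (s := C.B) (t := F)) (Set.toFinite _)
  have h2 : ((C.B ∩ F).ncard : ℝ) ≤ F.ncard := by exact_mod_cast h1
  rw [h.ncard] at h2
  simp only [b]; linarith

/-- if `F` is not contained in `B` then `b F ≤ a i - 1` -/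
theorem IsF.b_le_sub {i : ℕ} {F : Set α} (h : C.IsF i F) (hF : ¬ F ⊆ C.B) :
    C.b F ≤ C.a i - 1 := by
  have h1 : (C.B ∩ F).ncard < F.ncard := by
    apply Set.ncard_lt_ncard _ (Set.toFinite _)
    exact ⟨inter_subset_right, fun h' => hF (h'.trans inter_subset_left)⟩
  have h2 : ((C.B ∩ F).ncard : ℝ) + 1 ≤ F.ncard := by exact_mod_cast h1
  rw [h.ncard] at h2
  simp only [b]; linarith

theorem IsF.b_eq {i : ℕ} {F : Set α} (h : C.IsF i F) (hF : F ⊆ C.B) : C.b F = C.a i := by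
  rw [b, inter_eq_right.2 hF, h.ncard]; ring

theorem IsF.subset_of_b_eq {i : ℕ} {F : Set α} (h : C.IsF i F) (hb : C.a i ≤ C.b F) : F ⊆ C.B := by
  by_contra hF
  have := h.b_le_sub hF
  linarith

/-- adding a point of `B` outside `F` increases `b` by at least one -/
theorem b_add_one_le {F G : Set α} (hFG : F ⊆ G) {y : α} (hyB : y ∈ C.B) (hyG : y ∈ G)
    (hy : y ∉ F) : C.b F + 1 ≤ C.b G := by
  have h1 : (C.B ∩ F).ncard < (C.B ∩ G).ncard := by
    apply Set.ncard_lt_ncard _ (Set.toFinite _)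
    exact ⟨inter_subset_inter_right _ hFG, fun h' => hy (h' ⟨hyB, hyG⟩).2⟩
  have h2 : ((C.B ∩ F).ncard : ℝ) + 1 ≤ (C.B ∩ G).ncard := by exact_mod_cast h1
  simp only [b]; linarith

/-- inclusion-exclusion -/
theorem b_union_le {F G G' J : Set α} (hG : G ⊆ J) (hG' : G' ⊆ J) (hF : G ∩ G' ⊆ F) :
    C.b G + C.b G' ≤ C.b J + C.b F := by
  have h2 := Set.ncard_union_add_ncard_inter (C.B ∩ G) (C.B ∩ G') (Set.toFinite _) (Set.toFinite _)
  have h3 := Set.ncard_le_ncard (union_subset (inter_subset_inter_right C.B hG)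
    (inter_subset_inter_right C.B hG')) (Set.toFinite _)
  have h4 : (C.B ∩ G) ∩ (C.B ∩ G') ⊆ C.B ∩ F := fun y hy => ⟨hy.1.1, hF ⟨hy.1.2, hy.2.2⟩⟩
  have h5 := Set.ncard_le_ncard h4 (Set.toFinite _)
  have h6 : ((C.B ∩ G).ncard : ℝ) + (C.B ∩ G').ncard ≤ (C.B ∩ J).ncard + (C.B ∩ F).ncard := by
    exact_mod_cast (by omega : (C.B ∩ G).ncard + (C.B ∩ G').ncard ≤
      (C.B ∩ J).ncard + (C.B ∩ F).ncard)
  simp only [b]; linarith

theorem mem_out {F : Set α} {y : α} : y ∈ C.out F ↔ y ∈ C.B ∧ y ∉ F := by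
  simp [out]

theorem card_out {F : Set α} : ((C.out F).card : ℝ) = C.k - C.b F := by
  have h1 : (C.out F).card = (C.B \ F).ncard := (Set.ncard_eq_toFinset_card _ _).symm
  have h2 := Set.ncard_inter_add_ncard_sdiff_eq_ncard C.B F (Set.toFinite _)
  have h3 : ((C.B ∩ F).ncard : ℝ) + (C.B \ F).ncard = C.σ (C.τ + C.m + 4) := by
    rw [← C.card]; exact_mod_cast h2
  rw [h1, k, a, b, show C.τ + (C.m + 4) = C.τ + C.m + 4 by omega]
  linarith

theorem b_lt_k {i : ℕ} {F : Set α} (h : C.IsF i F) (hi : i ≤ C.m + 4) : C.b F + 1 ≤ C.k := by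
  obtain ⟨H, hH, hFH⟩ := h.exists_ge hi (by omega)
  have h1 : ¬ C.B ⊆ H := C.span H hH.1 (by rw [hH.2.1]; congr 1)
  obtain ⟨y, hyB, hyH⟩ := not_subset.1 h1
  have h2 : 0 < (C.out F).card := Finset.card_pos.2 ⟨y, mem_out.2 ⟨hyB, fun h' => hyH (hFH h')⟩⟩
  have h3 : (1 : ℝ) ≤ (C.out F).card := by exact_mod_cast h2
  rw [card_out] at h3; linarith

theorem out_nonempty {i : ℕ} {F : Set α} (h : C.IsF i F) (hi : i ≤ C.m + 4) :
    (C.out F).Nonempty := by
  rw [← Finset.card_pos]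
  have h1 := b_lt_k h hi
  have h2 := card_out (C := C) (F := F)
  have h3 : (0 : ℝ) < (C.out F).card := by rw [h2]; linarith
  exact_mod_cast h3

/-! ### hyperplanes -/

theorem mem_above' {F H : Set α} (hF : C.F₀ ⊆ F) :
    H ∈ above C.M F (C.τ + C.m + 4) ↔ C.IsF (C.m + 4) H ∧ F ⊆ H := by
  rw [mem_above, IsF]
  constructor
  · rintro ⟨h1, h2, h3⟩
    exact ⟨⟨h1, h2, hF.trans h3⟩, h3⟩
  · rintro ⟨⟨h1, h2, _⟩, h3⟩
    exact ⟨h1, h2, h3⟩

/-- the possible values of `b H` -/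
theorem exists_val {H : Set α} (hH : C.IsF (C.m + 4) H) : ∃ i ≤ C.m + 3, C.b H = C.a i := by
  obtain ⟨i, hi, hc⟩ := C.bad H hH.1 (by rw [hH.2.1]; congr 1)
  have h0 := hH.b_nonneg
  have hτ : C.τ ≤ i := by
    by_contra hlt
    have h1 := C.pmd.lt (show i < C.τ by omega) (by omega)
    have h2 : (C.σ i : ℝ) < C.σ C.τ := by exact_mod_cast h1
    rw [b, hc] at h0
    linarith
  refine ⟨i - C.τ, by omega, ?_⟩
  rw [b, a, hc, show C.τ + (i - C.τ) = i by omega]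

theorem b_hyp_le {H : Set α} (hH : C.IsF (C.m + 4) H) : C.b H ≤ C.a (C.m + 3) := by
  obtain ⟨i, hi, h⟩ := exists_val hH
  rw [h]; exact C.a_le hi (by omega)

theorem val_ge {H : Set α} (hH : C.IsF (C.m + 4) H) {t : ℕ} (ht : t ≤ C.m + 2)
    (h : C.a t < C.b H) : C.a (t + 1) ≤ C.b H := by
  obtain ⟨i, hi, h'⟩ := exists_val hH
  rw [h'] at h ⊢
  apply C.a_le _ (by omega)
  by_contra hlt
  have := C.a_le (show i ≤ t by omega) (by omega)
  linarith

theorem prod_nonneg {H : Set α} (hH : C.IsF (C.m + 4) H) {t : ℕ} (ht : t + 1 ≤ C.m + 3) :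
    0 ≤ (C.b H - C.a t) * (C.b H - C.a (t + 1)) := by
  have h1 := C.a_lt (show t < t + 1 by omega) (by omega)
  rcases lt_or_ge (C.a t) (C.b H) with h | h
  · have h2 := val_ge hH (by omega) h
    exact mul_nonneg (by linarith) (by linarith)
  · exact mul_nonneg_of_nonpos_of_nonpos (by linarith) (by linarith)

/-! ### averages -/

theorem above_pos {i : ℕ} {F : Set α} (hF : C.IsF i F) (hi : i ≤ C.m + 4) :
    0 < ((above C.M F (C.τ + C.m + 4)).card : ℝ) := by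
  obtain ⟨H, hH, hFH⟩ := hF.exists_ge hi (by omega)
  have : (above C.M F (C.τ + C.m + 4)).Nonempty := ⟨H, (mem_above' hF.base).2 ⟨hH, hFH⟩⟩
  exact_mod_cast Finset.card_pos.2 this

theorem E_const {i : ℕ} {F : Set α} (hF : C.IsF i F) (hi : i ≤ C.m + 4) (c : ℝ) :
    C.E F (fun _ => c) = c := by
  rw [E, Finset.sum_const, nsmul_eq_mul, mul_comm, mul_div_assoc, div_self (above_pos hF hi).ne',
    mul_one]

theorem E_add (F : Set α) (g h : ℝ → ℝ) :
    C.E F (fun x => g x + h x) = C.E F g + C.E F h := by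
  rw [E, E, E, Finset.sum_add_distrib, add_div]

theorem E_sub (F : Set α) (g h : ℝ → ℝ) :
    C.E F (fun x => g x - h x) = C.E F g - C.E F h := by
  rw [E, E, E, Finset.sum_sub_distrib, sub_div]

theorem E_mul (F : Set α) (c : ℝ) (g : ℝ → ℝ) :
    C.E F (fun x => c * g x) = c * C.E F g := by
  rw [E, E, ← Finset.mul_sum, mul_div_assoc]

theorem E_mono {F : Set α} (hF : C.F₀ ⊆ F) {g h : ℝ → ℝ}
    (hgh : ∀ H, C.IsF (C.m + 4) H → F ⊆ H → g (C.b H) ≤ h (C.b H)) : C.E F g ≤ C.E F h := by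
  rw [E, E]
  apply div_le_div_of_nonneg_right _ (Nat.cast_nonneg _)
  apply Finset.sum_le_sum
  intro H hH
  obtain ⟨h1, h2⟩ := (mem_above' hF).1 hH
  exact hgh H h1 h2

theorem E_nonneg {F : Set α} (hF : C.F₀ ⊆ F) {g : ℝ → ℝ}
    (hg : ∀ H, C.IsF (C.m + 4) H → F ⊆ H → 0 ≤ g (C.b H)) : 0 ≤ C.E F g := by
  rw [E]
  apply div_nonneg _ (Nat.cast_nonneg _)
  apply Finset.sum_nonneg
  intro H hH
  obtain ⟨h1, h2⟩ := (mem_above' hF).1 hH
  exact hg H h1 h2

theorem E_congr {F : Set α} (hF : C.F₀ ⊆ F) {g h : ℝ → ℝ}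
    (hgh : ∀ H, C.IsF (C.m + 4) H → F ⊆ H → g (C.b H) = h (C.b H)) : C.E F g = C.E F h := by
  apply le_antisymm
  · exact E_mono hF fun H h1 h2 => (hgh H h1 h2).le
  · exact E_mono hF fun H h1 h2 => (hgh H h1 h2).ge

end Pool.Agent.H63.PD
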