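import Pool.Agent.H63.PD.Ngd

/-!
# CHA: flats of relative rank `j` have at most `a j / 2` points of `B`

Write `γ = a j`, `A = a (j+1)`, `γ - 2 < k0 < γ + 1`, `A ≥ 6 γ`, `a (j+2) ≥ 6 A`, so `k ≥ 36 γ`; `γ ≥ a 3 ≥ 21`.
Proof.  Let `F` have relative rank `j` and suppose `b = b F > γ/2`; `b ≤ γ`.  Put `κ = (k - b) rho j`.
By NGD (`ngd`, `i = j`) all flats `G = jn F y` (`y ∈ out F`) have `b G ≤ γ`, so
`mu (j+1) G - γ = b G - γ + (k - b G) rho (j+1) ≤ (k - γ) rho (j+1) ≤ k0` (`rho ≤ 1`,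
`rho_anti`, `k0 = k rho 0`).  `exists_growth` (`i = t = j`) gives
`(A - b)(b + κ - γ) ≤ κ k0 ≤ k0² < (γ+1)²` (`kap_le`; `b + κ = mu j F`).
Lower bound for `κ`: `κ ≥ (k-γ)²/(v-γ) ≥ (k-γ)²/v ≥ k²/v - 2 γ k/v = k0 - 2 γ k0/k ≥ k0 - (γ+1)/18 · (…)`:
precisely `2γ k0 / k ≤ 2 γ (γ+1)/(36 γ) = (γ+1)/18`.  So `b + κ - γ ≥ b - 2 - (γ+1)/18 > γ/2 - 2 - (γ+1)/18 > 0`
and `A - b ≥ 5 γ`.  Thus `5 γ (γ/2 - 2 - (γ+1)/18) < (γ+1)²`.  For `γ ≥ 21` this is false:
`5γ(γ/2 - 2 - (γ+1)/18) = (20/9) γ² - (10 + 5/18) γ`, and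
`(11/9) γ² - (12 + 5/18) γ - 1 > 0` for `γ ≥ 21` (`(11/9)·21 = 25.7`).
(`γ ≥ 21`: `a 3 ≥ (a 2 - 1) a 2 + 1 ≥ 21` by `a_ge`.)
-/

open Set

namespace Pool.Agent.H63.PD

open Pool.Agent.H69.Pmd

set_option linter.unusedSectionVars false

variable {α : Type*} [Fintype α] {C : PD α}

theorem cha (h5 : 5 ≤ C.a 2) {j : ℕ} (hj : 3 ≤ j) (hjm : j ≤ C.m + 2) (hl : C.a j - 2 < C.k0)
    (hk : C.k0 < C.a j + 1) (h6 : 6 * C.a j ≤ C.a (j + 1)) (h6' : 6 * C.a (j + 1) ≤ C.a (j + 2))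
    {F : Set α} (hF : C.IsF j F) : C.b F ≤ C.a j / 2 := by
  by_contra hcon
  push Not at hcon
  have hg21 : 21 ≤ C.a j := by
    have h1 := a_ge (C := C) (i := 2) (by omega)
    have h2 := C.a_le hj (by omega)
    rw [show 2 + 1 = 3 from rfl] at h1
    nlinarith
  have hb := hF.b_le
  obtain ⟨y, hy, hgr⟩ := exists_growth (C := C) (i := j) (t := j) hjm hF hjm
  obtain ⟨hyB, hyF⟩ := mem_out.1 hy
  have hG := hF.jn hyF
  have hbG := ngd h5 (show 2 ≤ j by omega) hk le_rfl (by omega) hG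
  have hr1 := rho_lt_one (C := C) (i := j + 1) (by omega)
  have hr0 := rho_pos (C := C) (i := j + 1) (by omega)
  have hra := rho_anti (C := C) (i := 0) (j := j + 1) (Nat.zero_le _) (by omega)
  have hk0 := rho_zero_mul (C := C)
  have hkk : 36 * C.a j ≤ C.k := by
    have h1 : C.a (j + 2) ≤ C.k := C.a_le (by omega) (by omega)
    linarith
  have hμ : C.mu (j + 1) (C.jn F y) - C.a j ≤ C.k0 := by
    have e : C.mu (j + 1) (C.jn F y) =
        C.b (C.jn F y) + (C.k - C.b (C.jn F y)) * C.rho (j + 1) := rfl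
    have h1 : (C.k - C.a j) * C.rho (j + 1) ≤ C.k * C.rho 0 :=
      mul_le_mul (by linarith) hra hr0.le (by linarith)
    have h2 : 0 ≤ (C.a j - C.b (C.jn F y)) * (1 - C.rho (j + 1)) :=
      mul_nonneg (by linarith) (by linarith)
    rw [e]
    nlinarith
  have hκ0 := kap_nonneg (C := C) (i := j) (by omega) hF
  have hκ1 := kap_le (C := C) (i := j) (by omega) hF
  have eμ : C.mu j F = C.b F + (C.k - C.b F) * C.rho j := rfl
  have hv : C.k < C.v := C.k_lt_v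
  have hv0 : 0 < C.v := by linarith
  have hκlow : C.k0 - (C.a j + 1) / 18 ≤ (C.k - C.b F) * C.rho j := by
    have e0 : C.k0 * C.v = C.k ^ 2 := by
      rw [k0, div_mul_cancel₀ _ hv0.ne']
    have h1 : (C.k - C.a j) / C.v ≤ C.rho j := by
      rw [rho]
      exact div_le_div_of_nonneg_left (by linarith) (by linarith) (by linarith)
    have h2 : (C.k - C.a j) * ((C.k - C.a j) / C.v) ≤ (C.k - C.b F) * C.rho j := by
      apply mul_le_mul (by linarith) h1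
      · exact div_nonneg (by linarith) hv0.le
      · linarith
    have h3 : C.k ^ 2 < (C.a j + 1) * C.v := by
      rw [← e0]
      exact mul_lt_mul_of_pos_right hk hv0
    have h4 : C.k0 - (C.a j + 1) / 18 ≤ (C.k - C.a j) * ((C.k - C.a j) / C.v) := by
      rw [← mul_div_assoc, le_div_iff₀ hv0]
      nlinarith
    linarith
  set κ := (C.k - C.b F) * C.rho j with hκ
  have h7 : (C.a (j + 1) - C.b F) * (C.b F + κ - C.a j) ≤ (C.a j + 1) * (C.a j + 1) := by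
    rw [eμ] at hgr
    refine hgr.trans ?_
    calc κ * (C.mu (j + 1) (C.jn F y) - C.a j) ≤ κ * C.k0 :=
          mul_le_mul_of_nonneg_left hμ hκ0
      _ ≤ (C.a j + 1) * (C.a j + 1) :=
          mul_le_mul (by linarith) hk.le (by linarith) (by linarith)
  have h8 : 5 * C.a j * (C.a j / 2 - 2 - (C.a j + 1) / 18) ≤
      (C.a (j + 1) - C.b F) * (C.b F + κ - C.a j) := by
    apply mul_le_mul
    · linarith
    · linarith
    · linarith
    · linarith
  nlinarith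

end Pool.Agent.H63.PD
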