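import Mathlib
import Pool.Agent.H69.PmdBound

/-!
# A set that can be added to the hyperplane family of a perfect matroid design: definitions

Everything is relative to a flat `F₀ ⊆ B` of rank `τ` such that `σ (τ+1) = σ τ + 1` (that is, we work
in the contraction of `F₀`, without contracting).  The matroid has rank `τ + m + 5`; flats of
'relative rank' `i` are the flats of rank `τ + i` which contain `F₀`; their 'relative size' is
`a i = σ (τ+i) - σ τ` and `b F = |B ∩ F| - σ τ`.  `k = a (m+4)` is the size of a hyperplane and of `B`,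
`v = a (m+5)`.  `bad` says that `B` can be added to the hyperplane family.
-/

open Set

namespace Pool.Agent.H63

open Pool.Agent.H69.Pmd

/-- The data. -/
structure PD (α : Type*) [Fintype α] where
  /-- the matroid -/
  M : Matroid α
  /-- the sizes -/
  σ : ℕ → ℕ
  /-- rank of the base flat -/
  τ : ℕ
  /-- rank of the matroid is `τ + m + 5` -/
  m : ℕ
  /-- the base flat -/
  F₀ : Set α
  /-- the set -/
  B : Set α
  pmd : IsPmd M (τ + m + 5) σ
  flat0 : M.IsFlat F₀
  rk0 : M.eRk F₀ = (τ : ℕ∞)
  sub0 : F₀ ⊆ B
  one : σ (τ + 1) = σ τ + 1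
  card : B.ncard = σ (τ + m + 4)
  span : ∀ H : Set α, M.IsFlat H → M.eRk H = ((τ + m + 4 : ℕ) : ℕ∞) → ¬ B ⊆ H
  bad : ∀ H : Set α, M.IsFlat H → M.eRk H = ((τ + m + 4 : ℕ) : ℕ∞) →
    ∃ i ≤ τ + m + 3, (B ∩ H).ncard = σ i

namespace PD

variable {α : Type*} [Fintype α] (C : PD α)

/-- relative sizes -/
noncomputable def a (i : ℕ) : ℝ := (C.σ (C.τ + i) : ℝ) - C.σ C.τ

/-- relative size of a hyperplane -/
noncomputable def k : ℝ := C.a (C.m + 4)

/-- relative number of points -/
noncomputable def v : ℝ := C.a (C.m + 5)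

/-- relative number of points of `B` in `F` -/
noncomputable def b (F : Set α) : ℝ := ((C.B ∩ F).ncard : ℝ) - C.σ C.τ

/-- `rho i` is the probability that a random hyperplane containing a flat of relative rank `i`
contains a given point outside it. -/
noncomputable def rho (i : ℕ) : ℝ := (C.k - C.a i) / (C.v - C.a i)

/-- flats of relative rank `i` -/
def IsF (i : ℕ) (F : Set α) : Prop :=
  C.M.IsFlat F ∧ C.M.eRk F = ((C.τ + i : ℕ) : ℕ∞) ∧ C.F₀ ⊆ F

/-- the flat spanned by `F` and `y` -/
def jn (F : Set α) (y : α) : Set α := C.M.closure (insert y F)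

/-- the points of `B` outside `F` -/
noncomputable def out (F : Set α) : Finset α := (Set.toFinite (C.B \ F)).toFinset

/-- average of `g (b H)` over the hyperplanes `H` containing `F` -/
noncomputable def E (F : Set α) (g : ℝ → ℝ) : ℝ :=
  (∑ H ∈ above C.M F (C.τ + C.m + 4), g (C.b H)) / ((above C.M F (C.τ + C.m + 4)).card : ℝ)

/-- number of flats of relative rank `i+1` between a flat of relative rank `i` and one of relative
rank `i+2` -/
noncomputable def K (i : ℕ) : ℝ := (C.a (i + 2) - C.a i) / (C.a (i + 1) - C.a i)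

/-- mean of `b H` over the hyperplanes `H` containing the flat `F` of relative rank `i` (`i ≤ m+3`) -/
noncomputable def mu (i : ℕ) (F : Set α) : ℝ := C.b F + (C.k - C.b F) * C.rho i

/-- mean of `b H` over all hyperplanes containing `F₀` -/
noncomputable def k0 : ℝ := C.k ^ 2 / C.v

/-- `k1 + 1` is the mean of `b H` over all hyperplanes containing `F₀` and a point of `B` -/
noncomputable def k1 : ℝ := (C.k - 1) ^ 2 / (C.v - 1)

end PD

end Pool.Agent.H63
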