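import Pool.Agent.H63.PD.Bas

/-!
# The averaging identity
-/

open Set

namespace Pool.Agent.H63.PD

open Pool.Agent.H69.Pmd

set_option linter.unusedSectionVars false

variable {α : Type*} [Fintype α] {C : PD α}

theorem card_above {i : ℕ} (hi : i ≤ C.m + 4) : ∃ P : ℕ, 0 < P ∧
    ∀ F, C.IsF i F → (above C.M F (C.τ + C.m + 4)).card = P := by
  obtain ⟨P, hP, h⟩ := C.pmd.exists_above (j := C.τ + C.m + 4) (by omega) (C.m + 4 - i) (C.τ + i)
    (by omega)
  exact ⟨P, hP, fun F hF => h F hF.1 hF.2.1⟩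

theorem card_above_mul {i : ℕ} {P Q : ℕ} (hi : i ≤ C.m + 3)
    (hP : ∀ F, C.IsF i F → (above C.M F (C.τ + C.m + 4)).card = P)
    (hQ : ∀ F, C.IsF (i + 1) F → (above C.M F (C.τ + C.m + 4)).card = Q) :
    (P : ℝ) * (C.k - C.a i) = (C.v - C.a i) * Q := by
  classical
  obtain ⟨F, hF, _⟩ := (isF_base (C := C)).exists_ge (Nat.zero_le i) (by omega)
  have e2 := sum_above (M := C.M) (F := F) (i := C.τ + i) (j := C.τ + C.m + 4) (P := Q)
    C.ground hF.1 hF.2.1 (by
      intro G hG hGr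
      -- need: G contains F₀? use uniformity instead
      obtain ⟨P', _, h⟩ := C.pmd.exists_above (j := C.τ + C.m + 4) (by omega)
        (C.m + 4 - (i + 1)) (C.τ + (i + 1)) (by omega)
      obtain ⟨G', hG', _⟩ := (isF_base (C := C)).exists_ge (Nat.zero_le (i + 1)) (by omega)
      rw [h G hG hGr, ← h G' hG'.1 hG'.2.1, hQ G' hG']) univ
  have e5 : ∀ H ∈ above C.M F (C.τ + C.m + 4),
      ((((univ : Set α) ∩ (H \ F)).ncard : ℕ) : ℝ) = C.k - C.a i := by
    intro H hH
    obtain ⟨h1, h2⟩ := (mem_above' hF.base).1 hH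
    have := ncard_inter_diff (B := univ) h2
    rw [univ_inter, univ_inter, univ_inter] at this
    have h3 : (((H \ F).ncard : ℕ) : ℝ) + F.ncard = H.ncard := by exact_mod_cast this
    rw [univ_inter]
    rw [h1.ncard, hF.ncard] at h3
    rw [k]; linarith
  have e6 : ((((univ : Set α) ∩ (univ \ F)).ncard : ℕ) : ℝ) = C.v - C.a i := by
    have := ncard_inter_diff (B := univ) (subset_univ F)
    rw [univ_inter, univ_inter, univ_inter] at this
    have h3 : (((univ \ F).ncard : ℕ) : ℝ) + F.ncard = (univ : Set α).ncard := by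
      exact_mod_cast this
    rw [univ_inter]
    rw [isF_top.ncard, hF.ncard] at h3
    rw [v]; linarith
  have e7 : (∑ H ∈ above C.M F (C.τ + C.m + 4), ((((univ : Set α) ∩ (H \ F)).ncard : ℕ) : ℝ)) =
      ((((univ : Set α) ∩ (univ \ F)).ncard : ℕ) : ℝ) * Q := by exact_mod_cast e2
  rw [Finset.sum_congr rfl e5, Finset.sum_const, nsmul_eq_mul, hP F hF, e6] at e7
  exact e7

/-- Double counting of pairs (point of `B` outside `F`, hyperplane containing both), weighted. -/
theorem sum_swap {F : Set α} {i : ℕ} (hF : C.IsF i F) (w : Set α → ℝ) :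
    ∑ H ∈ above C.M F (C.τ + C.m + 4), (C.b H - C.b F) * w H =
      ∑ y ∈ C.out F, ∑ H ∈ above C.M (C.jn F y) (C.τ + C.m + 4), w H := by
  classical
  have h1 : ∀ H ∈ above C.M F (C.τ + C.m + 4), (C.b H - C.b F) * w H =
      ∑ y ∈ C.out F, if y ∈ H then w H else 0 := by
    intro H hH
    obtain ⟨a1, a2⟩ := (mem_above' hF.base).1 hH
    rw [← Finset.sum_filter, Finset.sum_const, nsmul_eq_mul]
    congr 1
    have h2 : (C.out F).filter (fun y => y ∈ H) = (C.B ∩ (H \ F)).toFinset := by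
      ext y
      simp only [Finset.mem_filter, mem_out, Set.mem_toFinset, mem_inter_iff, mem_sdiff]
      tauto
    rw [h2, ← Set.ncard_eq_toFinset_card']
    have h3 := ncard_inter_diff (B := C.B) a2
    have h4 : (((C.B ∩ (H \ F)).ncard : ℕ) : ℝ) + (C.B ∩ F).ncard = (C.B ∩ H).ncard := by
      exact_mod_cast h3
    rw [b, b]; linarith
  rw [Finset.sum_congr rfl h1, Finset.sum_comm]
  apply Finset.sum_congr rfl
  intro y hy
  obtain ⟨hyB, hyF⟩ := mem_out.1 hy
  rw [← Finset.sum_filter]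
  apply Finset.sum_congr _ fun _ _ => rfl
  ext H
  simp only [Finset.mem_filter, mem_above]
  constructor
  · rintro ⟨⟨a1, a2, a3⟩, a4⟩
    exact ⟨a1, a2, closure_subset_flat a1 (insert_subset a4 a3)⟩
  · rintro ⟨a1, a2, a3⟩
    exact ⟨⟨a1, a2, (sub_jn F y).trans a3⟩, a3 (mem_jn F y)⟩

/-- The averaging identity. -/
theorem E_key {F : Set α} {i : ℕ} (hi : i ≤ C.m + 3) (hF : C.IsF i F) (g : ℝ → ℝ) :
    C.E F (fun x => (x - C.b F) * g x) = C.rho i * ∑ y ∈ C.out F, C.E (C.jn F y) g := by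
  obtain ⟨P, hP0, hP⟩ := card_above (C := C) (i := i) (by omega)
  obtain ⟨Q, hQ0, hQ⟩ := card_above (C := C) (i := i + 1) (by omega)
  have h1 := card_above_mul hi hP hQ
  have hva : 0 < C.v - C.a i := sub_pos.2 (C.a_lt (show i < C.m + 5 by omega) le_rfl)
  have hP0' : (0 : ℝ) < P := by exact_mod_cast hP0
  have hQ0' : (0 : ℝ) < Q := by exact_mod_cast hQ0
  have h2 : ∀ y ∈ C.out F, C.E (C.jn F y) g =
      (∑ H ∈ above C.M (C.jn F y) (C.τ + C.m + 4), g (C.b H)) / Q := by
    intro y hy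
    rw [E, hQ _ (hF.jn (mem_out.1 hy).2)]
  rw [Finset.sum_congr rfl h2, ← Finset.sum_div, ← sum_swap hF (fun H => g (C.b H)), E, hP F hF,
    rho]
  rw [div_eq_iff hP0'.ne', ← mul_div_assoc, div_mul_eq_mul_div, div_mul_eq_mul_div,
    div_mul_eq_mul_div, eq_div_iff hQ0'.ne', eq_comm, div_eq_iff hva.ne']
  linear_combination (∑ H ∈ above C.M F (C.τ + C.m + 4), (C.b H - C.b F) * g (C.b H)) * h1

/-- The mean of `b H` over the hyperplanes `H` containing `F`. -/
theorem E_id {F : Set α} {i : ℕ} (hi : i ≤ C.m + 3) (hF : C.IsF i F) :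
    C.E F (fun x => x) = C.b F + (C.k - C.b F) * C.rho i := by
  have h1 := E_key hi hF (fun _ => 1)
  have h2 : ∀ y ∈ C.out F, C.E (C.jn F y) (fun _ => (1 : ℝ)) = 1 := by
    intro y hy
    exact E_const (hF.jn (mem_out.1 hy).2) (by omega) 1
  rw [Finset.sum_congr rfl h2, Finset.sum_const, nsmul_eq_mul, mul_one, card_out] at h1
  have h3 : C.E F (fun x => (x - C.b F) * 1) = C.E F (fun x => x) - C.b F := by
    simp only [mul_one]
    rw [E_sub F (fun x => x) (fun _ => C.b F), E_const hF (by omega)]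
  rw [h3] at h1
  linarith

end Pool.Agent.H63.PD
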