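import Pool.Agent.H63.PD.Siz

/-!
# FUL: no flat of relative rank between `j` and `m+3` is contained in `B`

Proof.  Suppose there is a flat `F ⊆ B` of relative rank `i`, `j ≤ i ≤ m+3`, and take `i` maximal
(descending induction: prove 'no flat of relative rank `i` is contained in `B`' for `i = m+3`,
then for `i ≤ m+2` assuming it for `i+1`).
* `i = m+3`: take `y ∈ out F`; the hyperplane `H = jn F y` has `b H ≥ b F + 1 = a (m+3) + 1`
  (`IsF.b_eq`, `b_add_one_le`), contradiction with `b_hyp_le`.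
* `i ≤ m+2`: (1) for `y ∈ out F` and `G = jn F y` (relative rank `i+1 ≤ m+3`) we have
  `a i < b G`, so `a (i+1) ≤ mu (i+1) G ≤ b G + k0` (`mu_ge_of_lt`, `kap_le`), i.e.
  `a (i+1) - k0 ≤ b G`.
  (2) take one such `G`.  `G` is not contained in `B`, so `b G ≤ a (i+1) - 1` (`IsF.b_le_sub`).
  There is a hyperplane `H ⊇ G` with `b H = a (i+1)`: all hyperplanes on `G` have
  `b H > a i`, so `b H ≥ a (i+1)` (`val_ge`); if `b H ≠ a (i+1)` for all of them: if `i = m+2` this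
  contradicts `b_hyp_le`; if `i ≤ m+1` then `b H ≥ a (i+2)` for all of them (`val_ge`), so
  `a (i+2) ≤ mu (i+1) G ≤ a (i+1) - 1 + k0 < a (i+1) + a i`, but
  `a (i+2) - a (i+1) ≥ (a 2 - 1) (a (i+1) - a i) ≥ a (i+1) - a i ≥ a i`
  (`dif_ge`, `a_ge`), contradiction.
  (3) since `b G < a (i+1) = b H` there is `y' ∈ B ∩ H` outside `G`; `G' = jn F y' ⊆ H`, `G' ≠ G`,
  `G ∩ G' = F` (`IsF.inter_eq`), so by `b_union_le`
  `2 (a (i+1) - k0) ≤ b G + b G' ≤ b H + b F = a (i+1) + a i`, i.e. `a (i+1) - a i ≤ 2 k0`.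
  But `a (i+1) - a i ≥ (a 2 - 2) a i + 1 ≥ 3 a i + 1` (`a_ge`) and
  `2 k0 < 2 a j + 2 ≤ 2 a i + 2 ≤ 3 a i + 1` (as `a i ≥ 1`), contradiction.
-/

open Set

namespace Pool.Agent.H63.PD

open Pool.Agent.H69.Pmd

set_option linter.unusedSectionVars false

variable {α : Type*} [Fintype α] {C : PD α}

theorem ful_step (h5 : 5 ≤ C.a 2) {j : ℕ} (hj : 2 ≤ j) (hk : C.k0 < C.a j + 1) {i : ℕ}
    (hji : j ≤ i) (hi : i ≤ C.m + 2) (hnext : ∀ G, C.IsF (i + 1) G → ¬ G ⊆ C.B)
    {F : Set α} (hF : C.IsF i F) : ¬ F ⊆ C.B := by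
  intro hFB
  have hbF := hF.b_eq hFB
  have ha1 := C.a_pos (show 1 ≤ i by omega) (by omega)
  have hai := a_ge (C := C) (i := i) (by omega)
  have hk0 : C.k0 < C.a i + 1 := by
    have := C.a_le hji (by omega); linarith
  have hgap : 3 * C.a i + 1 ≤ C.a (i + 1) - C.a i := by nlinarith
  have key : ∀ y ∈ C.out F, C.a (i + 1) - C.k0 ≤ C.b (C.jn F y) := by
    intro y hy
    obtain ⟨hyB, hyF⟩ := mem_out.1 hy
    have hG := hF.jn hyF
    have h1 := b_add_one_le (C := C) (sub_jn (C := C) F y) hyB (mem_jn (C := C) F y) hyF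
    have h2 := mu_ge_of_lt (by omega) hG hi (show C.a i < _ by linarith)
    have h3 := kap_le (by omega) hG
    rw [mu] at h2
    linarith
  obtain ⟨y, hy⟩ := out_nonempty hF (by omega)
  obtain ⟨hyB, hyF⟩ := mem_out.1 hy
  have hG := hF.jn hyF
  have hGb := key y hy
  have hG1 := hG.b_le_sub (hnext _ hG)
  have hGlt : C.a i < C.b (C.jn F y) := by
    have h1 := b_add_one_le (C := C) (sub_jn (C := C) F y) hyB (mem_jn (C := C) F y) hyF
    linarith
  obtain ⟨H, hH, hGH, hHb⟩ : ∃ H, C.IsF (C.m + 4) H ∧ C.jn F y ⊆ H ∧ C.b H ≤ C.a (i + 1) := by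
    by_contra hcon
    push Not at hcon
    rcases Nat.lt_or_ge i (C.m + 2) with h | h
    · have h1 : C.a (i + 1 + 1) ≤ C.mu (i + 1) (C.jn F y) :=
        le_mu (by omega) hG fun H hH hGH => val_ge hH (by omega) (hcon H hH hGH)
      have h2 := kap_le (by omega) hG
      have h3 := dif_ge (C := C) (i := i) (by omega)
      rw [mu] at h1
      have h4 : C.a i ≤ (C.a 2 - 1) * (C.a (i + 1) - C.a i) := by nlinarith
      linarith
    · obtain ⟨H, hH, hGH⟩ := hG.exists_ge (j := C.m + 4) (by omega) (by omega)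
      have h1 := hcon H hH hGH
      have h2 := b_hyp_le hH
      have h3 := C.a_le (show C.m + 3 ≤ i + 1 by omega) (by omega)
      linarith
  have hHge : C.a (i + 1) ≤ C.b H := val_ge hH hi (hGlt.trans_le (b_mono hGH))
  obtain ⟨y', ⟨hy'B, hy'H⟩, hy'G⟩ : ∃ y' ∈ C.B ∩ H, y' ∉ C.jn F y := by
    by_contra hno
    push Not at hno
    have h2 : C.B ∩ H ⊆ C.B ∩ C.jn F y := fun z hz => ⟨hz.1, hno z hz⟩
    have h3 := Set.ncard_le_ncard h2 (Set.toFinite _)
    have h4 : C.b H ≤ C.b (C.jn F y) := by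
      rw [b, b]
      have : ((C.B ∩ H).ncard : ℝ) ≤ (C.B ∩ C.jn F y).ncard := by exact_mod_cast h3
      linarith
    linarith
  have hy'F : y' ∉ F := fun h => hy'G (sub_jn (C := C) F y h)
  have hG' := hF.jn hy'F
  have hG'H : C.jn F y' ⊆ H := jn_subset hH ((sub_jn (C := C) F y).trans hGH) hy'H
  have hne : C.jn F y ≠ C.jn F y' := fun h => hy'G (h ▸ mem_jn (C := C) F y')
  have hint := hF.inter_eq hG hG' (sub_jn (C := C) F y) (sub_jn (C := C) F y') hne
  have h6 := b_union_le (C := C) hGH hG'H hint.le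
  have h7 := key y' (mem_out.2 ⟨hy'B, hy'F⟩)
  linarith

theorem ful (h5 : 5 ≤ C.a 2) {j : ℕ} (hj : 2 ≤ j) (hk : C.k0 < C.a j + 1) {i : ℕ} (hji : j ≤ i)
    (hi : i ≤ C.m + 3) {F : Set α} (hF : C.IsF i F) : ¬ F ⊆ C.B := by
  obtain ⟨d, hd⟩ : ∃ d, i + d = C.m + 3 := ⟨C.m + 3 - i, by omega⟩
  clear hi
  induction d generalizing i F with
  | zero =>
    intro hFB
    have hi : i = C.m + 3 := by omega
    subst hi
    obtain ⟨y, hy⟩ := out_nonempty hF (by omega)
    obtain ⟨hyB, hyF⟩ := mem_out.1 hy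
    have h1 := b_add_one_le (C := C) (sub_jn (C := C) F y) hyB (mem_jn (C := C) F y) hyF
    have h2 := b_hyp_le (hF.jn hyF)
    rw [hF.b_eq hFB] at h1
    linarith
  | succ d ih =>
    exact ful_step h5 hj hk hji (by omega) (fun G hG => ih (by omega) hG (by omega)) hF

end Pool.Agent.H63.PD
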