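import Pool.Agent.H63.PD.Siz

/-!
# GDY: a flat with few missing points contains a hyperplane (of the flat) with few missing points

Statement: for a flat `G` of relative rank `i+1` there is a flat `F ⊆ G` of relative rank `i` with
`(a i - b F) * a (i+1) ≤ (a (i+1) - b G) * a i`.

Proof (greedy).  Write `f = a (i+1) - b G ≥ 0`.  For `s ≤ i` we construct `F ⊆ G` of relative rank `s`
with `(f - (a s - b F)) * a (i+1) ≥ f * (a (i+1) - a s)`, i.e. `(a s - b F) * a (i+1) ≤ f * a s`.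
`s = 0`: `F = F₀`.  Step `s → s+1 ≤ i`: let `F` be the flat of relative rank `s`.  The flats of
relative rank `s+1` between `F` and `G` (`covers M F G`) partition `G \ F`; there are `N` of them with
`N (a (s+1) - a s) = a (i+1) - a s` (`IsPmd.covers_mul`) and, by `sum_covers`,
`∑ (b F' - b F) = b G - b F`.  So some `F'` has
`(b F' - b F) (a (i+1) - a s) ≥ (b G - b F) (a (s+1) - a s)`.  Put `e = a s - b F`,
`e' = a (s+1) - b F'`.  Then `(e' - e) (a (i+1) - a s) ≤ (f - e) (a (s+1) - a s)`, hence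
`(f - e') (a (i+1) - a s) ≥ (f - e) (a (i+1) - a (s+1))`, and with the induction hypothesis
`(f - e) a (i+1) ≥ f (a (i+1) - a s)`:
`(f - e') (a (i+1) - a s) a (i+1) ≥ f (a (i+1) - a s) (a (i+1) - a (s+1))`, which gives the claim for
`s+1` after division by `a (i+1) - a s > 0`.
-/

open Set

namespace Pool.Agent.H63.PD

open Pool.Agent.H69.Pmd

set_option linter.unusedSectionVars false

variable {α : Type*} [Fintype α] {C : PD α}

/-- the flats of relative rank `s + 1` between `F` and `G` -/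
theorem gdy_cov {s : ℕ} {F G : Set α} (hF : C.IsF s F) {F' : Set α}
    (h : F' ∈ covers C.M F G) : C.IsF (s + 1) F' ∧ F ⊆ F' ∧ F' ⊆ G := by
  obtain ⟨h1, h2, h3, h4⟩ := mem_covers.1 h
  refine ⟨⟨h1, ?_, hF.base.trans h2⟩, h2, h3⟩
  rw [h4, hF.rank]; push_cast; rfl

theorem gdy_card {s j : ℕ} {F G : Set α} (hF : C.IsF s F) (hG : C.IsF j G) (hFG : F ⊆ G)
    (hs : s + 1 ≤ C.m + 5) (hsj : s ≤ j) (hj : j ≤ C.m + 5) :
    ((covers C.M F G).card : ℝ) * (C.a (s + 1) - C.a s) = C.a j - C.a s := by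
  have h := C.pmd.covers_mul hF.flat hG.flat hF.rank hG.rank hFG
  have h1 : C.σ (C.τ + s) ≤ C.σ (C.τ + s + 1) := C.pmd.le (by omega) (by omega)
  have h2 : C.σ (C.τ + s) ≤ C.σ (C.τ + j) := C.pmd.le (by omega) (by omega)
  have h3 : ((covers C.M F G).card : ℝ) * ((C.σ (C.τ + s + 1) : ℝ) - C.σ (C.τ + s)) =
      (C.σ (C.τ + j) : ℝ) - C.σ (C.τ + s) := by
    rw [← Nat.cast_sub h1, ← Nat.cast_sub h2]
    exact_mod_cast h
  simp only [a, show C.τ + (s + 1) = C.τ + s + 1 by omega]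
  rw [show ((C.σ (C.τ + s + 1) : ℝ) - C.σ C.τ - (C.σ (C.τ + s) - C.σ C.τ)) =
    (C.σ (C.τ + s + 1) : ℝ) - C.σ (C.τ + s) by ring, h3]
  ring

theorem gdy_sum {s j : ℕ} {F G : Set α} (hF : C.IsF s F) (hG : C.IsF j G) (hFG : F ⊆ G) :
    ∑ F' ∈ covers C.M F G, (C.b F' - C.b F) = C.b G - C.b F := by
  have h := sum_covers C.ground hF.flat hG.flat hFG C.B
  have h1 : ∀ F' : Set α, F ⊆ F' → C.b F' - C.b F = ((C.B ∩ (F' \ F)).ncard : ℝ) := by
    intro F' hF'
    have h2 := ncard_inter_diff (B := C.B) hF'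
    have h3 : ((C.B ∩ (F' \ F)).ncard : ℝ) + (C.B ∩ F).ncard = (C.B ∩ F').ncard := by
      exact_mod_cast h2
    simp only [b]; linarith
  rw [h1 G hFG, ← h]
  push_cast
  exact Finset.sum_congr rfl fun F' hF' => h1 F' (gdy_cov hF hF').2.1

theorem gdy_step {s i : ℕ} {F G : Set α} (hi : i + 1 ≤ C.m + 5) (hG : C.IsF (i + 1) G)
    (hF : C.IsF s F) (hFG : F ⊆ G) (hs : s + 1 ≤ i)
    (h : (C.a s - C.b F) * C.a (i + 1) ≤ (C.a (i + 1) - C.b G) * C.a s) :
    ∃ F', C.IsF (s + 1) F' ∧ F' ⊆ G ∧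
      (C.a (s + 1) - C.b F') * C.a (i + 1) ≤ (C.a (i + 1) - C.b G) * C.a (s + 1) := by
  have hcard := gdy_card hF hG hFG (by omega) (by omega) hi
  have hsum := gdy_sum hF hG hFG
  have ha1 : C.a s < C.a (s + 1) := C.a_lt (by omega) (by omega)
  have ha2 : C.a s < C.a (i + 1) := C.a_lt (by omega) hi
  have ha3 : 1 ≤ C.a (i + 1) := C.a_pos (by omega) hi
  have hpos : 0 < (covers C.M F G).card := by
    rcases Nat.eq_zero_or_pos (covers C.M F G).card with h0 | h0
    · rw [h0] at hcard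
      simp at hcard
      linarith
    · exact h0
  have hex : ∃ F' ∈ covers C.M F G,
      (C.b G - C.b F) * (C.a (s + 1) - C.a s) ≤ (C.b F' - C.b F) * (C.a (i + 1) - C.a s) := by
    by_contra hcon
    push Not at hcon
    have h1 := Finset.sum_lt_sum_of_nonempty (Finset.card_pos.1 hpos) hcon
    rw [← Finset.sum_mul, hsum, Finset.sum_const, nsmul_eq_mul] at h1
    have h2 : ((covers C.M F G).card : ℝ) * ((C.b G - C.b F) * (C.a (s + 1) - C.a s)) =
        (C.b G - C.b F) * (C.a (i + 1) - C.a s) := by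
      rw [← hcard]; ring
    linarith
  obtain ⟨F', hF', hle⟩ := hex
  obtain ⟨h1, h2, h3⟩ := gdy_cov hF hF'
  refine ⟨F', h1, h3, ?_⟩
  -- `e = a s - b F`, `e' = a (s+1) - b F'`, `f = a (i+1) - b G`
  have hkey : (C.a (i + 1) - C.a s) * ((C.a (s + 1) - C.b F') * C.a (i + 1)) ≤
      (C.a (i + 1) - C.a s) * ((C.a (i + 1) - C.b G) * C.a (s + 1)) := by
    have e1 : (C.a (s + 1) - C.b F') * (C.a (i + 1) - C.a s) ≤
        (C.a (s + 1) - C.b F) * (C.a (i + 1) - C.a s) -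
          (C.b G - C.b F) * (C.a (s + 1) - C.a s) := by
      nlinarith [hle]
    have e2 := mul_le_mul_of_nonneg_right e1 (show 0 ≤ C.a (i + 1) by linarith)
    have e3 := mul_le_mul_of_nonneg_right h
      (show 0 ≤ C.a (i + 1) - C.a (s + 1) by
        have := C.a_le (show s + 1 ≤ i + 1 by omega) hi
        linarith)
    nlinarith [e2, e3]
  exact le_of_mul_le_mul_left hkey (by linarith)

theorem gdy {i : ℕ} (hi : i + 1 ≤ C.m + 5) {G : Set α} (hG : C.IsF (i + 1) G) :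
    ∃ F, C.IsF i F ∧ F ⊆ G ∧ (C.a i - C.b F) * C.a (i + 1) ≤ (C.a (i + 1) - C.b G) * C.a i := by
  have key : ∀ s ≤ i, ∃ F, C.IsF s F ∧ F ⊆ G ∧
      (C.a s - C.b F) * C.a (i + 1) ≤ (C.a (i + 1) - C.b G) * C.a s := by
    intro s
    induction s with
    | zero =>
      intro _
      refine ⟨C.F₀, isF_base, hG.base, ?_⟩
      rw [b_base, C.a_zero]; simp
    | succ s ih =>
      intro hs
      obtain ⟨F, h1, h2, h3⟩ := ih (by omega)
      exact gdy_step hi hG h1 h2 hs h3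
  exact key i le_rfl

end Pool.Agent.H63.PD
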