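import Pool.Agent.H63.PD.Siz

/-!
# LOW: `2 ≤ k0`

Proof.  Suppose `k0 < 2`.
(1) If `L` is a flat of relative rank 2 with `2 ≤ b L`, then `a 2 - 1 ≤ b L`: since `a 1 = 1 < b L`,
`mu_ge_of_lt` (with `t = 1`) gives `a 2 ≤ mu 2 L = b L + (k - b L) rho 2 ≤ b L + k0 < b L + 2`
(`kap_le`), so `a 2 - 2 < b L`; `a 2` and `b L` are differences of natural numbers (integers), so
`a 2 - 1 ≤ b L` (`int_gap` below).
(2) For `2 ≤ i ≤ m + 3` there is a flat `F` of relative rank `i` with `a i - 1 ≤ b F`.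
`i = 2`: `exists_line` and (1).  Step: let `F` be such a flat of relative rank `i ≤ m + 2`, and
`y ∈ out F` (`out_nonempty`), `G = jn F y`.  `b G > a i`: there is a point `z ∈ B ∩ F` outside `F₀`
(`b F ≥ a i - 1 > 0 = b F₀`); the flat `L = jn (jn F₀ z) y` has relative rank 2 (`y ∉ F ⊇ jn F₀ z`),
`b L ≥ 2` (`b_add_one_le` twice), so `b L ≥ a 2 - 1 ≥ 3`, and `L ⊆ G`.  Moreover `L ∩ F = jn F₀ z`
(`IsF.inter_eq`-like argument: `L ∩ F` is a flat containing `jn F₀ z`, different from `L`), so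
by `b_union_le` for `F`, `L` in `G`: `b F + b L ≤ b G + b (jn F₀ z) = b G + 1`, i.e.
`b G ≥ b F + 2 ≥ a i + 1`.  By `mu_ge_of_lt` (`t = i`): `a (i+1) ≤ mu (i+1) G < b G + 2`, so
`a (i+1) - 1 ≤ b G` (integers).
(3) Take `F` of relative rank `m + 3` with `a (m+3) - 1 ≤ b F` and `y ∈ out F`; the hyperplane
`H = jn F y` has, by the same argument as in (2), `b H ≥ b F + 2 ≥ a (m+3) + 1`, a contradiction
with `b_hyp_le`.
So: prove first the lemma 'if `F` has relative rank `i`, `2 ≤ i ≤ m+3`, `0 < b F` and `y ∈ out F` then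
`b F + 2 ≤ b (jn F y)`' (assuming `k0 < 2`, `4 ≤ a 2`).
-/

open Set

namespace Pool.Agent.H63.PD

open Pool.Agent.H69.Pmd

set_option linter.unusedSectionVars false

variable {α : Type*} [Fintype α] {C : PD α}

/-- integrality: `a` and `b` are integers -/
theorem int_gap {i : ℕ} {F : Set α} (n : ℕ) (h : C.a i - (n + 1) < C.b F) : C.a i - n ≤ C.b F := by
  have h1 : ((C.σ (C.τ + i) : ℤ) : ℝ) - ((C.σ C.τ : ℤ) : ℝ) - ((n : ℤ) + 1) <
      (((C.B ∩ F).ncard : ℤ) : ℝ) - ((C.σ C.τ : ℤ) : ℝ) := by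
    simpa [a, b] using h
  have h2 : (C.σ (C.τ + i) : ℤ) - (C.σ C.τ : ℤ) - ((n : ℤ) + 1) <
      ((C.B ∩ F).ncard : ℤ) - (C.σ C.τ : ℤ) := by exact_mod_cast h1
  have h3 : (C.σ (C.τ + i) : ℤ) - (C.σ C.τ : ℤ) - (n : ℤ) ≤
      ((C.B ∩ F).ncard : ℤ) - (C.σ C.τ : ℤ) := by omega
  have h4 : ((C.σ (C.τ + i) : ℤ) : ℝ) - ((C.σ C.τ : ℤ) : ℝ) - (n : ℤ) ≤
      (((C.B ∩ F).ncard : ℤ) : ℝ) - ((C.σ C.τ : ℤ) : ℝ) := by exact_mod_cast h3
  simpa [a, b] using h4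

theorem Low_lt {i : ℕ} {F : Set α} (hk : C.k0 < 2) (hF : C.IsF i F) (hi : i ≤ C.m + 3)
    {t : ℕ} (ht : t ≤ C.m + 2) (h : C.a t < C.b F) : C.a (t + 1) - 1 ≤ C.b F := by
  have h1 := mu_ge_of_lt hi hF ht h
  have h2 := kap_le hi hF
  have h3 : C.mu i F = C.b F + (C.k - C.b F) * C.rho i := rfl
  have h4 : C.a (t + 1) - ((1 : ℕ) + 1) < C.b F := by
    push_cast
    linarith
  have h5 := int_gap (C := C) 1 h4
  push_cast at h5
  exact h5

theorem Low_step {i : ℕ} {F : Set α} (hk : C.k0 < 2) (h4 : 4 ≤ C.a 2) (hF : C.IsF i F)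
    (hi : i ≤ C.m + 3) (hb : 0 < C.b F) {y : α} (hy : y ∈ C.out F) :
    C.b F + 2 ≤ C.b (C.jn F y) := by
  obtain ⟨hyB, hyF⟩ := mem_out.1 hy
  have hG := hF.jn hyF
  obtain ⟨z, hz⟩ : ∃ z, z ∈ C.B ∧ z ∈ F ∧ z ∉ C.F₀ := by
    by_contra hcon
    push Not at hcon
    have h1 : ((C.B ∩ F).ncard : ℝ) ≤ (C.B ∩ C.F₀).ncard := by
      have : C.B ∩ F ⊆ C.B ∩ C.F₀ := fun x hx => ⟨hx.1, hcon x hx.1 hx.2⟩
      exact_mod_cast Set.ncard_le_ncard this (Set.toFinite _)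
    have h2 : C.b F ≤ C.b C.F₀ := by
      simp only [b]
      linarith
    rw [b_base] at h2
    linarith
  obtain ⟨hzB, hzF, hz0⟩ := hz
  obtain ⟨hP, hPb⟩ := point (C := C) (mem_out.2 ⟨hzB, hz0⟩)
  set P := C.jn C.F₀ z with hPdef
  have hPF : P ⊆ F := jn_subset hF hF.base hzF
  have hyP : y ∉ P := fun h => hyF (hPF h)
  have hL : C.IsF 2 (C.jn P y) := hP.jn hyP
  have hbL : 2 ≤ C.b (C.jn P y) := by
    have := b_add_one_le (C := C) (sub_jn (C := C) P y) hyB (mem_jn (C := C) P y) hyP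
    rw [hPb] at this
    linarith
  have hbL2 : C.a 2 - 1 ≤ C.b (C.jn P y) := by
    have := Low_lt hk hL (by omega) (t := 1) (by omega) (by rw [C.a_one]; linarith)
    simpa using this
  have hLG : C.jn P y ⊆ C.jn F y := jn_subset hG (hPF.trans (sub_jn F y)) (mem_jn F y)
  have hLF : F ∩ C.jn P y ⊆ P := by
    rintro x ⟨hxF, hxL⟩
    by_contra hxP
    have h1 := hP.eq_jn hL (sub_jn P y) hxL hxP
    have h2 : C.jn P x ⊆ F := jn_subset hF hPF hxF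
    rw [h1] at h2
    exact hyF (h2 (mem_jn P y))
  have h5 := b_union_le (C := C) (sub_jn (C := C) F y) hLG hLF
  rw [hPb] at h5
  linarith

theorem Low_exists (hk : C.k0 < 2) (h4 : 4 ≤ C.a 2) {i : ℕ} (h2 : 2 ≤ i) (hi : i ≤ C.m + 3) :
    ∃ F, C.IsF i F ∧ C.a i - 1 ≤ C.b F := by
  induction i, h2 using Nat.le_induction with
  | base =>
    obtain ⟨L, hL, hb⟩ := exists_line (C := C)
    refine ⟨L, hL, ?_⟩
    have := Low_lt hk hL (by omega) (t := 1) (by omega) (by rw [C.a_one]; linarith)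
    simpa using this
  | succ i h2 ih =>
    obtain ⟨F, hF, hb⟩ := ih (by omega)
    obtain ⟨y, hy⟩ := out_nonempty hF (by omega)
    have ha : C.a 2 ≤ C.a i := C.a_le h2 (by omega)
    have h5 := Low_step hk h4 hF (by omega) (by linarith) hy
    have hG := hF.jn (mem_out.1 hy).2
    exact ⟨_, hG, Low_lt hk hG hi (t := i) (by omega) (by linarith)⟩

theorem low (h4 : 4 ≤ C.a 2) : 2 ≤ C.k0 := by
  by_contra hk
  rw [not_le] at hk
  obtain ⟨F, hF, hb⟩ := Low_exists hk h4 (i := C.m + 3) (by omega) le_rfl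
  obtain ⟨y, hy⟩ := out_nonempty hF (by omega)
  have ha : C.a 2 ≤ C.a (C.m + 3) := C.a_le (by omega) (by omega)
  have h5 := Low_step hk h4 hF le_rfl (by linarith) hy
  have hG := hF.jn (mem_out.1 hy).2
  have h6 := b_hyp_le hG
  linarith

end Pool.Agent.H63.PD
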