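import Pool.Agent.H63.PD.Exp

/-!
# Means, growth inequality, window inequality (proved)
-/

open Set

namespace Pool.Agent.H63.PD

open Pool.Agent.H69.Pmd

set_option linter.unusedSectionVars false

variable {α : Type*} [Fintype α] {C : PD α}

/-! ### `rho` and `mu` -/

theorem rho_pos {i : ℕ} (hi : i ≤ C.m + 3) : 0 < C.rho i := by
  have h1 : C.a i < C.k := C.a_lt (by omega) (by omega)
  have h2 := C.k_lt_v
  exact div_pos (by linarith) (by linarith)

theorem rho_lt_one {i : ℕ} (hi : i ≤ C.m + 3) : C.rho i < 1 := by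
  have h1 : C.a i < C.k := C.a_lt (by omega) (by omega)
  have h2 := C.k_lt_v
  rw [rho, div_lt_one (by linarith)]
  linarith

theorem rho_anti {i j : ℕ} (hij : i ≤ j) (hj : j ≤ C.m + 3) : C.rho j ≤ C.rho i := by
  have h1 : C.a j < C.k := C.a_lt (by omega) (by omega)
  have h2 := C.k_lt_v
  have h3 : C.a i ≤ C.a j := C.a_le hij (by omega)
  rw [rho, rho, div_le_div_iff₀ (by linarith) (by linarith)]
  nlinarith

theorem mu_eq {F : Set α} {i : ℕ} (hi : i ≤ C.m + 3) (hF : C.IsF i F) :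
    C.E F (fun x => x) = C.mu i F := E_id hi hF

/-- if all hyperplanes on `F` have at least `c` points of `B` then `c ≤ mu i F` -/
theorem le_mu {F : Set α} {i : ℕ} (hi : i ≤ C.m + 3) (hF : C.IsF i F) {c : ℝ}
    (h : ∀ H, C.IsF (C.m + 4) H → F ⊆ H → c ≤ C.b H) : c ≤ C.mu i F := by
  rw [← mu_eq hi hF, ← E_const hF (by omega) c]
  exact E_mono hF.base h

theorem mu_le {F : Set α} {i : ℕ} (hi : i ≤ C.m + 3) (hF : C.IsF i F) {c : ℝ}
    (h : ∀ H, C.IsF (C.m + 4) H → F ⊆ H → C.b H ≤ c) : C.mu i F ≤ c := by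
  rw [← mu_eq hi hF, ← E_const hF (by omega) c]
  exact E_mono hF.base h

/-- all means are at most `a (m+3)` -/
theorem mu_le_top {F : Set α} {i : ℕ} (hi : i ≤ C.m + 3) (hF : C.IsF i F) :
    C.mu i F ≤ C.a (C.m + 3) := mu_le hi hF fun _ hH _ => b_hyp_le hH

/-- if `a i < b F` for a flat `F` of relative rank `i+1` then `a (i+1) ≤ mu (i+1) F` -/
theorem mu_ge_of_lt {F : Set α} {i t : ℕ} (hi : i ≤ C.m + 3) (hF : C.IsF i F)
    (ht : t ≤ C.m + 2) (h : C.a t < C.b F) : C.a (t + 1) ≤ C.mu i F :=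
  le_mu hi hF fun _ hH hFH => val_ge hH ht (h.trans_le (b_mono hFH))

/-- a bound for the second term of the mean -/
theorem kap_le {F : Set α} {i : ℕ} (hi : i ≤ C.m + 3) (hF : C.IsF i F) :
    (C.k - C.b F) * C.rho i ≤ C.k0 := by
  have h1 := hF.b_nonneg
  have h2 : C.rho i ≤ C.rho 0 := rho_anti (Nat.zero_le i) hi
  have h3 := rho_pos (C := C) hi
  have h4 := b_lt_k hF (by omega)
  have h5 : C.k0 = C.k * C.rho 0 := by
    rw [k0, rho, C.a_zero]; ring
  rw [h5]
  exact mul_le_mul (by linarith) h2 h3.le (by have := C.k_pos; linarith)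

theorem kap_nonneg {F : Set α} {i : ℕ} (hi : i ≤ C.m + 3) (hF : C.IsF i F) :
    0 ≤ (C.k - C.b F) * C.rho i :=
  mul_nonneg (by have := b_lt_k hF (by omega); linarith) (rho_pos hi).le

/-- The growth inequality. -/
theorem growth {F : Set α} {i t : ℕ} (hi : i ≤ C.m + 2) (hF : C.IsF i F) (ht : t ≤ C.m + 2) :
    (C.a (t + 1) - C.b F) * (C.mu i F - C.a t) ≤
      C.rho i * ∑ y ∈ C.out F, (C.mu (i + 1) (C.jn F y) - C.a t) := by
  have h1 := E_key (by omega) hF (fun x => x - C.a t)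
  have h2 : ∀ y ∈ C.out F, C.E (C.jn F y) (fun x => x - C.a t) =
      C.mu (i + 1) (C.jn F y) - C.a t := by
    intro y hy
    have hJ := hF.jn (mem_out.1 hy).2
    rw [E_sub _ (fun x => x) (fun _ => C.a t), mu_eq (by omega) hJ, E_const hJ (by omega)]
  rw [Finset.sum_congr rfl h2] at h1
  rw [← h1]
  have h3 : (C.a (t + 1) - C.b F) * (C.mu i F - C.a t) =
      C.E F (fun x => (C.a (t + 1) - C.b F) * (x - C.a t)) := by
    rw [E_mul F (C.a (t + 1) - C.b F) (fun x => x - C.a t),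
      E_sub _ (fun x => x) (fun _ => C.a t), mu_eq (by omega) hF, E_const hF (by omega)]
  rw [h3]
  apply E_mono hF.base
  intro H hH hFH
  have h4 := prod_nonneg hH (t := t) (by omega)
  linarith

/-- Some join of `F` with a point of `B` outside `F` has a large mean. -/
theorem exists_growth {F : Set α} {i t : ℕ} (hi : i ≤ C.m + 2) (hF : C.IsF i F)
    (ht : t ≤ C.m + 2) : ∃ y ∈ C.out F,
    (C.a (t + 1) - C.b F) * (C.mu i F - C.a t) ≤
      (C.k - C.b F) * C.rho i * (C.mu (i + 1) (C.jn F y) - C.a t) := by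
  by_contra hcon
  push Not at hcon
  have h1 := growth hi hF ht
  have hne := out_nonempty hF (by omega)
  have h2 : ∑ y ∈ C.out F, (C.k - C.b F) * C.rho i * (C.mu (i + 1) (C.jn F y) - C.a t) <
      ∑ y ∈ C.out F, (C.a (t + 1) - C.b F) * (C.mu i F - C.a t) :=
    Finset.sum_lt_sum_of_nonempty hne hcon
  rw [← Finset.mul_sum, Finset.sum_const, nsmul_eq_mul, card_out] at h2
  have h3 := b_lt_k hF (by omega)
  have h4 : (C.k - C.b F) * ((C.a (t + 1) - C.b F) * (C.mu i F - C.a t)) ≤ (C.k - C.b F) *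
      (C.rho i * ∑ y ∈ C.out F, (C.mu (i + 1) (C.jn F y) - C.a t)) :=
    mul_le_mul_of_nonneg_left h1 (by linarith)
  linarith

/-! ### points and the moments -/

/-- a point of `B` spans a flat of relative rank one contained in `B` -/
theorem point {y : α} (hy : y ∈ C.out C.F₀) : C.IsF 1 (C.jn C.F₀ y) ∧ C.b (C.jn C.F₀ y) = 1 := by
  obtain ⟨h1, h2⟩ := mem_out.1 hy
  have h3 := (isF_base (C := C)).jn h2
  refine ⟨h3, le_antisymm ?_ ?_⟩
  · have := h3.b_le
    rwa [zero_add, C.a_one] at this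
  · have := b_add_one_le (C := C) (sub_jn (C := C) C.F₀ y) h1 (mem_jn (C := C) C.F₀ y) h2
    rw [b_base] at this
    linarith

theorem rho_zero_mul : C.k * C.rho 0 = C.k0 := by
  rw [k0, rho, C.a_zero]; ring

theorem rho_one_mul : (C.k - 1) * C.rho 1 = C.k1 := by
  rw [k1, rho, C.a_one]; ring

theorem E_base_id : C.E C.F₀ (fun x => x) = C.k0 := by
  rw [mu_eq (by omega) isF_base, mu, b_base, ← rho_zero_mul]; ring

/-- the second factorial moment, weighted -/
theorem E_base_two (g : ℝ → ℝ) : C.E C.F₀ (fun x => x * (x - 1) * g x) =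
    C.rho 0 * C.rho 1 * ∑ y ∈ C.out C.F₀, ∑ z ∈ C.out (C.jn C.F₀ y),
      C.E (C.jn (C.jn C.F₀ y) z) g := by
  have h1 := E_key (C := C) (by omega) isF_base (fun x => (x - 1) * g x)
  have h2 : ∀ y ∈ C.out C.F₀, C.E (C.jn C.F₀ y) (fun x => (x - 1) * g x) =
      C.rho 1 * ∑ z ∈ C.out (C.jn C.F₀ y), C.E (C.jn (C.jn C.F₀ y) z) g := by
    intro y hy
    obtain ⟨a1, a2⟩ := point hy
    have := E_key (C := C) (by omega) a1 g
    rw [a2] at this
    exact this
  rw [Finset.sum_congr rfl h2, b_base, ← Finset.mul_sum, ← mul_assoc] at h1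
  rw [← h1]
  congr 1
  funext x
  ring

/-- `E [X (X-1)] = k0 * k1` -/
theorem E_base_sq : C.E C.F₀ (fun x => x * (x - 1)) = C.k0 * C.k1 := by
  have h1 := E_base_two (C := C) (fun _ => 1)
  have h2 : ∀ y ∈ C.out C.F₀, ∑ z ∈ C.out (C.jn C.F₀ y),
      C.E (C.jn (C.jn C.F₀ y) z) (fun _ => (1 : ℝ)) = C.k - 1 := by
    intro y hy
    obtain ⟨a1, a2⟩ := point hy
    rw [Finset.sum_congr rfl (fun z hz => E_const (a1.jn (mem_out.1 hz).2) (by omega) 1),
      Finset.sum_const, nsmul_eq_mul, mul_one, card_out, a2]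
  rw [Finset.sum_congr rfl h2, Finset.sum_const, nsmul_eq_mul, card_out, b_base] at h1
  simp only [mul_one, sub_zero] at h1
  rw [h1, ← rho_zero_mul, ← rho_one_mul]; ring

/-- the window inequality -/
theorem window {t : ℕ} (ht : t ≤ C.m + 2) :
    0 ≤ C.k0 * (1 + C.k1 - C.a t - C.a (t + 1)) + C.a t * C.a (t + 1) := by
  have h1 : C.E C.F₀ (fun x => (x - C.a t) * (x - C.a (t + 1))) =
      C.k0 * (1 + C.k1 - C.a t - C.a (t + 1)) + C.a t * C.a (t + 1) := by
    have h2 : (fun x : ℝ => (x - C.a t) * (x - C.a (t + 1))) =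
        fun x => (x * (x - 1) - (C.a t + C.a (t + 1) - 1) * x) + C.a t * C.a (t + 1) := by
      funext x; ring
    rw [h2, E_add _ (fun x => x * (x - 1) - (C.a t + C.a (t + 1) - 1) * x)
      (fun _ => C.a t * C.a (t + 1)), E_const isF_base (by omega),
      E_sub _ (fun x => x * (x - 1)) (fun x => (C.a t + C.a (t + 1) - 1) * x),
      E_mul _ _ (fun x => x), E_base_sq, E_base_id]
    ring
  rw [← h1]
  exact E_nonneg Subset.rfl fun H hH _ => prod_nonneg hH (by omega)

theorem k1_lt_k0 : C.k1 < C.k0 := by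
  have h1 := C.k_lt_v
  have h2 : (1 : ℝ) < C.k := by
    rw [← C.a_one]; exact C.a_lt (show 1 < C.m + 4 by omega) (by omega)
  rw [k0, k1, div_lt_div_iff₀ (by linarith) (by linarith)]
  nlinarith [mul_pos (show (0 : ℝ) < C.k by linarith) (show 0 < C.v - C.k by linarith)]

theorem k1_nonneg : 0 ≤ C.k1 := by
  have h1 := C.v_pos
  exact div_nonneg (sq_nonneg _) (by linarith)

/-- a line with at least two points of `B` -/
theorem exists_line : ∃ F, C.IsF 2 F ∧ 2 ≤ C.b F := by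
  obtain ⟨y, hy⟩ := out_nonempty (isF_base (C := C)) (by omega)
  obtain ⟨h1, h2⟩ := point hy
  obtain ⟨z, hz⟩ := out_nonempty h1 (by omega)
  obtain ⟨h3, h4⟩ := mem_out.1 hz
  refine ⟨C.jn (C.jn C.F₀ y) z, h1.jn h4, ?_⟩
  have := b_add_one_le (C := C) (sub_jn (C := C) (C.jn C.F₀ y) z) h3 (mem_jn (C := C) _ z) h4
  rw [h2] at this
  linarith

end Pool.Agent.H63.PD
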