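import Pool.Agent.H63.PD.Ful
import Pool.Agent.H63.PD.Gdy

/-!
# NGD: `b G ≤ a i` for all flats `G` of relative rank `i+1 > j`

Statement: `2 ≤ j`, `k0 < a j + 1`, `j ≤ i`, `i + 1 ≤ m + 4`, `G` of relative rank `i+1` ⇒ `b G ≤ a i`.

Proof.  Descending induction on `i`; `i = m+3` is `b_hyp_le`.  Let `i ≤ m+2` and suppose the statement
for `i+1`; suppose `G` has relative rank `i+1` and `a i < b G`.
Write `w = a i`, `A = a (i+1)`, `d = A - w`, `f = A - b G`, `κ_G = (k - b G) rho (i+1)`.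
(1) `f ≤ κ_G ≤ k0`, from `mu_ge_of_lt` (`t = i`) and `kap_le`.  `f ≥ 1` by FUL (`ful`), not needed.
(2) By GDY there is `F ⊆ G` of relative rank `i` with `g A ≤ f w`, where `g = w - b F ≥ 0`.
(3) for `y ∈ out F` with `y ∉ G`: `b (jn F y) ≤ w`.  Otherwise `G' = jn F y` satisfies
`a i < b G'`, so as in (1) `b G' ≥ A - k0`; `J = jn G y ⊇ G'` has relative rank `i+2`,
`G ∩ G' = F` (`IsF.inter_eq`), and `b_union_le` gives
`2 (A - k0) ≤ b G + b G' ≤ b J + b F ≤ b J + w`, and `b J ≤ a (i+1) = A` by induction hypothesis: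
`A - w ≤ 2 k0`; but `A - w ≥ (a 2 - 2) w + 1 ≥ 3 w + 1 ≥ 2 w + 2 > 2 k0` (`a_ge`, `w ≥ a j ≥ 1`).
(4) growth inequality (`growth`, `t = i`) for `F`:
`(A - b F) (mu i F - w) ≤ rho i * ∑_{y ∈ out F} (mu (i+1) (jn F y) - w)`.
For `y ∈ out F`, `y ∈ G`: `jn F y = G` (`IsF.eq_jn`) and `mu (i+1) G - w = (d - f) + κ_G`; the number of
these `y` is `b G - b F = d - f + g`.  For the other `y`, `k - b G` in number, by (3)
`mu (i+1) (jn F y) - w = b' - w + (k - b') rho (i+1) ≤ (k - w) rho (i+1)` (`rho ≤ 1`).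
Put `κ_F = (k - b F) rho i`, so `mu i F - w = κ_F - g`.  Then
`(d + g) (κ_F - g) ≤ rho i (k - b G) (k - w) rho (i+1) + rho i (d - f + g) (d - f + κ_G)`.
Now `rho i (k - b G) ≤ κ_F`, `(k - w) rho (i+1) ≤ κ_F` (`b F ≤ w`, `rho_anti`) `≤ k0`, and
`rho i = κ_F / (k - b F)`; `f ≤ κ_G ≤ κ_F` (as `b F ≤ b G`), `g ≤ f w / A ≤ κ_F w / A`, so the left side is
at least `d κ_F (1 - w / A)`; `g ≤ f`, so `d - f + g ≤ d`; `d - f + κ_G ≤ d - 1 + k0 ≤ A` (here use
`f ≥ 1`: `ful` and `IsF.b_le_sub`; `k0 < a j + 1 ≤ w + 1`).  Dividing by `κ_F > 0`: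
(5) `d (1 - w / A) ≤ k0 + d A / (k - w)`, and
`k - w ≥ a (i+2) - a i = K i * d ≥ a 2 * d` (`K_mul`, `K_mono`, `K_zero`; `k = a (m+4) ≥ a (i+2)`), so
`(A - w)^2 ≤ A k0 + A^2 / a 2 ≤ A (w + 1) + A^2 / a 2`.
With `l = a 2 ≥ 5`, `A ≥ (l-1) w + 1`, `w ≥ a 2 = l ≥ 5` this is false: `w + 1 ≤ (6/21) A`
(since `21 (w+1) ≤ 6 (4 w + 1)` iff `15 ≤ 3 w`), so the right side is `≤ (2/7 + 1/5) A^2 < .49 A^2`, and
`A - w ≥ (3/4) A` as `w ≤ A / 4`, so the left side is `≥ .5625 A^2`.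
-/

open Set

namespace Pool.Agent.H63.PD

open Pool.Agent.H69.Pmd

set_option linter.unusedSectionVars false

variable {α : Type*} [Fintype α] {C : PD α}

theorem Ngd_arith {w A bG bF k r R k0 : ℝ} (h1 : A ≤ bG + (k - bG) * R) (h2 : (k - bG) * R ≤ k0)
    (h3 : bG ≤ A - 1) (h4 : (w - bF) * A ≤ (A - bG) * w) (h5 : bF ≤ w)
    (h7 : (A - bF) * (bF + (k - bF) * r - w) ≤
      r * ((bG - bF) * (bG + (k - bG) * R - w) + (k - bG) * ((k - w) * R)))
    (hR : 0 < R) (hRr : R ≤ r) (h9 : (k - bF) * r ≤ k0) (h10 : k0 < w + 1)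
    (h11 : 5 * (A - w) ≤ k - w) (h12 : 4 * w + 1 ≤ A) (h13 : 5 ≤ w) :
    False := by
  have hA : 0 < A := by linarith
  have hr : 0 < r := hR.trans_le hRr
  obtain ⟨κ, hκ⟩ : ∃ κ, κ = (k - bF) * r := ⟨_, rfl⟩
  obtain ⟨χ, hχ⟩ : ∃ χ, χ = (k - bG) * R := ⟨_, rfl⟩
  rw [← hκ] at h9
  rw [← hχ] at h1 h2
  have hκ0 : 0 < κ := by rw [hκ]; exact mul_pos (by linarith) hr
  have s1 : χ ≤ κ := by
    rw [hχ, hκ]
    exact mul_le_mul (by linarith) hRr hR.le (by linarith)
  -- the defect of `F`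
  have s3 : (w - bF) * A ≤ κ * w :=
    h4.trans (mul_le_mul_of_nonneg_right (by linarith) (by linarith))
  have s4 : w - bF ≤ κ := by
    have e1 : (w - bF) * A ≤ κ * A :=
      s3.trans (mul_le_mul_of_nonneg_left (by linarith) hκ0.le)
    exact le_of_mul_le_mul_right e1 hA
  have s4' : w - bF ≤ A - bG := by
    have e1 : (w - bF) * A ≤ (A - bG) * A :=
      h4.trans (mul_le_mul_of_nonneg_left (by linarith) (by linarith))
    exact le_of_mul_le_mul_right e1 hA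
  -- left side
  have s5 : (A - w) * (κ - (w - bF)) ≤ (A - bF) * (bF + κ - w) := by
    have e1 : 0 ≤ κ - (w - bF) := by linarith
    have e2 : (A - w) * (κ - (w - bF)) ≤ (A - bF) * (κ - (w - bF)) :=
      mul_le_mul_of_nonneg_right (by linarith) e1
    calc _ ≤ _ := e2
      _ = _ := by ring
  have s5' : (A - w) ^ 2 * κ ≤ A * ((A - w) * (κ - (w - bF))) := by
    have e1 : (A - w) * ((w - bF) * A) ≤ (A - w) * (κ * w) :=
      mul_le_mul_of_nonneg_left s3 (by linarith)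
    nlinarith [e1]
  -- right side, first part
  have s6 : r * ((k - bG) * ((k - w) * R)) ≤ κ * k0 := by
    have e1 : r * (k - bG) ≤ κ := by
      rw [hκ, mul_comm]
      exact mul_le_mul_of_nonneg_right (by linarith) hr.le
    have e2 : (k - w) * R ≤ κ := by
      rw [hκ]
      exact mul_le_mul (by linarith) hRr hR.le (by linarith)
    have e3 : 0 ≤ (k - w) * R := mul_nonneg (by linarith) hR.le
    calc r * ((k - bG) * ((k - w) * R)) = (r * (k - bG)) * ((k - w) * R) := by ring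
      _ ≤ κ * k0 := mul_le_mul e1 (e2.trans h9) e3 hκ0.le
  have s7 : (bG - bF) * (bG + χ - w) ≤ (A - w) * A :=
    mul_le_mul (by linarith) (by linarith) (by linarith) (by linarith)
  have s8 : 5 * (r * (A - w)) ≤ κ := by
    have e1 : r * (5 * (A - w)) ≤ r * (k - w) := mul_le_mul_of_nonneg_left h11 hr.le
    have e2 : r * (k - w) ≤ κ := by
      rw [hκ, mul_comm r]
      exact mul_le_mul_of_nonneg_right (by linarith) hr.le
    linarith
  have s9 : r * ((bG - bF) * (bG + χ - w)) ≤ κ / 5 * A := by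
    have e1 : r * ((bG - bF) * (bG + χ - w)) ≤ r * ((A - w) * A) :=
      mul_le_mul_of_nonneg_left s7 hr.le
    have e2 : (r * (A - w)) * A ≤ κ / 5 * A := mul_le_mul_of_nonneg_right (by linarith) hA.le
    linarith
  rw [← hκ, ← hχ, mul_add] at h7
  have t1 : (A - w) * (κ - (w - bF)) ≤ κ / 5 * A + κ * k0 := by linarith
  have t2 : (A - w) ^ 2 * κ ≤ (A * (A / 5 + k0)) * κ := by
    have := mul_le_mul_of_nonneg_left t1 hA.le
    calc _ ≤ _ := s5'
      _ ≤ _ := this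
      _ = _ := by ring
  have t3 : (A - w) ^ 2 ≤ A * (A / 5 + k0) := le_of_mul_le_mul_right t2 hκ0
  have t4 : A * (A / 5 + k0) ≤ A * (17 / 35 * A) :=
    mul_le_mul_of_nonneg_left (by linarith) hA.le
  have t5 : (3 / 4 * A) ^ 2 ≤ (A - w) ^ 2 := by
    apply pow_le_pow_left₀ (by linarith)
    linarith
  nlinarith [mul_pos hA hA]

theorem Ngd_step (h5 : 5 ≤ C.a 2) {j : ℕ} (hj : 2 ≤ j) (hk : C.k0 < C.a j + 1) {i : ℕ}
    (hji : j ≤ i) (hi : i ≤ C.m + 2) (ih : ∀ J, C.IsF (i + 2) J → C.b J ≤ C.a (i + 1))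
    {G : Set α} (hG : C.IsF (i + 1) G) : C.b G ≤ C.a i := by
  classical
  by_contra hcon
  push Not at hcon
  have hji' : C.a j ≤ C.a i := C.a_le hji (by omega)
  have hw5 : 5 ≤ C.a i := h5.trans (C.a_le (by omega) (by omega))
  have hAge := a_ge (C := C) (i := i) (by omega)
  have h12 : 4 * C.a i + 1 ≤ C.a (i + 1) := by
    have : 4 * C.a i ≤ (C.a 2 - 1) * C.a i :=
      mul_le_mul_of_nonneg_right (by linarith) (by linarith)
    linarith
  -- (1)
  have g1 : ∀ G', C.IsF (i + 1) G' → C.a i < C.b G' →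
      C.a (i + 1) ≤ C.b G' + (C.k - C.b G') * C.rho (i + 1) ∧
      (C.k - C.b G') * C.rho (i + 1) ≤ C.k0 := by
    intro G' hG' hlt
    exact ⟨mu_ge_of_lt (by omega) hG' hi hlt, kap_le (by omega) hG'⟩
  have gs : C.b G ≤ C.a (i + 1) - 1 :=
    hG.b_le_sub (ful h5 hj hk (by omega) (by omega) hG)
  -- (2)
  obtain ⟨F, hF, hFG, hFg⟩ := gdy (by omega) hG
  have hFw := hF.b_le
  -- (3)
  have g3 : ∀ y ∈ C.out F, y ∉ G → C.b (C.jn F y) ≤ C.a i := by
    intro y hy hyG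
    obtain ⟨hyB, hyF⟩ := mem_out.1 hy
    by_contra hlt
    push Not at hlt
    have hG' := hF.jn hyF
    obtain ⟨e1, e2⟩ := g1 _ hG' hlt
    obtain ⟨e3, e4⟩ := g1 _ hG hcon
    have hne : G ≠ C.jn F y := fun h => hyG (h ▸ mem_jn F y)
    have hint := hF.inter_eq hG hG' hFG (sub_jn F y) hne
    have hJ := hG.jn hyG
    have hJG : C.jn F y ⊆ C.jn G y :=
      jn_subset hJ (hFG.trans (sub_jn G y)) (mem_jn G y)
    have e5 := b_union_le (C := C) (sub_jn G y) hJG hint.subset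
    have e6 := ih _ hJ
    linarith
  -- (4)
  have g4 := growth hi hF hi
  have hsplit : ∑ y ∈ C.out F, (C.mu (i + 1) (C.jn F y) - C.a i) ≤
      (C.b G - C.b F) * (C.b G + (C.k - C.b G) * C.rho (i + 1) - C.a i) +
      (C.k - C.b G) * ((C.k - C.a i) * C.rho (i + 1)) := by
    have hout : (C.out F).filter (fun y => ¬ y ∈ G) = C.out G := by
      ext y
      rw [Finset.mem_filter, mem_out, mem_out]
      constructor
      · rintro ⟨⟨a1, a2⟩, a3⟩; exact ⟨a1, a3⟩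
      · rintro ⟨a1, a3⟩; exact ⟨⟨a1, fun h => a3 (hFG h)⟩, a3⟩
    have hc := Finset.card_filter_add_card_filter_not (s := C.out F) (fun y => y ∈ G)
    rw [hout] at hc
    have hc' : (((C.out F).filter (fun y => y ∈ G)).card : ℝ) = C.b G - C.b F := by
      have e1 := card_out (C := C) (F := F)
      have e2 := card_out (C := C) (F := G)
      have e3 : (((C.out F).filter (fun y => y ∈ G)).card : ℝ) + (C.out G).card =
          (C.out F).card := by exact_mod_cast hc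
      linarith
    rw [← Finset.sum_filter_add_sum_filter_not (C.out F) (fun y => y ∈ G), hout]
    apply add_le_add
    · rw [Finset.sum_congr rfl (g := fun _ =>
        C.b G + (C.k - C.b G) * C.rho (i + 1) - C.a i), Finset.sum_const, nsmul_eq_mul, hc']
      intro y hy
      obtain ⟨a1, a2⟩ := Finset.mem_filter.1 hy
      rw [hF.eq_jn hG hFG a2 (mem_out.1 a1).2]
      rfl
    · rw [← card_out, ← nsmul_eq_mul]
      apply Finset.sum_le_card_nsmul
      intro y hy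
      have hyG := (mem_out.1 hy)
      have hyF : y ∉ F := fun h => hyG.2 (hFG h)
      have e1 := g3 y (mem_out.2 ⟨hyG.1, hyF⟩) hyG.2
      have e2 := rho_lt_one (C := C) (i := i + 1) (by omega)
      have e3 : (C.a i - C.b (C.jn F y)) * C.rho (i + 1) ≤ C.a i - C.b (C.jn F y) := by
        have := mul_le_mul_of_nonneg_left e2.le (show 0 ≤ C.a i - C.b (C.jn F y) by linarith)
        linarith
      rw [mu]
      linarith
  have h7 := g4.trans (mul_le_mul_of_nonneg_left hsplit (rho_pos (C := C) (by omega)).le)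
  obtain ⟨e1, e2⟩ := g1 _ hG hcon
  have h11 : 5 * (C.a (i + 1) - C.a i) ≤ C.k - C.a i := by
    have a1 := K_mul (C := C) (i := i) (by omega)
    have a2 := K_mono (C := C) (Nat.zero_le i) (by omega)
    rw [K_zero] at a2
    have a3 : C.a (i + 2) ≤ C.k := C.a_le (by omega) (by omega)
    have a4 : 5 * (C.a (i + 1) - C.a i) ≤ C.K i * (C.a (i + 1) - C.a i) :=
      mul_le_mul_of_nonneg_right (by linarith) (by linarith)
    linarith
  exact Ngd_arith e1 e2 gs hFg hFw h7 (rho_pos (by omega)) (rho_anti (by omega) (by omega))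
    (kap_le (by omega) hF) (by linarith) h11 h12 hw5

theorem ngd (h5 : 5 ≤ C.a 2) {j : ℕ} (hj : 2 ≤ j) (hk : C.k0 < C.a j + 1) {i : ℕ} (hji : j ≤ i)
    (hi : i + 1 ≤ C.m + 4) {G : Set α} (hG : C.IsF (i + 1) G) : C.b G ≤ C.a i := by
  obtain ⟨n, hn⟩ : ∃ n, i + n = C.m + 3 := ⟨C.m + 3 - i, by omega⟩
  induction n generalizing i G with
  | zero =>
    have : i = C.m + 3 := by omega
    subst this
    exact b_hyp_le hG
  | succ n ihn =>
    apply Ngd_step h5 hj hk hji (by omega) _ hG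
    intro J hJ
    exact ihn (i := i + 1) (by omega) (by omega) hJ (by omega)

end Pool.Agent.H63.PD
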