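import Pool.Agent.H63.PD.Mom

/-!
# SIZ: the sizes of a perfect matroid design

Everything here is about `a i = σ (τ+i) - σ τ` and `K i = (a (i+2) - a i) / (a (i+1) - a i)`
(definitions in `Defs.lean`).  Tools: `Pool/Agent/H69/PmdMain.lean`, `PmdCount.lean`
(`IsPmd.covers_mul`, `card_covers_le`, `exists_config`, `IsPmd.exists_flat`, `exists_flat_ge`,
`IsPmd.lt`), see the proof of `IsPmd.diff_eq` there.

Proofs.
* `K_mul`: definition (`a i < a (i+1)`).
* `K_nat`: take `F` of relative rank `i` and `G ⊇ F` of relative rank `i+2` (`IsF.exists_ge` twice,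
  starting from `isF_base`); `K i` is the number of elements of `covers M F G`, by `IsPmd.covers_mul`.
* `K_mono`: `card_covers_le` for a configuration given by `exists_config` (compare the proof of
  `IsPmd.diff_eq`): the number of flats of rank `i+1` between flats of rank `i` and `i+2` is at most
  the number of flats of rank `i+2` between flats of rank `i+1` and `i+3` (map `C ↦ C ∨ F`, where
  `F' ⊆ F`, `F' ⊆ C ⊆ H`, `F ⊓ H = F'`).
* `K_zero`: `a 0 = 0`, `a 1 = 1`.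
* `dif_ge`: `a (i+2) - a (i+1) = (K i - 1) (a (i+1) - a i)` and `K i ≥ K 0 = a 2`.
* `a_ge`: induction on `i` with `dif_ge`: `a (i+1) = a 1 + ∑ (a (l+1) - a l)`.
* `planes`: double counting of pairs (point, line) in a plane: let `F₀ ⊆ G` with `G` of relative rank 3;
  count the pairs `(P, L)`, `F₀ ⊂ P ⊂ L ⊂ G`, `P` of relative rank 1 and `L` of relative rank 2:
  there are `a 3` flats `P` (each has relative size 1), each is in `K 1` flats `L`; every `L`
  contains `a 2` flats `P`.  So `N * a 2 = a 3 * K 1` where `N` is the number of flats `L`.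
  (`double_count` and `covers_mul`, or count the points `y ∈ G \ F₀` instead of the flats `P`.)
* `K_one`: `a 3 = 1 + K 1 (a 2 - 1)`, so `a 2` divides `K 1 (1 - K 1)`, i.e. with `l = a 2` and
  `K 1 = l + c`: `l ∣ c (c - 1)`.  If `c ≥ 2` then `c (c-1) ≥ l ≥ 5` gives `c ≥ 3`; `c = 3` means
  `l ∣ 6`, `l = 6`.
* `ratio`: for `i ≥ 1`: `a (i+1) + a i ≤ K i * a i` (this is `K i ≥ r i + 1` with
  `r i = a (i+1) / a i`), by induction: `i = 1`: `a 2 + 1 ≤ K 1`;
  step: `r (i+1) = K i - (K i - 1) / r i ≤ K i - 1 ≤ K (i+1) - 1`.  Then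
  `a (i+2) a i - a (i+1)^2 = (a (i+1) - a i) (K i * a i - a i - a (i+1)) ≥ 0`.
-/

open Set

namespace Pool.Agent.H63.PD

open Pool.Agent.H69.Pmd

set_option linter.unusedSectionVars false

variable {α : Type*} [Fintype α] {C : PD α}

theorem K_mul {i : ℕ} (hi : i ≤ C.m + 3) :
    C.K i * (C.a (i + 1) - C.a i) = C.a (i + 2) - C.a i := by
  have h := C.a_lt (show i < i + 1 by omega) (by omega)
  rw [K, div_mul_cancel₀]
  linarith

theorem K_zero : C.K 0 = C.a 2 := by
  rw [K, C.a_zero, zero_add, C.a_one]; simp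

/-- `K i` counts the covers between any two flats of ranks `τ + i`, `τ + i + 2` -/
theorem Siz_K {i : ℕ} (hi : i ≤ C.m + 3) {F G : Set α} (hF : C.M.IsFlat F) (hG : C.M.IsFlat G)
    (hFr : C.M.eRk F = ((C.τ + i : ℕ) : ℕ∞)) (hGr : C.M.eRk G = ((C.τ + i + 2 : ℕ) : ℕ∞))
    (hFG : F ⊆ G) : C.K i = ((covers C.M F G).card : ℝ) := by
  have h1 := C.pmd.covers_mul hF hG hFr hGr hFG
  have l1 := C.pmd.lt (show C.τ + i < C.τ + i + 1 by omega) (by omega)
  have l2 := C.pmd.lt (show C.τ + i < C.τ + i + 2 by omega) (by omega)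
  have h2 : ((covers C.M F G).card : ℝ) * ((C.σ (C.τ + i + 1) : ℝ) - C.σ (C.τ + i)) =
      (C.σ (C.τ + i + 2) : ℝ) - C.σ (C.τ + i) := by
    have := congrArg (Nat.cast : ℕ → ℝ) h1
    rw [Nat.cast_mul, Nat.cast_sub l1.le, Nat.cast_sub l2.le] at this
    exact this
  have h3 := K_mul (C := C) hi
  have e1 : C.a (i + 1) - C.a i = (C.σ (C.τ + i + 1) : ℝ) - C.σ (C.τ + i) := by
    simp only [a]
    rw [show C.τ + (i + 1) = C.τ + i + 1 by omega]
    ring
  have e2 : C.a (i + 2) - C.a i = (C.σ (C.τ + i + 2) : ℝ) - C.σ (C.τ + i) := by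
    simp only [a]
    rw [show C.τ + (i + 2) = C.τ + i + 2 by omega]
    ring
  rw [e1, e2, ← h2] at h3
  have l3 : (C.σ (C.τ + i) : ℝ) < C.σ (C.τ + i + 1) := by exact_mod_cast l1
  exact mul_right_cancel₀ (by linarith) h3

theorem K_nat {i : ℕ} (hi : i ≤ C.m + 3) : ∃ n : ℕ, C.K i = n := by
  obtain ⟨F, hF, -⟩ := (isF_base (C := C)).exists_ge (Nat.zero_le i) (by omega)
  obtain ⟨G, hG, hFG⟩ := hF.exists_ge (show i ≤ i + 2 by omega) (by omega)
  exact ⟨_, Siz_K hi hF.1 hG.1 hF.2.1 (by rw [hG.2.1]; congr 1) hFG⟩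

theorem K_mono_succ {i : ℕ} (hi : i ≤ C.m + 2) : C.K i ≤ C.K (i + 1) := by
  obtain ⟨F, hF, hFr⟩ := C.pmd.exists_flat (i := C.τ + i + 1) (by omega)
  obtain ⟨H, hH, hFH, hHr⟩ := exists_flat_ge C.pmd.ground C.pmd.rank 2 hF hFr (by omega)
  have hHr' : C.M.eRk H = ((C.τ + i + 3 : ℕ) : ℕ∞) := by rw [hHr]
  obtain ⟨F', D, hF', hD, hF'r, hDr, h1, h2, h3, h4⟩ :=
    exists_config C.pmd.ground hF hH hFr hHr' hFH
  have hle := card_covers_le C.pmd.ground hF' hF hD hH hF'r hFr hDr h1 hFH h3 h4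
  rw [Siz_K (by omega) hF' hD hF'r hDr h2,
    Siz_K (i := i + 1) (by omega) hF hH (by rw [hFr]; congr 1)
      (by rw [hHr']; congr 1) hFH]
  exact_mod_cast hle

theorem K_mono {i j : ℕ} (hij : i ≤ j) (hj : j ≤ C.m + 3) : C.K i ≤ C.K j := by
  induction j, hij using Nat.le_induction with
  | base => exact le_rfl
  | succ j hij ih => exact (ih (by omega)).trans (K_mono_succ (by omega))

theorem dif_ge {i : ℕ} (hi : i ≤ C.m + 3) :
    (C.a 2 - 1) * (C.a (i + 1) - C.a i) ≤ C.a (i + 2) - C.a (i + 1) := by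
  have h1 := K_mul (C := C) hi
  have h2 := K_mono (C := C) (Nat.zero_le i) hi
  rw [K_zero] at h2
  have h3 := C.a_lt (show i < i + 1 by omega) (by omega)
  have h4 : (C.a 2 - 1) * (C.a (i + 1) - C.a i) ≤ (C.K i - 1) * (C.a (i + 1) - C.a i) :=
    mul_le_mul_of_nonneg_right (by linarith) (by linarith)
  linarith

theorem a_ge {i : ℕ} (hi : i ≤ C.m + 4) : (C.a 2 - 1) * C.a i + 1 ≤ C.a (i + 1) := by
  induction i with
  | zero => rw [C.a_zero, mul_zero, zero_add, zero_add, C.a_one]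
  | succ i ih =>
    have h1 := ih (by omega)
    have h2 := dif_ge (C := C) (i := i) (by omega)
    rw [show i + 1 + 1 = i + 2 from rfl]
    linarith

theorem planes : ∃ N : ℕ, (N : ℝ) * C.a 2 = C.a 3 * C.K 1 := by
  classical
  obtain ⟨G, hG, hFG⟩ := (isF_base (C := C)).exists_ge (show 0 ≤ 3 by omega) (by omega)
  set S : Finset α := (Set.toFinite (G \ C.F₀)).toFinset with hS
  set T : Finset (Set α) := Finset.univ.filter (fun L => C.IsF 2 L ∧ L ⊆ G) with hT
  have hmS : ∀ y, y ∈ S ↔ y ∈ G ∧ y ∉ C.F₀ := fun y => by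
    rw [hS, Set.Finite.mem_toFinset]; exact Iff.rfl
  have hmT : ∀ L, L ∈ T ↔ C.IsF 2 L ∧ L ⊆ G := fun L => by simp [hT]
  have h1 := Finset.sum_card_bipartiteAbove_eq_sum_card_bipartiteBelow
    (s := S) (t := T) (fun y L => y ∈ L)
  -- lines on a point
  have h2 : ∀ y ∈ S, ((Finset.bipartiteAbove (fun y L => y ∈ L) T y).card : ℝ) = C.K 1 := by
    intro y hy
    obtain ⟨hyG, hyF⟩ := (hmS y).1 hy
    have hP := (isF_base (C := C)).jn hyF
    rw [zero_add] at hP
    have hPG : C.jn C.F₀ y ⊆ G := jn_subset hG hFG hyG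
    rw [Siz_K (i := 1) (by omega) hP.1 hG.1 hP.2.1 hG.2.1 hPG]
    congr 2
    ext L
    rw [Finset.mem_bipartiteAbove, hmT, mem_covers]
    constructor
    · rintro ⟨⟨hL, hLG⟩, hyL⟩
      refine ⟨hL.1, jn_subset hL hL.2.2 hyL, hLG, ?_⟩
      rw [hL.2.1, hP.2.1]
      push_cast
      rw [add_assoc, one_add_one_eq_two]
    · rintro ⟨hL, hPL, hLG, hr⟩
      refine ⟨⟨⟨hL, ?_, (sub_jn C.F₀ y).trans hPL⟩, hLG⟩, hPL (mem_jn C.F₀ y)⟩
      rw [hr, hP.2.1]
      push_cast
      rw [add_assoc, one_add_one_eq_two]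
  -- points on a line
  have h3 : ∀ L ∈ T, ((Finset.bipartiteBelow (fun y L => y ∈ L) S L).card : ℝ) = C.a 2 := by
    intro L hL
    obtain ⟨hL1, hLG⟩ := (hmT L).1 hL
    have e1 : Finset.bipartiteBelow (fun y L => y ∈ L) S L = (Set.toFinite (L \ C.F₀)).toFinset := by
      ext y
      rw [Finset.mem_bipartiteBelow, hmS, Set.Finite.mem_toFinset, mem_sdiff]
      constructor
      · rintro ⟨⟨a1, a2⟩, a3⟩
        exact ⟨a3, a2⟩
      · rintro ⟨a1, a2⟩
        exact ⟨⟨hLG a1, a2⟩, a1⟩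
    rw [e1, ← Set.ncard_eq_toFinset_card]
    have e2 := Set.ncard_sdiff_add_ncard_of_subset hL1.2.2 (Set.toFinite L)
    have e3 := hL1.ncard
    have e4 := (isF_base (C := C)).ncard
    rw [C.a_zero] at e4
    have e5 : (((L \ C.F₀).ncard : ℝ)) + (C.F₀.ncard : ℝ) = (L.ncard : ℝ) := by exact_mod_cast e2
    linarith
  have h4 : (S.card : ℝ) = C.a 3 := by
    rw [hS, ← Set.ncard_eq_toFinset_card]
    have e2 := Set.ncard_sdiff_add_ncard_of_subset hFG (Set.toFinite G)
    have e3 := hG.ncard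
    have e4 := (isF_base (C := C)).ncard
    rw [C.a_zero] at e4
    have e5 : (((G \ C.F₀).ncard : ℝ)) + (C.F₀.ncard : ℝ) = (G.ncard : ℝ) := by exact_mod_cast e2
    linarith
  refine ⟨T.card, ?_⟩
  have h5 := congrArg (Nat.cast : ℕ → ℝ) h1
  rw [Nat.cast_sum, Nat.cast_sum, Finset.sum_congr rfl h2, Finset.sum_congr rfl h3,
    Finset.sum_const, Finset.sum_const, nsmul_eq_mul, nsmul_eq_mul, h4] at h5
  exact h5.symm

theorem a_three : C.a 3 = 1 + C.K 1 * (C.a 2 - 1) := by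
  have := K_mul (C := C) (i := 1) (by omega)
  norm_num at this
  rw [C.a_one] at this
  linarith

theorem Siz_arith {l c N : ℤ} (hl : 5 ≤ l) (hc : 0 ≤ c)
    (h : N * l = (1 + (l + c) * (l - 1)) * (l + c)) :
    c = 0 ∨ c = 1 ∨ 4 ≤ c ∨ (l = 6 ∧ c = 3) := by
  have hdvd : l ∣ c * (c - 1) := by
    refine ⟨(l + c) ^ 2 - N - l - 2 * c + 1, ?_⟩
    linear_combination h
  rcases lt_or_ge c 4 with h4 | h4
  · interval_cases c
    · exact Or.inl rfl
    · exact Or.inr (Or.inl rfl)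
    · exfalso
      have := Int.le_of_dvd (by norm_num) hdvd
      omega
    · right; right; right
      have h6 : l ≤ 6 := Int.le_of_dvd (by norm_num) hdvd
      refine ⟨?_, rfl⟩
      interval_cases l
      · omega
      · rfl
  · exact Or.inr (Or.inr (Or.inl h4))

theorem K_one (h5 : 5 ≤ C.a 2) : C.K 1 = C.a 2 ∨ C.K 1 = C.a 2 + 1 ∨ C.a 2 + 4 ≤ C.K 1 ∨
    (C.a 2 = 6 ∧ C.K 1 = 9) := by
  obtain ⟨n, hn⟩ := K_nat (C := C) (i := 1) (by omega)
  obtain ⟨N, hN⟩ := planes (C := C)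
  obtain ⟨l, hl⟩ := K_nat (C := C) (i := 0) (by omega)
  rw [K_zero] at hl
  have hmono := K_mono (C := C) (show 0 ≤ 1 by omega) (by omega)
  rw [K_zero] at hmono
  rw [a_three, hn, hl] at hN
  rw [hn, hl] at hmono
  have hln : l ≤ n := by exact_mod_cast hmono
  have hl5 : 5 ≤ l := by
    rw [hl] at h5
    exact_mod_cast h5
  obtain ⟨c, rfl⟩ := Nat.exists_eq_add_of_le hln
  have hZ : (N : ℤ) * l = (1 + ((l : ℤ) + c) * ((l : ℤ) - 1)) * ((l : ℤ) + c) := by
    have : (N : ℝ) * l = (1 + ((l : ℝ) + c) * ((l : ℝ) - 1)) * ((l : ℝ) + c) := by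
      push_cast at hN
      exact hN
    exact_mod_cast this
  have := Siz_arith (by exact_mod_cast hl5) (by positivity) hZ
  rw [hn, hl]
  push_cast
  rcases this with h | h | h | ⟨h1, h2⟩
  · left
    have : c = 0 := by exact_mod_cast h
    rw [this]; simp
  · right; left
    have : c = 1 := by exact_mod_cast h
    rw [this]; simp
  · right; right; left
    have : 4 ≤ c := by exact_mod_cast h
    have : (4 : ℝ) ≤ c := by exact_mod_cast this
    linarith
  · right; right; right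
    have h3 : l = 6 := by exact_mod_cast h1
    have h4 : c = 3 := by exact_mod_cast h2
    rw [h3, h4]
    norm_num

theorem Siz_R (h : C.a 2 + 1 ≤ C.K 1) {i : ℕ} (h1 : 1 ≤ i) (hi : i ≤ C.m + 3) :
    C.a (i + 1) + C.a i ≤ C.K i * C.a i := by
  induction i, h1 using Nat.le_induction with
  | base =>
    rw [C.a_one, mul_one]
    exact h
  | succ i h1 ih =>
    have h2 := ih (by omega)
    have h3 := K_mul (C := C) (i := i) (by omega)
    have h4 := K_mono_succ (C := C) (i := i) (by omega)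
    have h5 := C.a_nonneg (i := i + 1) (by omega)
    have h6 : C.K i * C.a (i + 1) ≤ C.K (i + 1) * C.a (i + 1) := mul_le_mul_of_nonneg_right h4 h5
    rw [show i + 1 + 1 = i + 2 from rfl]
    linarith

theorem ratio (h : C.a 2 + 1 ≤ C.K 1) {i : ℕ} (h1 : 1 ≤ i) (hi : i ≤ C.m + 3) :
    C.a (i + 1) ^ 2 ≤ C.a i * C.a (i + 2) := by
  have h2 := Siz_R h h1 hi
  have h3 := K_mul (C := C) (i := i) hi
  have h4 := C.a_lt (show i < i + 1 by omega) (by omega)
  have e : C.a i * C.a (i + 2) - C.a (i + 1) ^ 2 =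
      (C.a (i + 1) - C.a i) * (C.K i * C.a i - (C.a (i + 1) + C.a i)) := by
    linear_combination (-C.a i) * h3
  have h5 : 0 ≤ (C.a (i + 1) - C.a i) * (C.K i * C.a i - (C.a (i + 1) + C.a i)) :=
    mul_nonneg (by linarith) (by linarith)
  linarith

end Pool.Agent.H63.PD
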